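import Pool.Agent.Work.MP_c629c8_al.Mod.Rd

/-!
# The groups of branches in the universe `V`

* `exists_rd_V`: a set `B` of functions from `ℕ` to `ℕ` and a function `p` on the finite sequences
  have codes in `V`;
* `not_countable_of_rd`: an index set which is uncountable in the sense of `V` is uncountable.
-/

set_option linter.unusedSectionVars false

namespace Pool.Agent.Unif

open Pool.Agent.SigB Pool.Agent.Frc Pool.Agent.Forc Pool.Agent.GPA

/-! ### Codes of functions -/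

/-- The code of a function `ℕ → ℕ`. -/
noncomputable def fcd (b : ℕ → ℕ) : V := cd {w : ℕ × ℕ | b w.1 = w.2}

theorem op_mem_fcd {b : ℕ → ℕ} {n m : ℕ} :
    SigB.op (nt V n) (nt V m) ∈ fcd b ↔ b n = m :=
  cd_mem_cd (s := {w : ℕ × ℕ | b w.1 = w.2}) (a := (n, m))

theorem mem_fcd {b : ℕ → ℕ} {z : V} :
    z ∈ fcd b ↔ ∃ n, z = SigB.op (nt V n) (nt V (b n)) := by
  unfold fcd
  rw [mem_cd_set]
  constructor
  · rintro ⟨⟨n, m⟩, h, rfl⟩
    have h' : b n = m := h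
    exact ⟨n, by rw [h']; rfl⟩
  · rintro ⟨n, rfl⟩
    exact ⟨(n, b n), rfl, rfl⟩

theorem fcd_inj {b b' : ℕ → ℕ} (h : fcd b = fcd b') : b = b' := by
  funext n
  have h1 : SigB.op (nt V n) (nt V (b n)) ∈ fcd b' := h ▸ op_mem_fcd.2 rfl
  exact (op_mem_fcd.1 h1).symm

theorem isMap_fcd (b : ℕ → ℕ) : IsMap (fcd b) (om : V) om := by
  refine ⟨fun z hz => ?_, fun x hx => ?_⟩
  · obtain ⟨n, rfl⟩ := mem_fcd.1 hz
    exact ⟨nt V n, nt V (b n), nt_mem_om _, nt_mem_om _, isOrdPair_iff.2 rfl⟩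
  · obtain ⟨n, rfl⟩ := om_V x hx
    refine ⟨nt V (b n), val_iff.2 (op_mem_fcd.2 rfl), fun y hy => ?_⟩
    obtain ⟨m, hm⟩ := mem_fcd.1 (val_iff.1 hy)
    obtain ⟨h1, h2⟩ := SigB.op_inj.1 hm
    rw [h2, nt_inj h1]

/-- The set of the finite sequences. -/
theorem mem_univ_list {r : V} : r ∈ cd (Set.univ : Set (List ℕ)) ↔ ∃ s, r = sq V s := by
  rw [mem_cd_set]
  exact ⟨fun ⟨s, _, h⟩ => ⟨s, h⟩, fun ⟨s, h⟩ => ⟨s, trivial, h⟩⟩

theorem mem_univ_list_iff {r : V} : r ∈ cd (Set.univ : Set (List ℕ)) ↔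
    ∃ k, k ∈ (om : V) ∧ IsMap r k om := by
  rw [mem_univ_list]
  constructor
  · rintro ⟨s, rfl⟩
    exact ⟨nt V s.length, nt_mem_om _, isMap_iff.2 (sq_mem_fs s)⟩
  · rintro ⟨k, hk, h⟩
    obtain ⟨s, -, hs⟩ := (isMap_om_iff om_V hk).1 h
    exact ⟨s, hs⟩

/-- The code of a function on the finite sequences. -/
noncomputable def pcd (p : List ℕ → ℕ) : V := cd {w : List ℕ × ℕ | p w.1 = w.2}

theorem op_mem_pcd {p : List ℕ → ℕ} {s : List ℕ} {q : ℕ} :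
    SigB.op (sq V s) (nt V q) ∈ pcd p ↔ p s = q :=
  cd_mem_cd (s := {w : List ℕ × ℕ | p w.1 = w.2}) (a := (s, q))

theorem mem_pcd {p : List ℕ → ℕ} {z : V} :
    z ∈ pcd p ↔ ∃ s, z = SigB.op (sq V s) (nt V (p s)) := by
  unfold pcd
  rw [mem_cd_set]
  constructor
  · rintro ⟨⟨n, m⟩, h, rfl⟩
    have h' : p n = m := h
    exact ⟨n, by rw [h']; rfl⟩
  · rintro ⟨n, rfl⟩
    exact ⟨(n, p n), rfl, rfl⟩

theorem isInjection_pcd {p : List ℕ → ℕ} (hp : Function.Injective p) :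
    IsInjection (pcd p) (cd (Set.univ : Set (List ℕ))) (om : V) := by
  refine ⟨⟨fun z hz => ?_, fun x hx => ?_⟩, fun x x' y h h' => ?_⟩
  · obtain ⟨n, rfl⟩ := mem_pcd.1 hz
    exact ⟨sq V n, nt V (p n), mem_univ_list.2 ⟨n, rfl⟩, nt_mem_om _, isOrdPair_iff.2 rfl⟩
  · obtain ⟨n, rfl⟩ := mem_univ_list.1 hx
    refine ⟨nt V (p n), val_iff.2 (op_mem_pcd.2 rfl), fun y hy => ?_⟩
    obtain ⟨m, hm⟩ := mem_pcd.1 (val_iff.1 hy)
    obtain ⟨h1, h2⟩ := SigB.op_inj.1 hm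
    rw [h2, sq_inj h1]
  · obtain ⟨n, hn⟩ := mem_pcd.1 (val_iff.1 h)
    obtain ⟨m, hm⟩ := mem_pcd.1 (val_iff.1 h')
    obtain ⟨h1, h2⟩ := SigB.op_inj.1 hn
    obtain ⟨h3, h4⟩ := SigB.op_inj.1 hm
    rw [h1, h3, hp (nt_inj (h2.symm.trans h4))]

/-! ### Countable sets in `V` -/

/-- A set of `V` is countable in `V` iff it is countable. -/
theorem isCountable_V_iff {J : Type*} {A : V} {e : J → V} (he : ∀ x, x ∈ A ↔ ∃ j, x = e j) :
    IsCountable A ↔ (Set.range e).Countable := by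
  constructor
  · rintro ⟨o, ho, f, hf⟩
    rw [isOmega_iff.1 ho] at hf
    have h1 : ∀ x : Set.range e, ∃ n, Val f x.1 (nt V n) := by
      rintro ⟨_, j, rfl⟩
      obtain ⟨y, hy, -⟩ := hf.1.2 (e j) ((he _).2 ⟨j, rfl⟩)
      have hy' : y ∈ (om : V) := by
        obtain ⟨z, hz, hzo⟩ := hy
        obtain ⟨x', y', -, hy', h⟩ := hf.1.1 z hz
        rw [isOrdPair_iff] at hzo h
        rw [(SigB.op_inj.1 (hzo.symm.trans h)).2]
        exact hy'
      obtain ⟨n, rfl⟩ := om_V y hy'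
      exact ⟨n, hy⟩
    choose g hg using h1
    have hgi : Function.Injective g := by
      intro x x' h
      have h2 := hg x
      rw [h] at h2
      exact Subtype.ext (hf.2 x.1 x'.1 _ h2 (hg x'))
    exact (Set.countable_coe_iff (s := Set.range e)).1 hgi.countable
  · intro hc
    obtain ⟨g, hg⟩ := (Set.countable_iff_exists_injOn.1 hc)
    refine ⟨om, isOmega_iff.2 rfl, ZFSet.sep (fun z => ∃ x, x ∈ A ∧ z = SigB.op x (nt V (g x)))
      (pd A om), ⟨fun z hz => ?_, fun x hx => ?_⟩, fun x x' y h h' => ?_⟩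
    · obtain ⟨-, x, hx, rfl⟩ := ZFSet.mem_sep.1 hz
      exact ⟨x, _, hx, nt_mem_om _, isOrdPair_iff.2 rfl⟩
    · refine ⟨nt V (g x), val_iff.2 (ZFSet.mem_sep.2 ⟨op_mem_pd.2 ⟨hx, nt_mem_om _⟩, x, hx, rfl⟩),
        fun y hy => ?_⟩
      obtain ⟨-, x', -, h⟩ := ZFSet.mem_sep.1 (val_iff.1 hy)
      obtain ⟨h1, h2⟩ := SigB.op_inj.1 h
      rw [h2, h1]
    · obtain ⟨-, x₁, hx₁, h1⟩ := ZFSet.mem_sep.1 (val_iff.1 h)
      obtain ⟨-, x₂, hx₂, h2⟩ := ZFSet.mem_sep.1 (val_iff.1 h')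
      obtain ⟨rfl, h3⟩ := SigB.op_inj.1 h1
      obtain ⟨rfl, h4⟩ := SigB.op_inj.1 h2
      obtain ⟨j, hj⟩ := (he _).1 hx₁
      obtain ⟨j', hj'⟩ := (he _).1 hx₂
      exact hg ⟨j, hj.symm⟩ ⟨j', hj'.symm⟩ (nt_inj (h3.symm.trans h4))

/-- The data `Br` of a set of branches and of an injective function to the primes. -/
theorem exists_br_V {B : Set (ℕ → ℕ)} {p : List ℕ → ℕ} (hB : ¬ B.Countable)
    (hp : ∀ r, (p r).Prime) (hpi : Function.Injective p) :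
    ∃ D : Br V, D.Is ∧ (∀ b, b ∈ D.B ↔ ∃ j : B, b = fcd j.1) ∧ D.p = pcd p := by
  obtain ⟨ad, had⟩ := exists_add (K := V)
  obtain ⟨mu, hmu⟩ := exists_mul had
  have hmem : ∀ b : V, b ∈ ZFSet.range (fun j : B => fcd j.1) ↔ ∃ j : B, b = fcd j.1 := by
    intro b
    rw [ZFSet.mem_range]
    exact ⟨fun ⟨j, h⟩ => ⟨j, h.symm⟩, fun ⟨j, h⟩ => ⟨j, h.symm⟩⟩
  refine ⟨⟨om, ad, mu, cd (Set.univ : Set (List ℕ)), pcd p, ZFSet.range (fun j : B => fcd j.1)⟩,
    ?_, hmem, rfl⟩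
  refine ⟨isOmega_iff.2 rfl, had, hmu, fun r => mem_univ_list_iff, isInjection_pcd hpi,
    fun r q h => ?_, fun b hb => ?_, fun h => ?_⟩
  · obtain ⟨s, hs⟩ := mem_pcd.1 (val_iff.1 h)
    rw [(SigB.op_inj.1 hs).2]
    exact (isPrime_nt hmu had om_V).2 (hp s)
  · obtain ⟨j, rfl⟩ := (hmem b).1 hb
    exact isMap_fcd _
  · have h1 := (isCountable_V_iff hmem).1 h
    have h2 : Set.range (fun j : B => fcd j.1) = fcd '' B := by
      ext x
      constructor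
      · rintro ⟨j, rfl⟩
        exact ⟨j.1, j.2, rfl⟩
      · rintro ⟨b, hb, rfl⟩
        exact ⟨⟨b, hb⟩, rfl⟩
    rw [h2] at h1
    exact hB (Set.countable_of_injective_of_countable_image
      (fun b _ b' _ h => fcd_inj h) h1)

/-- The index set is uncountable. -/
theorem not_countable_of_br {D : Br V} (hD : D.Is) {J : Type*} {c : J → ℕ → ℕ} {bc : J → V}
    (hB : ∀ b, b ∈ D.B ↔ ∃ j, b = bc j)
    (hc : ∀ j n m, SigB.op (nt V n) (nt V m) ∈ bc j ↔ c j n = m) :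
    ¬ (Set.range c).Countable := by
  intro h
  apply hD.uncountable
  rw [isCountable_V_iff hB]
  have h1 : ∀ j, bc j = fcd (c j) := by
    intro j
    have h2 := hD.branch (bc j) ((hB _).2 ⟨j, rfl⟩)
    rw [isOmega_iff.1 hD.omega] at h2
    refine ext' fun z => ?_
    rw [mem_fcd]
    constructor
    · intro hz
      obtain ⟨x, y, hx, hy, h3⟩ := h2.1 z hz
      obtain ⟨n, rfl⟩ := om_V x hx
      obtain ⟨m, rfl⟩ := om_V y hy
      rw [isOrdPair_iff.1 h3] at hz ⊢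
      rw [hc] at hz
      exact ⟨n, by rw [hz]⟩
    · rintro ⟨n, rfl⟩
      rw [hc]
  have h2 : Set.range bc = fcd '' Set.range c := by
    rw [← Set.range_comp]
    congr 1
    funext j
    exact h1 j
  rw [h2]
  exact h.image _

/-- A set of sequences and an injective function to the primes are represented in `V`. -/
theorem exists_rd_V {B : Set (ℕ → ℕ)} {p : List ℕ → ℕ} (hB : ¬ B.Countable)
    (hp : ∀ r, (p r).Prime) (hpi : Function.Injective p) :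
    ∃ (D : Br V) (bc : B → V), Rd D (fun b : B => b.1) p bc := by
  obtain ⟨D, hD, h1, h2⟩ := exists_br_V hB hp hpi
  refine ⟨D, fun j => fcd j.1, om_V, hD, h1, fun _ _ h => Subtype.ext (fcd_inj h),
    fun _ _ _ => op_mem_fcd, fun s q => ?_⟩
  rw [h2]
  exact op_mem_pcd

theorem not_countable_of_rd {D : Br V} {J : Type*} {c : J → ℕ → ℕ} {p : List ℕ → ℕ}
    {bc : J → V} (R : Rd D c p bc) : ¬ (Set.range c).Countable :=
  not_countable_of_br R.is R.mem_B R.val_b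

end Pool.Agent.Unif
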