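import Pool.Agent.Work.MP_c629c8_al.PiGood
import Pool.Agent.Work.MP_c629c8_al.Grp.Comp

/-!
# Complete quotients of products of discrete groups and coherent families
-/

namespace Pool.Agent.Work.MP_c629c8_al

open Topology

variable {I : Type*} {D : I → Type*} [∀ i, AddCommGroup (D i)] [∀ i, TopologicalSpace (D i)]
  [∀ i, DiscreteTopology (D i)]

/-- the image of the open subgroup given by a finite set of coordinates in the quotient -/
def quotOpen (H : AddSubgroup (∀ i, D i)) (F : Finset I) : OpenAddSubgroup ((∀ i, D i) ⧸ H) where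
  toAddSubgroup := (coordOpen D F : AddSubgroup (∀ i, D i)).map (QuotientAddGroup.mk' H)
  isOpen' := QuotientAddGroup.isOpenMap_coe _ (coordOpen D F).isOpen'

lemma mk_mem_quotOpen {H : AddSubgroup (∀ i, D i)} {F : Finset I} {x : ∀ i, D i} :
    (QuotientAddGroup.mk x : (∀ i, D i) ⧸ H) ∈ quotOpen H F ↔ ∃ h ∈ H, ∀ i ∈ F, x i = h i := by
  constructor
  · rintro ⟨y, hy, hyx⟩
    refine ⟨-y + x, QuotientAddGroup.eq.1 hyx, fun i hi => ?_⟩
    have h0 : y i = 0 := hy i hi
    rw [Pi.add_apply, Pi.neg_apply, h0, neg_zero, zero_add]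
  · rintro ⟨h, hh, hx⟩
    refine ⟨x - h, fun i hi => ?_, ?_⟩
    · rw [Pi.sub_apply, hx i hi, sub_self]
    · refine QuotientAddGroup.eq.2 ?_
      have : -(x - h) + x = h := by abel
      rw [this]
      exact hh

lemma exists_quotOpen_le {H : AddSubgroup (∀ i, D i)} (N : OpenAddSubgroup ((∀ i, D i) ⧸ H)) :
    ∃ F : Finset I, quotOpen H F ≤ N := by
  obtain ⟨F, hF⟩ := exists_coordOpen_le
    (N.comap (QuotientAddGroup.mk' H) (continuous_quot_mk))
  refine ⟨F, ?_⟩
  rintro _ ⟨y, hy, rfl⟩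
  exact hF hy

/-- The quotient by `H` is complete if and only if the coherent families modulo `H` converge. -/
theorem linComplete_pi_quotient_iff (H : AddSubgroup (∀ i, D i)) :
    LinComplete ((∀ i, D i) ⧸ H) ↔ ∀ a : Finset I → ∀ i, D i,
      (∀ F F', F ⊆ F' → ∃ h ∈ H, ∀ i ∈ F, a F' i = a F i + h i) →
      ∃ y : ∀ i, D i, ∀ F, ∃ h ∈ H, ∀ i ∈ F, y i = a F i + h i := by
  classical
  constructor
  · intro hL a ha
    choose Fn hFn using fun N : OpenAddSubgroup ((∀ i, D i) ⧸ H) => exists_quotOpen_le N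
    have key : ∀ (F F' : Finset I), F ⊆ F' →
        (QuotientAddGroup.mk (a F') : (∀ i, D i) ⧸ H) - QuotientAddGroup.mk (a F) ∈
          quotOpen H F := by
      intro F F' hFF
      obtain ⟨h, hh, hv⟩ := ha F F' hFF
      show (QuotientAddGroup.mk (a F' - a F) : (∀ i, D i) ⧸ H) ∈ quotOpen H F
      refine mk_mem_quotOpen.2 ⟨h, hh, fun i hi => ?_⟩
      rw [Pi.sub_apply, hv i hi, add_sub_cancel_left]
    obtain ⟨y, hy⟩ := hL (fun N => QuotientAddGroup.mk (a (Fn N))) (by
      intro N M hMN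
      have h1 := hMN (hFn M (key (Fn M) (Fn M ∪ Fn N) Finset.subset_union_left))
      have h2 := hFn N (key (Fn N) (Fn M ∪ Fn N) Finset.subset_union_right)
      have h3 := sub_mem h2 h1
      rwa [sub_sub_sub_cancel_left] at h3)
    obtain ⟨y, rfl⟩ := QuotientAddGroup.mk_surjective y
    refine ⟨y, fun F => ?_⟩
    have h1 := hy (quotOpen H F)
    have h2 := hFn (quotOpen H F) (key (Fn (quotOpen H F)) (F ∪ Fn (quotOpen H F))
      Finset.subset_union_right)
    have h3 := key F (F ∪ Fn (quotOpen H F)) Finset.subset_union_left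
    have h4 := add_mem (sub_mem h1 h2) h3
    have h5 : (QuotientAddGroup.mk (y - a F) : (∀ i, D i) ⧸ H) ∈ quotOpen H F := by
      have h6 : (QuotientAddGroup.mk (y - a F) : (∀ i, D i) ⧸ H) =
          (QuotientAddGroup.mk y : (∀ i, D i) ⧸ H) - QuotientAddGroup.mk (a (Fn (quotOpen H F))) -
          (QuotientAddGroup.mk (a (F ∪ Fn (quotOpen H F))) -
            QuotientAddGroup.mk (a (Fn (quotOpen H F)))) +
          (QuotientAddGroup.mk (a (F ∪ Fn (quotOpen H F))) - QuotientAddGroup.mk (a F)) := by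
        rw [QuotientAddGroup.mk_sub]
        abel
      rw [h6]
      exact h4
    obtain ⟨h, hh, hv⟩ := mk_mem_quotOpen.1 h5
    refine ⟨h, hh, fun i hi => ?_⟩
    rw [← hv i hi, Pi.sub_apply, add_sub_cancel]
  · intro hA x hx
    choose r hr using fun F : Finset I => QuotientAddGroup.mk_surjective (x (quotOpen H F))
    have hmono : ∀ {F F' : Finset I}, F ⊆ F' → quotOpen H F' ≤ quotOpen H F := by
      rintro F F' hFF _ ⟨y, hy, rfl⟩
      exact ⟨y, coordOpen_anti hFF hy, rfl⟩
    obtain ⟨y, hy⟩ := hA r (by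
      intro F F' hFF
      have h1 := hx _ _ (hmono hFF)
      rw [← hr F, ← hr F'] at h1
      obtain ⟨h, hh, hv⟩ := mk_mem_quotOpen.1
        (show (QuotientAddGroup.mk (r F' - r F) : (∀ i, D i) ⧸ H) ∈ quotOpen H F from h1)
      refine ⟨h, hh, fun i hi => ?_⟩
      rw [← hv i hi, Pi.sub_apply, add_sub_cancel])
    refine ⟨QuotientAddGroup.mk y, fun N => ?_⟩
    obtain ⟨F, hF⟩ := exists_quotOpen_le N
    obtain ⟨h, hh, hv⟩ := hy F
    have h1 : (QuotientAddGroup.mk y : (∀ i, D i) ⧸ H) - x (quotOpen H F) ∈ N := by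
      rw [← hr F]
      refine hF (show (QuotientAddGroup.mk (y - r F) : (∀ i, D i) ⧸ H) ∈ quotOpen H F from ?_)
      refine mk_mem_quotOpen.2 ⟨h, hh, fun i hi => ?_⟩
      rw [Pi.sub_apply, hv i hi, add_sub_cancel_left]
    have h2 := hx N _ hF
    have h3 := add_mem h1 h2
    rwa [sub_add_sub_cancel] at h3

/-- A subgroup of a product of discrete groups is closed if and only if membership can be tested on
finite sets of coordinates. -/
theorem isClosed_iff_approx (H : AddSubgroup (∀ i, D i)) : IsClosed (H : Set (∀ i, D i)) ↔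
    ∀ x : ∀ i, D i, (∀ F : Finset I, ∃ y ∈ H, ∀ i ∈ F, x i = y i) → x ∈ H := by
  constructor
  · intro hH x hx
    refine mem_of_approx hH fun F => ?_
    obtain ⟨y, hy, hv⟩ := hx F
    exact ⟨y, hy, fun i hi => (hv i hi).symm⟩
  · intro h
    rw [← closure_subset_iff_isClosed]
    intro x hx
    refine h x fun F => ?_
    have h1 : (fun y : ∀ i, D i => y - x) ⁻¹' (coordOpen D F : Set (∀ i, D i)) ∈ 𝓝 x := by
      refine (continuous_id.sub continuous_const).continuousAt.preimage_mem_nhds ?_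
      show (coordOpen D F : Set (∀ i, D i)) ∈ 𝓝 (x - x)
      rw [sub_self]
      exact (coordOpen D F).mem_nhds_zero
    obtain ⟨y, hy1, hy2⟩ := mem_closure_iff_nhds.1 hx _ h1
    refine ⟨y, hy2, fun i hi => ?_⟩
    have h3 : (y - x) i = 0 := hy1 i hi
    rw [Pi.sub_apply, sub_eq_zero] at h3
    exact h3.symm

end Pool.Agent.Work.MP_c629c8_al
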