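import Pool.Agent.Work.MP_c629c8_al.Mod.NRead2
import Pool.Agent.Work.MP_c629c8_al.Mod.BackE
import Pool.Agent.Work.MP_c629c8_al.Mod.BackG
import Pool.Agent.Work.MP_c629c8_al.Grp.Main

/-!
# Completeness of the quotients in the universe of sets
-/

set_option linter.unusedSectionVars false

namespace Pool.Agent.Unif

open Pool.Agent.SigB Pool.Agent.Frc Pool.Agent.Forc Pool.Agent.GPA Pool.Agent.Work.MP_c629c8_al

/-- Reindexing. -/
theorem Rd.reindex {K : Type 1} [Membership K K] [IsZFC K] {J J' : Type*} {D : Br K}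
    {c : J → ℕ → ℕ} {p : List ℕ → ℕ} {bc : J → K} (R : Rd D c p bc) (e : J' ≃ J) :
    Rd D (fun j => c (e j)) p (fun j => bc (e j)) where
  om := R.om
  is := R.is
  mem_B b := by
    rw [R.mem_B]
    constructor
    · rintro ⟨j, rfl⟩
      exact ⟨e.symm j, by rw [e.apply_symm_apply]⟩
    · rintro ⟨j, rfl⟩
      exact ⟨e j, rfl⟩
  bc_inj := R.bc_inj.comp e.injective
  val_b j n m := R.val_b (e j) n m
  val_p := R.val_p

/-- In the universe `D` is indexed by a set of functions from `ℕ` to `ℕ`. -/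
theorem exists_rd_set {D : Br V} (hD : D.Is) : ∃ (B : Set (ℕ → ℕ)) (p : List ℕ → ℕ) (bc : B → V),
    Rd D (fun b : B => b.1) p bc := by
  obtain ⟨c, p, R⟩ := exists_rd om_V hD
  refine ⟨Set.range c, p, fun b => ((Equiv.ofInjective c R.c_inj).symm b).1, ?_⟩
  have h1 := R.reindex (Equiv.ofInjective c R.c_inj).symm
  have h2 : (fun j => c ((Equiv.ofInjective c R.c_inj).symm j)) =
      fun b : Set.range c => b.1 := by
    funext b
    exact Equiv.apply_ofInjective_symm R.c_inj b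
  rw [h2] at h1
  exact h1

namespace Rd

variable {J : Type} {D : Br V} {c : J → ℕ → ℕ} {p : List ℕ → ℕ} {bc : J → V} (R : Rd D c p bc)

include R

/-- In the universe every element of the product has a code. -/
theorem exists_codeX (x : ∀ j, BranchGroup p (c j)) : ∃ z, D.IsElt z ∧ R.rd z = x := by
  let X : V := ZFSet.range fun a : {a : J × List ℕ // Pre a.2 (c a.1)} =>
    SigB.op (SigB.op (bc a.1.1) (sq V a.1.2)) (nt V (co x a.1.1 a.1.2).val)
  refine R.exists_of_dfn (S := fun b r i => SigB.op (SigB.op b r) i ∈ X)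
    (by simp (maxDischargeDepth := 50)) x fun j s hs i _ => ?_
  constructor
  · intro h
    obtain ⟨⟨⟨j', s'⟩, hs'⟩, ha⟩ := ZFSet.mem_range.1 h
    obtain ⟨h1, h2⟩ := SigB.op_inj.1 ha
    obtain ⟨h3, h4⟩ := SigB.op_inj.1 h1
    obtain rfl := R.bc_inj h3
    obtain rfl := sq_inj h4
    exact nt_inj h2
  · rintro rfl
    exact ZFSet.mem_range.2 ⟨⟨(j, s), hs⟩, rfl⟩

theorem G0_eq_top : R.G0 = ⊤ := by
  rw [eq_top_iff]
  intro x _
  exact R.mem_G0.2 (R.exists_codeX x)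

/-- In the universe every subgroup has a code. -/
theorem exists_codeH (H' : AddSubgroup (∀ j, BranchGroup p (c j)))
    (hH' : IsClosed (H' : Set (∀ j, BranchGroup p (c j)))) :
    ∃ H, D.IsClosedSubgroup H ∧ ∀ z, z ∈ H ↔ D.IsElt z ∧ R.rd z ∈ H' := by
  have hmem : ∀ z, z ∈ ZFSet.sep (fun z => R.rd z ∈ H') D.elts ↔ D.IsElt z ∧ R.rd z ∈ H' :=
    fun z => by rw [ZFSet.mem_sep, R.is.mem_elts]
  refine ⟨ZFSet.sep (fun z => R.rd z ∈ H') D.elts, ⟨fun x hx => ((hmem x).1 hx).1, ?_, ?_, ?_⟩,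
    hmem⟩
  · obtain ⟨z, hz, h0⟩ := R.exists_codeX 0
    exact ⟨z, (hmem z).2 ⟨hz, by rw [h0]; exact H'.zero_mem⟩⟩
  · intro x y z hx hy hz h
    obtain ⟨hx1, hx2⟩ := (hmem x).1 hx
    obtain ⟨hy1, hy2⟩ := (hmem y).1 hy
    refine (hmem z).2 ⟨hz, ?_⟩
    have h1 : R.rd x = R.rd y + R.rd z := by
      funext j
      exact (R.sumAt_iff hx1 hy1 hz).1 (h _ ((R.mem_B _).2 ⟨j, rfl⟩))
    have h2 : R.rd z = R.rd x - R.rd y := by rw [h1, add_sub_cancel_left]
    rw [h2]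
    exact H'.sub_mem hx2 hy2
  · intro x hx h
    refine (hmem x).2 ⟨hx, (isClosed_iff_approx H').1 hH' _ fun E => ?_⟩
    obtain ⟨hF1, hF2⟩ := R.isFinite_iff.2 ⟨E, rfl⟩
    obtain ⟨y, hy, hv⟩ := h _ hF1 hF2
    obtain ⟨hy1, hy2⟩ := (hmem y).1 hy
    exact ⟨_, hy2, fun j hj => (R.agreeAt_iff hx hy1).1 (hv _ (mem_fc.2 ⟨j, hj, rfl⟩))⟩

/-- In the universe every coherent family has a code. -/
theorem exists_codea {H' : AddSubgroup (∀ j, BranchGroup p (c j))} {H : V}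
    (hH : ∀ z, z ∈ H ↔ D.IsElt z ∧ R.rd z ∈ H') (a' : Finset J → ∀ j, BranchGroup p (c j))
    (ha' : ∀ E E', E ⊆ E' → ∃ h ∈ H', ∀ j ∈ E, a' E' j = a' E j + h j) :
    ∃ a, D.IsCauchy H a ∧ ∀ E, ∃ x, Val a (fc bc E) x ∧ D.IsElt x ∧ R.rd x = a' E := by
  choose cd hcd1 hcd2 using fun E => R.exists_codeX (a' E)
  let a : V := ZFSet.range fun E : Finset J => SigB.op (fc bc E) (cd E)
  have hval : ∀ F x, Val a F x ↔ ∃ E, F = fc bc E ∧ x = cd E := by
    intro F x
    rw [SigB.val_iff]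
    constructor
    · intro h
      obtain ⟨E, hE⟩ := ZFSet.mem_range.1 h
      obtain ⟨h1, h2⟩ := SigB.op_inj.1 hE
      exact ⟨E, h1.symm, h2.symm⟩
    · rintro ⟨E, rfl, rfl⟩
      exact ZFSet.mem_range.2 ⟨E, rfl⟩
  refine ⟨a, ⟨?_, ?_, ?_, ?_⟩, fun E => ⟨cd E, (hval _ _).2 ⟨E, rfl, rfl⟩, hcd1 E, hcd2 E⟩⟩
  · intro F x h
    obtain ⟨E, rfl, rfl⟩ := (hval F x).1 h
    exact R.isFinite_iff.2 ⟨E, rfl⟩
  · intro F x h
    obtain ⟨E, rfl, rfl⟩ := (hval F x).1 h
    exact hcd1 E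
  · intro F h1 h2
    obtain ⟨E, rfl⟩ := R.isFinite_iff.1 ⟨h1, h2⟩
    refine ⟨cd E, (hval _ _).2 ⟨E, rfl, rfl⟩, fun y hy => ?_⟩
    obtain ⟨E', hE', rfl⟩ := (hval _ _).1 hy
    rw [fc_inj R.bc_inj hE']
  · intro F F' x x' h h' hs
    obtain ⟨E, rfl, rfl⟩ := (hval _ _).1 h
    obtain ⟨E', rfl, rfl⟩ := (hval _ _).1 h'
    obtain ⟨h, hh, hv⟩ := ha' E E' ((sb_fc R.bc_inj).1 hs)
    obtain ⟨z, hz1, rfl⟩ := R.exists_codeX h
    refine ⟨z, (hH z).2 ⟨hz1, hh⟩, fun b hb => ?_⟩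
    obtain ⟨j, hj, rfl⟩ := mem_fc.1 hb
    rw [R.sumAt_iff (hcd1 E') (hcd1 E) hz1, hcd2, hcd2]
    exact hv j hj

end Rd

/-- In the universe, the statement `CompleteQuotients` is the statement that for an uncountable set
`B` of functions from `ℕ` to `ℕ` and an injective function `p` from the set of finite sequences to
the set of prime numbers, all quotients of the product over `b ∈ B` of the direct sums of the groups
`ℤ/p(r)`, `r` an initial segment of `b`, by closed subgroups are complete. -/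
theorem completeQuotients_iff : CompleteQuotients V ↔
    ∃ (B : Set (ℕ → ℕ)) (p : List ℕ → ℕ), ¬ B.Countable ∧ Function.Injective p ∧
      (∀ r, (p r).Prime) ∧ ∀ H : AddSubgroup (∀ b : B, BranchGroup p b.1),
        IsClosed (H : Set (∀ b : B, BranchGroup p b.1)) →
          LinComplete ((∀ b : B, BranchGroup p b.1) ⧸ H) := by
  constructor
  · rintro ⟨D, hD, hC⟩
    obtain ⟨B, p, bc, R⟩ := exists_rd_set hD
    refine ⟨B, p, ?_, R.p_inj, R.prime, fun H' hH' => (linComplete_pi_quotient_iff H').2 ?_⟩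
    · have h1 := not_countable_of_rd R
      rwa [Subtype.range_coe] at h1
    · intro a' ha'
      obtain ⟨H, hH, hmem⟩ := R.exists_codeH H' hH'
      obtain ⟨a, ha, hval⟩ := R.exists_codea hmem a' ha'
      obtain ⟨y, hy, hy2⟩ := hC H a hH ha
      refine ⟨R.rd y, fun E => ?_⟩
      obtain ⟨x, hx1, hx2, hx3⟩ := hval E
      obtain ⟨h, hh, hv⟩ := hy2 _ _ hx1
      obtain ⟨hh1, hh2⟩ := (hmem h).1 hh
      refine ⟨R.rd h, hh2, fun j hj => ?_⟩
      rw [← hx3]
      exact (R.sumAt_iff hy hx2 hh1).1 (hv _ (mem_fc.2 ⟨j, hj, rfl⟩))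
  · rintro ⟨B, p, hB, hpi, hp, hL⟩
    obtain ⟨D, bc, R⟩ := exists_rd_V hB hp hpi
    refine ⟨D, R.is, fun H a hH ha => ?_⟩
    have hcl : IsClosed (R.rH hH : Set (∀ b : B, BranchGroup p b.1)) := by
      refine (isClosed_iff_approx _).2 fun x hx => R.relClosed hH x ?_ fun E => ?_
      · rw [R.G0_eq_top]
        trivial
      · obtain ⟨y, hy, hv⟩ := hx E
        exact ⟨y, hy, fun i hi => (hv i hi).symm⟩
    obtain ⟨y', hy'⟩ := (linComplete_pi_quotient_iff _).1 (hL _ hcl) (R.ra a) (R.coh hH ha)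
    obtain ⟨y, hy, rfl⟩ := R.exists_codeX y'
    refine ⟨y, hy, fun F x hx => ?_⟩
    obtain ⟨E, rfl⟩ := R.isFinite_iff.1 (ha.dom F x hx)
    obtain ⟨hx1, hx2⟩ := (R.val_a ha).1 hx
    obtain ⟨h', hh', hv⟩ := hy' E
    obtain ⟨h, hh, rfl⟩ := (R.mem_rH hH).1 hh'
    refine ⟨h, hh, fun b hb => ?_⟩
    obtain ⟨j, hj, rfl⟩ := mem_fc.1 hb
    rw [R.sumAt_iff hy hx1 (hH.elt h hh), hx2]
    exact hv j hj

/-- The statement `CompleteQuotients` in the universe is equivalent to the statement that some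
product of uncountably many of the groups of branches is strongly reflexive. -/
theorem completeQuotients_iff_stronglyReflexive : CompleteQuotients V ↔
    ∃ (B : Set (ℕ → ℕ)) (p : List ℕ → ℕ), ¬ B.Countable ∧ Function.Injective p ∧
      (∀ r, (p r).Prime) ∧ StronglyReflexive (∀ b : B, BranchGroup p b.1) := by
  rw [completeQuotients_iff]
  refine exists_congr fun B => exists_congr fun p => and_congr_right fun _ =>
    and_congr_right fun hpi => and_congr_right fun hp => ?_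
  exact (stronglyReflexive_iff (c := fun b : B => b.1) hp hpi Subtype.val_injective).symm

end Pool.Agent.Unif
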