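import Pool.Agent.Work.MP_c629c8_al.Mod.Sq
import Pool.Agent.Work.MP_c629c8_al.Grp.Defs
import Pool.Agent.GPA.MCardN
import Pool.Agent.GPA.MName

/-!
# The generic branches in the extension

`g.br i` is the branch of `i : I` for `i` in `M`, `g.brN i` its code in `N`, `g.BN` the set of the
codes of the branches and `g.cN` the function `i ↦ g.brN i`. The set `g.BN` is not countable in `N`.
-/

set_option linter.unusedSectionVars false

namespace Pool.Agent.Unif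

open Pool.Agent.SigB Pool.Agent.Frc Pool.Agent.Forc Pool.Agent.GPA Cardinal
open Pool.Agent.Work.MP_c629c8_al (Pre)

/-! ### Finite sequences -/

theorem Pre.isPref {s t : List ℕ} {x : ℕ → ℕ} (hs : Pre s x) (ht : Pre t x)
    (h : s.length ≤ t.length) : s <+: t := by
  rw [List.prefix_iff_getElem?]
  intro i hi
  rw [List.getElem?_eq_some_iff]
  exact ⟨hi.trans_le h, by rw [hs i hi, ht i (hi.trans_le h)]⟩

theorem getElem?_of_prefix {s t : List ℕ} (h : s <+: t) {n m : ℕ} (hn : s[n]? = some m) :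
    t[n]? = some m := by
  obtain ⟨hi, he⟩ := List.getElem?_eq_some_iff.1 hn
  exact List.getElem?_eq_some_iff.2 ⟨hi.trans_le h.length_le, by rw [← h.getElem hi, he]⟩

/-! ### Values of names given by relations -/

section

variable {Q : Type} [PartialOrder Q] [OrderTop Q] [Cod Q] {M N : Type 1} [Membership M M]
  [IsZFC M] [Membership N N] [IsZFC N] {g : PGn Q M N}

theorem PGn.el_nat2 (n m : ℕ) : g.el (n, m) = SigB.op (nt N n) (nt N m) := by
  rw [PGn.el_pair (inM_nat g.sub n) (inM_nat g.sub m), PGn.el_nat, PGn.el_nat]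

/-- The value of the name given by a relation at the copy of `a`. -/
theorem PGn.mem_ev {A B : Type} [Cod A] [Cod B] {W : Set (Q × (A × B))} (hW : InM g.j W)
    {T : Set B} (hT : InM g.j T) {a : A} (ha : InM g.j a) {z : N} :
    z ∈ ev g.Γ (g.el W) (g.el T) (g.el a) ↔
      ∃ b ∈ T, InM g.j b ∧ z = g.el b ∧ ∃ q, g.GQ q ∧ (q, (a, b)) ∈ W := by
  rw [GPA.mem_ev, PGn.mem_el hT]
  constructor
  · rintro ⟨⟨b, hb, hbT, rfl⟩, x, hx, h⟩
    obtain ⟨q, hq, rfl⟩ := PGn.mem_Γ'.1 hx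
    have hqM := PGn.inM_of_GQ hq
    have hab := (inM_pair g.sub).2 ⟨ha, hb⟩
    rw [← PGn.el_pair ha hb, ← PGn.el_pair hqM hab,
      PGn.el_mem_el hW ((inM_pair g.sub).2 ⟨hqM, hab⟩)] at h
    exact ⟨b, hbT, hb, rfl, q, hq, h⟩
  · rintro ⟨b, hbT, hb, rfl, q, hq, h⟩
    have hqM := PGn.inM_of_GQ hq
    have hab := (inM_pair g.sub).2 ⟨ha, hb⟩
    refine ⟨⟨b, hb, hbT, rfl⟩, g.el q, PGn.mem_Γ'.2 ⟨q, hq, rfl⟩, ?_⟩
    rw [← PGn.el_pair ha hb, ← PGn.el_pair hqM hab,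
      PGn.el_mem_el hW ((inM_pair g.sub).2 ⟨hqM, hab⟩)]
    exact h

end

/-! ### The branches -/

section

variable {R : List ℕ → ℕ → ℕ → ℕ} {I : Type} [Cod I] (F : UFrame R I)

/-- The condition decides the value of the `i`-th branch at `n`. -/
def stW : Set (F.Q × (I × (ℕ × ℕ))) := {w | (F.st w.1 w.2.1)[w.2.2.1]? = some w.2.2.2}

/-- The condition decides the `i`-th branch up to `n`. -/
def growW : Set (F.Q × (I × ℕ)) := {w | w.2.2 < (F.st w.1 w.2.1).length}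

/-- The condition decides that two branches are different. -/
def splitW : Set (F.Q × (I × I)) :=
  {w | ¬ (F.st w.1 w.2.1 <+: F.st w.1 w.2.2) ∧ ¬ (F.st w.1 w.2.2 <+: F.st w.1 w.2.1)}

/-- The parameters of this file. -/
noncomputable def parBr : List V :=
  [cd (stW F), cd (growW F), cd (splitW F), cd (Set.univ : Set I)]

variable {F} {M N : Type 1} [Membership M M] [IsZFC M] [Membership N N] [IsZFC N] (g : UGn F M N)

/-- The function which assigns to the copy of `i` the code of the `i`-th branch. -/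
noncomputable def UGn.bfun (y : N) : N :=
  ev g.Γ (g.el (stW F)) (g.el (Set.univ : Set (ℕ × ℕ))) y

@[simp] theorem UGn.bfun_dt {n : ℕ} {s : (Fin n → N) → N} (hs : DT s) :
    DT fun v => UGn.bfun g (s v) := by
  unfold UGn.bfun
  simp (maxDischargeDepth := 50) [hs]

/-- The code of the `i`-th branch. -/
noncomputable def UGn.brN (i : I) : N := UGn.bfun g (g.el i)

/-- The `i`-th branch. -/
noncomputable def UGn.br (i : I) : ℕ → ℕ := ext (UGn.brN g i)

variable {g} (hp : g.Has (parBr F))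

include hp

theorem UGn.inM_univ : InM g.j (Set.univ : Set I) := hp _ (by simp [parBr])

theorem UGn.mem_brN {i : I} (hi : InM g.j i) {z : N} : z ∈ UGn.brN g i ↔
    ∃ n m : ℕ, z = SigB.op (nt N n) (nt N m) ∧ ∃ q, g.GQ q ∧ (F.st q i)[n]? = some m := by
  have h1 : InM g.j (stW F) := hp _ (by simp [parBr])
  have h2 : InM g.j (Set.univ : Set (ℕ × ℕ)) :=
    inM_univ_prod g.sub (inM_univ_nat g.sub) (inM_univ_nat g.sub)
  rw [UGn.brN, UGn.bfun, PGn.mem_ev h1 h2 hi]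
  constructor
  · rintro ⟨⟨n, m⟩, -, -, rfl, q, hq, h⟩
    exact ⟨n, m, PGn.el_nat2 n m, q, hq, h⟩
  · rintro ⟨n, m, rfl, q, hq, h⟩
    exact ⟨(n, m), trivial, (inM_pair g.sub).2 ⟨inM_nat g.sub n, inM_nat g.sub m⟩,
      (PGn.el_nat2 n m).symm, q, hq, h⟩

theorem UGn.exists_long {i : I} (hi : InM g.j i) (n : ℕ) :
    ∃ q, g.GQ q ∧ n < (F.st q i).length := by
  have h1 : InM g.j (growW F) := hp _ (by simp [parBr])
  have h2 : InM g.j {q : F.Q | n < (F.st q i).length} :=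
    inM_sec g.sub h1 (b := (i, n)) ((inM_pair g.sub).2 ⟨hi, inM_nat g.sub n⟩)
  obtain ⟨q, -, hq, h⟩ := g.gen h2 g.top_GQ fun q _ => by
    obtain ⟨r, hr, h⟩ := F.st_grow q i (n + 1)
    exact ⟨r, hr, h⟩
  exact ⟨q, hq, h⟩

omit hp in
theorem UGn.val_unique {i : I} {n m m' : ℕ} {q q' : F.Q} (hq : g.GQ q) (hq' : g.GQ q')
    (h : (F.st q i)[n]? = some m) (h' : (F.st q' i)[n]? = some m') : m = m' := by
  obtain ⟨r, -, h1, h2⟩ := g.GQ_dir hq hq'
  have h3 := getElem?_of_prefix (F.st_mono i h1) h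
  have h4 := getElem?_of_prefix (F.st_mono i h2) h'
  rw [h3] at h4
  exact Option.some.inj h4

theorem UGn.brN_mem {i : I} (hi : InM g.j i) : UGn.brN g i ∈ fs (SigB.om : N) SigB.om := by
  refine mem_fs_om_of g.om_N (T := fun n m => ∃ q, g.GQ q ∧ (F.st q i)[n]? = some m)
    (fun z => UGn.mem_brN hp hi) fun n => ?_
  obtain ⟨q, hq, h⟩ := UGn.exists_long hp hi n
  have h1 : (F.st q i)[n]? = some (F.st q i)[n] := List.getElem?_eq_some_iff.2 ⟨h, rfl⟩
  exact ⟨_, ⟨q, hq, h1⟩, nt_mem_om _, fun m' ⟨q', hq', h'⟩ => UGn.val_unique hq' hq h' h1⟩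

theorem UGn.br_eq {i : I} (hi : InM g.j i) {n m : ℕ} :
    UGn.br g i n = m ↔ ∃ q, g.GQ q ∧ (F.st q i)[n]? = some m := by
  rw [UGn.br, ext_eq g.om_N (UGn.brN_mem hp hi), UGn.mem_brN hp hi]
  constructor
  · rintro ⟨n', m', h, q, hq, h'⟩
    obtain ⟨h1, h2⟩ := SigB.op_inj.1 h
    rw [nt_inj h1, nt_inj h2]
    exact ⟨q, hq, h'⟩
  · rintro ⟨q, hq, h⟩
    exact ⟨n, m, rfl, q, hq, h⟩

/-- The values of the code of the branch. -/
theorem UGn.ap_brN {i : I} (hi : InM g.j i) (n : ℕ) :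
    ap (UGn.brN g i) (nt N n) = nt N (UGn.br g i n) := ap_ext g.om_N (UGn.brN_mem hp hi) n

/-- The initial segments of the branch. -/
theorem UGn.pre_br {i : I} (hi : InM g.j i) {r : List ℕ} :
    Pre r (UGn.br g i) ↔ ∃ q, g.GQ q ∧ r <+: F.st q i := by
  constructor
  · intro h
    obtain ⟨q, hq, hl⟩ := UGn.exists_long hp hi r.length
    refine ⟨q, hq, ?_⟩
    rw [List.prefix_iff_getElem?]
    intro k hk
    have h1 : (F.st q i)[k]? = some (F.st q i)[k] :=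
      List.getElem?_eq_some_iff.2 ⟨hk.trans hl, rfl⟩
    have h2 := (UGn.br_eq hp hi).2 ⟨q, hq, h1⟩
    rw [h1, h k hk, h2]
  · rintro ⟨q, hq, h⟩ k hk
    refine ((UGn.br_eq hp hi).2 ⟨q, hq, ?_⟩).symm
    exact getElem?_of_prefix h (List.getElem?_eq_some_iff.2 ⟨hk, rfl⟩)

/-- The part of the branch decided by a condition of the filter. -/
theorem UGn.pre_st {i : I} (hi : InM g.j i) {q : F.Q} (hq : g.GQ q) :
    Pre (F.st q i) (UGn.br g i) := (UGn.pre_br hp hi).2 ⟨q, hq, List.prefix_rfl⟩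

/-- The initial segments of the branch, in `N`. -/
theorem UGn.sb_brN {i : I} (hi : InM g.j i) {r : List ℕ} :
    Sb (sq N r) (UGn.brN g i) ↔ Pre r (UGn.br g i) := by
  rw [sb_sq_iff]
  refine forall_congr' fun k => forall_congr' fun hk => ?_
  rw [← ext_eq g.om_N (UGn.brN_mem hp hi)]
  exact eq_comm

/-- Different branches. -/
theorem UGn.br_inj {i i' : I} (hi : InM g.j i) (hi' : InM g.j i')
    (h : UGn.br g i = UGn.br g i') : i = i' := by
  by_contra hne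
  have h1 : InM g.j (splitW F) := hp _ (by simp [parBr])
  have h2 : InM g.j {q : F.Q | ¬ (F.st q i <+: F.st q i') ∧ ¬ (F.st q i' <+: F.st q i)} :=
    inM_sec g.sub h1 (b := (i, i')) ((inM_pair g.sub).2 ⟨hi, hi'⟩)
  obtain ⟨q, -, hq, h3, h4⟩ := g.gen h2 g.top_GQ fun q _ => by
    obtain ⟨r, hr, h⟩ := F.st_split q i i' hne
    exact ⟨r, hr, h⟩
  have h5 := UGn.pre_st hp hi hq
  have h6 := UGn.pre_st hp hi' hq
  rw [← h] at h6
  rcases le_total (F.st q i).length (F.st q i').length with h7 | h7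
  · exact h3 (Pre.isPref h5 h6 h7)
  · exact h4 (Pre.isPref h6 h5 h7)

theorem UGn.brN_inj {i i' : I} (hi : InM g.j i) (hi' : InM g.j i')
    (h : UGn.brN g i = UGn.brN g i') : i = i' :=
  UGn.br_inj hp hi hi' (by rw [UGn.br, UGn.br, h])

omit hp in
variable (g) in
/-- The set of the codes of the branches. -/
noncomputable def UGn.BN : N := im (g.el (Set.univ : Set I)) (UGn.bfun g)

omit hp in
variable (g) in
/-- The function which assigns to the copy of `i` the code of the `i`-th branch, as an element of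
`N`. -/
noncomputable def UGn.cN : N := lam (g.el (Set.univ : Set I)) (UGn.bfun g)

theorem UGn.mem_BN {z : N} : z ∈ UGn.BN g ↔ ∃ i, InM g.j i ∧ z = UGn.brN g i := by
  rw [UGn.BN, mem_im (by simp)]
  constructor
  · rintro ⟨y, hy, rfl⟩
    obtain ⟨i, hi, -, rfl⟩ := (PGn.mem_el (UGn.inM_univ hp)).1 hy
    exact ⟨i, hi, rfl⟩
  · rintro ⟨i, hi, rfl⟩
    exact ⟨g.el i, (PGn.mem_el (UGn.inM_univ hp)).2 ⟨i, hi, trivial, rfl⟩, rfl⟩

theorem UGn.cN_mem : UGn.cN g ∈ fs (g.el (Set.univ : Set I)) (UGn.BN g) := by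
  refine lam_mem_fs (by simp) fun y hy => ?_
  exact (mem_im (by simp)).2 ⟨y, hy, rfl⟩

theorem UGn.ap_cN {i : I} (hi : InM g.j i) : ap (UGn.cN g) (g.el i) = UGn.brN g i :=
  ap_lam (by simp) ((PGn.mem_el (UGn.inM_univ hp)).2 ⟨i, hi, trivial, rfl⟩)

theorem UGn.le_BN : Le (g.el (Set.univ : Set I)) (UGn.BN g) := by
  refine Le.mk (F := UGn.bfun g) (by simp) (fun y hy => (mem_im (by simp)).2 ⟨y, hy, rfl⟩) ?_
  intro x y hx hy h
  obtain ⟨i, hi, -, rfl⟩ := (PGn.mem_el (UGn.inM_univ hp)).1 hx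
  obtain ⟨i', hi', -, rfl⟩ := (PGn.mem_el (UGn.inM_univ hp)).1 hy
  rw [UGn.brN_inj hp hi hi' h]

end

/-! ### The set of the branches is not countable -/

section

variable {R : List ℕ → ℕ → ℕ → ℕ} {I : Type}

/-- An injection of `ω₁` into the index set. -/
theorem exists_enumI (hI : ℵ₁ ≤ #I) : ∃ e : Ordinal.{0} → I,
    ∀ a b, a < (ℵ₁ : Cardinal.{0}).ord → b < (ℵ₁ : Cardinal.{0}).ord → e a = e b → a = b := by
  classical
  have h1 : Cardinal.lift.{0} #(Set.Iio (ℵ₁ : Cardinal.{0}).ord) ≤ Cardinal.lift.{1} #I := by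
    rw [Cardinal.lift_id', Cardinal.mk_Iio_ordinal, Cardinal.card_ord]
    exact Cardinal.lift_le.2 hI
  obtain ⟨f⟩ := Cardinal.lift_mk_le'.1 h1
  have h0 : (0 : Ordinal) < (ℵ₁ : Cardinal.{0}).ord := by
    rw [Cardinal.lt_ord]
    simp
  refine ⟨fun a => if h : a < (ℵ₁ : Cardinal.{0}).ord then f ⟨a, h⟩ else f ⟨0, h0⟩,
    fun a b ha hb h => ?_⟩
  simp only [dif_pos ha, dif_pos hb] at h
  exact congrArg Subtype.val (f.injective h)

/-- The injection as a set. -/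
noncomputable def enumV [Cod I] (hI : ℵ₁ ≤ #I) : V :=
  ZFSet.range (fun a : Set.Iio (ℵ₁ : Cardinal.{0}).ord =>
    (SigB.op a.1.toZFSet (cd ((exists_enumI hI).choose a.1)) : V))

/-- The parameters. -/
noncomputable def parCnt [Cod I] (hI : ℵ₁ ≤ #I) : List V :=
  [(ℵ₁ : Cardinal.{0}).ord.toZFSet, enumV hI]

variable [Cod I] {F : UFrame R I} {M N : Type 1} [Membership M M] [IsZFC M] [Membership N N]
  [IsZFC N] {g : UGn F M N}

/-- The copy of `ω₁` injects into the copy of the index set. -/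
theorem UGn.le_univ (hp : g.Has (parBr F)) (hI : ℵ₁ ≤ #I) {k E : M}
    (hk : g.j k = (ℵ₁ : Cardinal.{0}).ord.toZFSet) (hE : g.j E = enumV hI) :
    Le (g.cp k) (g.el (Set.univ : Set I)) := by
  have hmem : ∀ {ξ η : M}, SigB.op ξ η ∈ E ↔ ∃ a < (ℵ₁ : Cardinal.{0}).ord,
      g.j ξ = a.toZFSet ∧ g.j η = cd ((exists_enumI hI).choose a) := by
    intro ξ η
    rw [← g.sub.mem, g.sub.op, hE, enumV, ZFSet.mem_range]
    constructor
    · rintro ⟨⟨a, ha⟩, h⟩
      obtain ⟨h1, h2⟩ := SigB.op_inj.1 h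
      exact ⟨a, ha, h1.symm, h2.symm⟩
    · rintro ⟨a, ha, h1, h2⟩
      exact ⟨⟨a, ha⟩, by rw [h1, h2]⟩
  have hex : ∀ {ξ : M}, ξ ∈ k → ∃ η, SigB.op ξ η ∈ E := by
    intro ξ hξ
    have h1 : g.j ξ ∈ (ℵ₁ : Cardinal.{0}).ord.toZFSet := by
      rw [← hk]
      exact g.sub.mem.2 hξ
    obtain ⟨a, ha, h2⟩ := mem_toZ.1 h1
    refine g.sub.wit ⟨cd ((exists_enumI hI).choose a), ?_⟩
    rw [hE, enumV, ZFSet.mem_range]
    exact ⟨⟨a, ha⟩, by rw [h2]⟩
  have huniq : ∀ {ξ η η' : M}, SigB.op ξ η ∈ E → SigB.op ξ η' ∈ E → η = η' := by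
    intro ξ η η' h h'
    obtain ⟨a, -, h1, h2⟩ := hmem.1 h
    obtain ⟨a', -, h3, h4⟩ := hmem.1 h'
    have h5 : a = a' := Ordinal.toZFSet_injective (h1.symm.trans h3)
    subst h5
    exact g.sub.inj (h2.trans h4.symm)
  have hap : ∀ {ξ η : M}, SigB.op ξ η ∈ E → ap (g.cp E) (g.cp ξ) = g.cp η := by
    intro ξ η h
    refine ap_eq (by rw [← g.cp_op]; exact g.cp_mem.2 h) fun y hy => ?_
    obtain ⟨z, hz, he⟩ := g.mem_cp.1 hy
    have h1 : g.j z ∈ enumV hI := by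
      rw [← hE]
      exact g.sub.mem.2 hz
    rw [enumV, ZFSet.mem_range] at h1
    obtain ⟨⟨a, ha⟩, h2⟩ := h1
    obtain ⟨u, w, huw⟩ := (g.sub.el1 (P₀ := fun m => ∃ x y, IsOrdPair m x y)
      (P := fun m => ∃ x y, IsOrdPair m x y) (by simp (maxDischargeDepth := 50)) z).2
      ⟨_, _, isOrdPair_iff.2 h2.symm⟩
    rw [isOrdPair_iff] at huw
    subst huw
    rw [g.cp_op] at he
    obtain ⟨h3, h4⟩ := SigB.op_inj.1 he
    have h5 : u = ξ := g.ex.cv_inj.1 h3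
    subst h5
    rw [← h4, huniq hz h]
  refine Le.mk (F := fun x => ap (g.cp E) x) (by simp (maxDischargeDepth := 50)) ?_ ?_
  · intro x hx
    obtain ⟨ξ, hξ, rfl⟩ := g.mem_cp.1 hx
    obtain ⟨η, hη⟩ := hex hξ
    rw [hap hη]
    obtain ⟨a, -, -, h2⟩ := hmem.1 hη
    exact (PGn.mem_el (UGn.inM_univ hp)).2 ⟨_, ⟨η, h2⟩, trivial, (PGn.el_eq h2).symm⟩
  · intro x y hx hy h
    obtain ⟨ξ, hξ, rfl⟩ := g.mem_cp.1 hx
    obtain ⟨ξ', hξ', rfl⟩ := g.mem_cp.1 hy
    obtain ⟨η, hη⟩ := hex hξ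
    obtain ⟨η', hη'⟩ := hex hξ'
    rw [hap hη, hap hη'] at h
    have h1 : η = η' := g.ex.cv_inj.1 h
    subst h1
    obtain ⟨a, ha, h1, h2⟩ := hmem.1 hη
    obtain ⟨a', ha', h3, h4⟩ := hmem.1 hη'
    have h5 := (exists_enumI hI).choose_spec a a' ha ha' (Cod.inj (h2.symm.trans h4))
    subst h5
    rw [g.sub.inj (h1.trans h3.symm)]

/-- The set of the branches is not countable in the extension. -/
theorem UGn.not_countable (hp : g.Has (parBr F)) (hI : ℵ₁ ≤ #I) (hq : g.Has (parCnt hI)) :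
    ¬ IsCountable (UGn.BN g) := by
  obtain ⟨k, hk⟩ := hq _ (List.mem_cons_self)
  obtain ⟨E, hE⟩ := hq (enumV hI) (by simp [parCnt])
  rintro ⟨o, ho, h⟩
  rw [isOmega_iff] at ho
  subst ho
  have h1 : Le (g.cp k) (SigB.om : N) :=
    (UGn.le_univ hp hI hk hE).trans ((UGn.le_BN hp).trans (injects_iff.1 h))
  have hcc : ∀ A : Set F.Q, (∀ p ∈ A, ∀ q ∈ A, p ≠ q → ∀ r, r ≤ p → ¬ r ≤ q) →
      #A < (ℵ₁ : Cardinal.{0}) := by
    intro A hA
    rw [Cardinal.lt_aleph_one_iff, Cardinal.le_aleph0_iff_set_countable]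
    exact F.ccc A fun p hp q hq hne ⟨r, h1, h2⟩ => hA p hp q hq hne r h1 h2
  obtain ⟨-, h2⟩ := card_copy g.sub g.ex g.jP g.jle hcc le_rfl Cardinal.isRegular_aleph_one hk
  refine h2 SigB.om ?_ h1
  rw [← g.ex.cv_om, g.ex.cv_mem, ← g.sub.mem, hk, g.sub.om]
  exact om_mem_toZ Cardinal.aleph0_lt_aleph_one

end

end Pool.Agent.Unif
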