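import Pool.Agent.Work.MP_c629c8_al.Mod.UGood

/-!
# Uniformisation of Ramsey systems in the extension
-/

set_option linter.unusedSectionVars false

namespace Pool.Agent.Unif

open Pool.Agent.SigB Pool.Agent.Frc Pool.Agent.Forc Pool.Agent.GPA

variable {R : List ℕ → ℕ → ℕ → ℕ} {I : Type} [Cod I]

/-- `W` is a name for a function on `I` which solves the system with the name `D`. -/
structure Sol (F : UFrame R I) (D : Set (F.Q × (List ℕ × Finset I))) (W : Set (F.Q × (I × ℕ))) :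
    Prop where
  mono : ∀ p q i m, q ≤ p → (p, (i, m)) ∈ W → (q, (i, m)) ∈ W
  unique : ∀ q i m m', (q, (i, m)) ∈ W → (q, (i, m')) ∈ W → m = m'
  dense : ∀ p i, ∃ q ≤ p, ∃ m, (q, (i, m)) ∈ W
  sol : ∀ q r (E : Finset I), (∀ i ∈ E, r <+: F.st q i ∧ ∃ m ≤ r.length, (q, (i, m)) ∈ W) →
    (q, (r, E)) ∈ D

theorem exists_sol (F : UFrame R I) {D : Set (F.Q × (List ℕ × Finset I))}
    (hD : GoodName R fun r E => {q | (q, (r, E)) ∈ D}) : ∃ W, Sol F D W := by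
  obtain ⟨nu, h1, h2, h3⟩ := F.solve _ hD
  refine ⟨{w | nu w.1 w.2.1 = some w.2.2}, fun p q i m hq h => h1 p q i m hq h,
    fun q i m m' h h' => ?_, h2, fun q r E hE => h3 q r E hE⟩
  have h4 : nu q i = some m := h
  have h5 : nu q i = some m' := h'
  rw [h4] at h5
  exact Option.some.inj h5

/-- The parameters of this file. -/
noncomputable def parNu (F : UFrame R I) : List V :=
  [cd (Set.univ : Set I),
    cd {w : Set (F.Q × (List ℕ × Finset I)) × Set (F.Q × (I × ℕ)) | Sol F w.1 w.2},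
    cd {w : F.Q × (Set (F.Q × (I × ℕ)) × I) | ∃ m, (w.1, (w.2.2, m)) ∈ w.2.1},
    cd {w : ((Set (F.Q × (I × ℕ)) × I) × F.Q) × ℕ | (w.1.2, (w.1.1.2, w.2)) ∈ w.1.1.1}]

section

variable {F : UFrame R I} {M N : Type 1} [Membership M M] [IsZFC M] [Membership N N] [IsZFC N]
  {g : UGn F M N}

/-- The function of `N` with the name `W`. -/
noncomputable def PGn.nn (g : UGn F M N) (W : Set (F.Q × (I × ℕ))) : N :=
  sp (pd (g.el (Set.univ : Set I)) (om : N)) fun z => ∃ q, q ∈ g.Γ ∧ SigB.op q z ∈ g.el W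

theorem PGn.op_mem_nn {W : Set (F.Q × (I × ℕ))} (hI : InM g.j (Set.univ : Set I))
    (hW : InM g.j W) {i : I} (hi : InM g.j i) {m : ℕ} :
    SigB.op (g.el i) (nt N m) ∈ g.nn W ↔ ∃ q, g.GQ q ∧ (q, (i, m)) ∈ W := by
  have hm := inM_nat g.sub m
  have him : InM g.j (i, m) := (inM_pair g.sub).2 ⟨hi, hm⟩
  unfold PGn.nn
  rw [mem_sp (by simp (maxDischargeDepth := 50))]
  constructor
  · rintro ⟨-, q', hq', h⟩
    obtain ⟨q, hq, rfl⟩ := PGn.mem_Γ'.1 hq'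
    have hqM := PGn.inM_of_GQ hq
    rw [← PGn.el_nat g, ← PGn.el_pair hi hm, ← PGn.el_pair hqM him,
      PGn.el_mem_el hW ((inM_pair g.sub).2 ⟨hqM, him⟩)] at h
    exact ⟨q, hq, h⟩
  · rintro ⟨q, hq, h⟩
    have hqM := PGn.inM_of_GQ hq
    refine ⟨mem_pd.2 ⟨_, (PGn.el_mem_el hI hi).2 trivial, _, nt_mem_om m, rfl⟩, g.el q,
      PGn.mem_Γ'.2 ⟨q, hq, rfl⟩, ?_⟩
    rw [← PGn.el_nat g, ← PGn.el_pair hi hm, ← PGn.el_pair hqM him,
      PGn.el_mem_el hW ((inM_pair g.sub).2 ⟨hqM, him⟩)]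
    exact h

theorem PGn.nn_mem_fs {D : Set (F.Q × (List ℕ × Finset I))} {W : Set (F.Q × (I × ℕ))}
    (hp : g.Has (parNu F)) (hs : Sol F D W) (hW : InM g.j W) :
    g.nn W ∈ fs (g.el (Set.univ : Set I)) (om : N) := by
  have hI : InM g.j (Set.univ : Set I) := hp _ (by simp [parNu])
  have h3 : InM g.j {w : F.Q × (Set (F.Q × (I × ℕ)) × I) | ∃ m, (w.1, (w.2.2, m)) ∈ w.2.1} :=
    hp _ (by simp [parNu])
  have huniq : ∀ i : I, InM g.j i → ∀ m m', SigB.op (g.el i) (nt N m) ∈ g.nn W →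
      SigB.op (g.el i) (nt N m') ∈ g.nn W → m = m' := by
    intro i hi m m' h h'
    obtain ⟨q, hq, h1⟩ := (PGn.op_mem_nn hI hW hi).1 h
    obtain ⟨q', hq', h1'⟩ := (PGn.op_mem_nn hI hW hi).1 h'
    obtain ⟨t, -, h2, h2'⟩ := PGn.GQ_dir hq hq'
    exact hs.unique t i m m' (hs.mono _ _ _ _ h2 h1) (hs.mono _ _ _ _ h2' h1')
  have hex : ∀ i : I, InM g.j i → ∃ m, SigB.op (g.el i) (nt N m) ∈ g.nn W := by
    intro i hi
    obtain ⟨q, -, hq, m, hm⟩ := PGn.gen (g := g) (inM_sec g.sub h3 (b := (W, i))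
      ((inM_pair g.sub).2 ⟨hW, hi⟩)) g.top_GQ fun q _ => hs.dense q i
    exact ⟨m, (PGn.op_mem_nn hI hW hi).2 ⟨q, hq, hm⟩⟩
  have hsub : ∀ z, z ∈ g.nn W → ∃ x, x ∈ g.el (Set.univ : Set I) ∧ ∃ y, y ∈ (om : N) ∧
      z = SigB.op x y := fun z hz => by
    have h1 := (mem_sp (by simp (maxDischargeDepth := 50))).1 hz
    exact mem_pd.1 h1.1
  have hFn : Fn (g.nn W) (g.el (Set.univ : Set I)) := by
    refine ⟨fun z hz => ?_, fun x hx => ?_⟩
    · obtain ⟨x, hx, y, -, rfl⟩ := hsub z hz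
      exact ⟨x, hx, y, rfl⟩
    · obtain ⟨i, hi, -, rfl⟩ := (PGn.mem_el hI).1 hx
      obtain ⟨m, hm⟩ := hex i hi
      refine ⟨nt N m, hm, fun y hy => ?_⟩
      obtain ⟨x', -, y', hy', he⟩ := hsub _ hy
      obtain ⟨-, rfl⟩ := SigB.op_inj.1 he
      obtain ⟨m', rfl⟩ := g.om_N _ hy'
      rw [huniq i hi m m' hm hy]
  refine mem_fs.2 ⟨hFn, fun x hx => ?_⟩
  obtain ⟨i, hi, -, rfl⟩ := (PGn.mem_el hI).1 hx
  obtain ⟨m, hm⟩ := hex i hi
  rw [(hFn.op_mem_iff hx).1 hm]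
  exact nt_mem_om m

/-- The system with the name `D` is solved by a function of `N`: `S` is a relation of `N` which
holds if it is forced by a condition of `D` in the filter below `p₀`. -/
theorem PGn.unif_of_good (hp : g.Has (parNu F)) {S : List ℕ → Finset I → Prop}
    {D : Set (F.Q × (List ℕ × Finset I))} {p₀ : F.Q} (hD : InM g.j D) (h0 : g.GQ p₀)
    (hG : GoodName R fun r E => {q | (q, (r, E)) ∈ D})
    (hS : ∀ q r (E : Finset I), (∀ i ∈ E, InM g.j i) → g.GQ q → q ≤ p₀ → (q, (r, E)) ∈ D → S r E) :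
    ∃ n : N, n ∈ fs (g.el (Set.univ : Set I)) (om : N) ∧ ∀ r (E : Finset I),
      (∀ i ∈ E, InM g.j i ∧ (∃ q, g.GQ q ∧ r <+: F.st q i) ∧
        ∃ m ≤ r.length, SigB.op (g.el i) (nt N m) ∈ n) → S r E := by
  have hI : InM g.j (Set.univ : Set I) := hp _ (by simp [parNu])
  have h2 : InM g.j {w : Set (F.Q × (List ℕ × Finset I)) × Set (F.Q × (I × ℕ)) | Sol F w.1 w.2} :=
    hp _ (by simp [parNu])
  obtain ⟨W, hW, hs⟩ := inM_wit g.sub h2 hD (exists_sol F hG)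
  have hs' : Sol F D W := hs
  refine ⟨g.nn W, PGn.nn_mem_fs hp hs' hW, fun r E hE => ?_⟩
  have h3 : ∀ i, ∃ q, i ∈ E → g.GQ q ∧ r <+: F.st q i ∧ ∃ m ≤ r.length, (q, (i, m)) ∈ W := by
    intro i
    by_cases hi : i ∈ E
    · obtain ⟨hiM, ⟨q, hq, hr⟩, m, hm, hmn⟩ := hE i hi
      obtain ⟨q', hq', hq2⟩ := (PGn.op_mem_nn hI hW hiM).1 hmn
      obtain ⟨t, ht, h4, h5⟩ := PGn.GQ_dir hq hq'
      exact ⟨t, fun _ => ⟨ht, hr.trans (F.st_mono i h4), m, hm, hs'.mono _ _ _ _ h5 hq2⟩⟩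
    · exact ⟨p₀, fun h => absurd h hi⟩
  choose f hf using h3
  obtain ⟨q, hq, hqf⟩ := PGn.GQ_fin (g := g) E f fun i hi => (hf i hi).1
  obtain ⟨t, ht, h4, h5⟩ := PGn.GQ_dir hq h0
  refine hS t r E (fun i hi => (hE i hi).1) ht h5 (hs'.sol t r E fun i hi => ?_)
  obtain ⟨-, h6, m, hm, h7⟩ := hf i hi
  have h8 : t ≤ f i := h4.trans (hqf i hi)
  exact ⟨h6.trans (F.st_mono i h8), m, hm, hs'.mono _ _ _ _ h8 h7⟩

/-- Every definable system of `N` which is Ramsey is solved by a function of `N`. -/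
theorem PGn.unif (hp : g.Has (parNu F)) (hq : g.Has (parGood F.Q I R)) {S : N → N → Prop}
    (hS : Dfn fun w : Fin 2 → N => S (w 0) (w 1))
    (hR : IsRamsey R (fun r => {E : Finset (g.J I) | S (sq N r) (g.el (g.up E))})) :
    ∃ n : N, n ∈ fs (g.el (Set.univ : Set I)) (om : N) ∧ ∀ r (E : Finset (g.J I)),
      (∀ i ∈ E, (∃ q, g.GQ q ∧ r <+: F.st q i.1) ∧
        ∃ m ≤ r.length, SigB.op (g.el i.1) (nt N m) ∈ n) → S (sq N r) (g.el (g.up E)) := by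
  obtain ⟨D, p₀, hD, h0, hG, hS'⟩ := PGn.exists_good hq hS hR
  obtain ⟨n, hn, h⟩ := PGn.unif_of_good hp (S := fun r E => S (sq N r) (g.el E)) hD h0 hG
    (fun q r E hE hq hq0 h1 => by
      obtain ⟨E', rfl⟩ := PGn.exists_up ((inM_finset g.sub).2 hE)
      exact hS' q r E' hq hq0 h1)
  refine ⟨n, hn, fun r E hE => h r (g.up E) fun i hi => ?_⟩
  obtain ⟨i', hi', rfl⟩ := Finset.mem_map.1 hi
  exact ⟨i'.2, (hE i' hi').1, (hE i' hi').2⟩

end

end Pool.Agent.Unif
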