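import Pool.Agent.Work.MP_c629c8_al.Mod.NRead2
import Pool.Agent.Work.MP_c629c8_al.Mod.UBr
import Pool.Agent.Work.MP_c629c8_al.Mod.UNu

/-!
# Uniformisation at the nodes in the extension
-/

set_option linter.unusedSectionVars false

namespace Pool.Agent.Unif

open Pool.Agent.SigB Pool.Agent.Frc Pool.Agent.Forc Pool.Agent.GPA
open Pool.Agent.Work.MP_c629c8_al

section

variable {N : Type 1} [Membership N N] [IsZFC N]

/-- The value of `a` at `{b}` vanishes at all `(b, r')` with `r ⊆ r'`. -/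
def ZAt (T a b r : N) : Prop :=
  ∀ x r', SigB.op (SigB.pr b b) x ∈ a → r' ∈ T → Sb r r' → Sb r' b →
    SigB.op (SigB.op b r') SigB.em ∈ x

/-- The value of `a` at `{b}` vanishes at all `(b, r')` for which the length of `r'` is at
least `m`. -/
def ZFrom (a b m : N) : Prop :=
  ∀ x r' k, SigB.op (SigB.pr b b) x ∈ a → k ∈ (SigB.om : N) → r' ∈ fs k SigB.om → Sb m k →
    Sb r' b → SigB.op (SigB.op b r') SigB.em ∈ x

theorem ZAt.dfn (T a : N) {n : ℕ} {s t : (Fin n → N) → N} (hs : DT s) (ht : DT t) :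
    Dfn fun w => ZAt T a (s w) (t w) := by
  refine dfn2 (R := ZAt T a) ?_ hs ht
  unfold ZAt
  simp (maxDischargeDepth := 50)

theorem ZFrom.dfn (a : N) {n : ℕ} {s t : (Fin n → N) → N} (hs : DT s) (ht : DT t) :
    Dfn fun w => ZFrom a (s w) (t w) := by
  refine dfn2 (R := ZFrom a) ?_ hs ht
  unfold ZFrom
  simp (maxDischargeDepth := 50)

end

section

variable {p : List ℕ → ℕ} {I : Type} [Cod I] {F : UFrame (rbd p) I} {M N : Type 1}
  [Membership M M] [IsZFC M] [Membership N N] [IsZFC N] (g : UGn F M N)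

/-- At the node `r` the values of `a` on the set of the branches with indices in `e` are those of an
element of `H`. -/
def SRel (T H a r e : N) : Prop :=
  ∃ C h x, (∀ b, b ∈ C ↔ ∃ i, i ∈ e ∧ b = UGn.bfun g i) ∧ SigB.op C x ∈ a ∧ h ∈ H ∧
    ∀ b, b ∈ C → Sb r b → ZAt T a b r →
      ∀ v, SigB.op (SigB.op b r) v ∈ x ↔ SigB.op (SigB.op b r) v ∈ h

theorem SRel.dfn (T H a : N) : Dfn fun w : Fin 2 → N => SRel g T H a (w 0) (w 1) := by
  have hZ : ∀ {n : ℕ} {s t : (Fin n → N) → N}, DT s → DT t → Dfn fun w => ZAt T a (s w) (t w) :=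
    fun hs ht => ZAt.dfn T a hs ht
  unfold SRel
  simp (maxDischargeDepth := 50) [hZ]

end

/-! ### Reading -/

section

variable {J : Type} {p : List ℕ → ℕ} {c : J → ℕ → ℕ}

theorem exists_n0 (x : ∀ j, BranchGroup p (c j)) (j : J) :
    ∃ m, ∀ s, m ≤ s.length → co x j s = 0 := by
  refine ⟨(sup x j).sup List.length + 1, fun s hs => ?_⟩
  by_contra h
  have h1 := Finset.le_sup (f := List.length) (mem_sup.2 h)
  omega

open Classical in
/-- The coordinates of `x` at `j` vanish at the nodes of length at least `n0 x j`. -/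
noncomputable def n0 (x : ∀ j, BranchGroup p (c j)) (j : J) : ℕ := Nat.find (exists_n0 x j)

theorem n0_le_iff {x : ∀ j, BranchGroup p (c j)} {j : J} {m : ℕ} :
    n0 x j ≤ m ↔ ∀ s, m ≤ s.length → co x j s = 0 := by
  classical
  constructor
  · intro h s hs
    exact Nat.find_spec (exists_n0 x j) s (h.trans hs)
  · intro h
    exact Nat.find_min' (exists_n0 x j) h

variable {K : Type 1} [Membership K K] [IsZFC K] {D : Br K} {bc : J → K}

namespace Rd

variable (R : Rd D c p bc)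

include R

theorem em_mem_iff {x : K} (hx : D.IsElt x) {j : J} {s : List ℕ} (hs : Pre s (c j)) :
    SigB.op (SigB.op (bc j) (sq K s)) SigB.em ∈ x ↔ co (R.rd x) j s = 0 := by
  have h0 : (SigB.em : K) = nt K 0 := rfl
  have := NeZero.mk (R.prime s).ne_zero
  rw [R.op_sq_iff hx, h0]
  constructor
  · rintro ⟨-, h⟩
    exact (ZMod.val_eq_zero _).1 (nt_inj h).symm
  · intro h
    refine ⟨hs, ?_⟩
    rw [h, ZMod.val_zero]

omit R in
theorem pr_eq_fc (bc : J → K) (j : J) : SigB.pr (bc j) (bc j) = fc bc {j} := by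
  refine ext' fun z => ?_
  rw [mem_pr, mem_fc]
  simp

theorem exists_val {H a : K} (ha : D.IsCauchy H a) (E : Finset J) :
    ∃ x, SigB.op (fc bc E) x ∈ a ∧ D.IsElt x ∧ R.rd x = R.ra a E := by
  obtain ⟨h1, h2⟩ := (isFinite_iff_fc R.om R.mem_B).2 ⟨E, rfl⟩
  obtain ⟨x, hx, -⟩ := ha.val _ h1 h2
  exact ⟨x, SigB.val_iff.1 hx, (R.val_a ha).1 hx⟩

theorem zAt_iff {H a : K} (ha : D.IsCauchy H a) {j : J} {s : List ℕ} (hs : Pre s (c j)) :
    ZAt D.T a (bc j) (sq K s) ↔ n0 (R.ra a {j}) j ≤ s.length := by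
  rw [n0_le_iff]
  constructor
  · intro h s' hl
    obtain ⟨x, hx, hxe, hxr⟩ := R.exists_val ha {j}
    by_cases hs' : Pre s' (c j)
    · have h1 := h x (sq K s') (by rw [pr_eq_fc]; exact hx) (R.mem_T.2 ⟨s', rfl⟩)
        (sb_sq.2 (Pre.isPref hs hs' hl)) (R.sb_iff.2 hs')
      rw [R.em_mem_iff hxe hs', hxr] at h1
      exact h1
    · exact co_eq_zero hs'
  · intro h x r' hx hr' hrr hrb
    obtain ⟨s', rfl⟩ := R.mem_T.1 hr'
    have hs' := R.sb_iff.1 hrb
    rw [pr_eq_fc] at hx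
    obtain ⟨hxe, hxr⟩ := (R.val_a ha).1 (SigB.val_iff.2 hx)
    rw [R.em_mem_iff hxe hs', hxr]
    exact h s' (sb_sq.1 hrr).length_le

theorem zFrom_iff {H a : K} (ha : D.IsCauchy H a) {j : J} {m : ℕ} :
    ZFrom a (bc j) (nt K m) ↔ n0 (R.ra a {j}) j ≤ m := by
  rw [n0_le_iff]
  constructor
  · intro h s' hl
    obtain ⟨x, hx, hxe, hxr⟩ := R.exists_val ha {j}
    by_cases hs' : Pre s' (c j)
    · have h1 := h x (sq K s') (nt K s'.length) (by rw [pr_eq_fc]; exact hx) (nt_mem_om _)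
        (sq_mem_fs s') (sb_nt.2 hl) (R.sb_iff.2 hs')
      rw [R.em_mem_iff hxe hs', hxr] at h1
      exact h1
    · exact co_eq_zero hs'
  · intro h x r' k hx hk hr' hrr hrb
    obtain ⟨k, rfl⟩ := R.om _ hk
    obtain ⟨s', rfl, rfl⟩ := (mem_fs_nt_om R.om).1 hr'
    have hs' := R.sb_iff.1 hrb
    rw [pr_eq_fc] at hx
    obtain ⟨hxe, hxr⟩ := (R.val_a ha).1 (SigB.val_iff.2 hx)
    rw [R.em_mem_iff hxe hs', hxr]
    exact h s' (sb_nt.1 hrr)

end Rd

end

/-! ### The system of a family of elements of the extension -/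

section

variable {p : List ℕ → ℕ} {I : Type} [Cod I] {F : UFrame (rbd p) I} {M N : Type 1}
  [Membership M M] [IsZFC M] [Membership N N] [IsZFC N] {g : UGn F M N} {D : Br N}

theorem UGn.sRel_iff (R : Rd D (fun j : g.J I => UGn.br g j.1) p (fun j => UGn.brN g j.1))
    {H a : N} (hH : D.IsClosedSubgroup H) (ha : D.IsCauchy H a) (s : List ℕ)
    (E : Finset (g.J I)) : SRel g D.T H a (sq N s) (g.el (g.up E)) ↔
      E ∈ cohSys (R.rH hH) (R.ra a) (fun j => n0 (R.ra a {j}) j) s := by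
  have := NeZero.mk (R.prime s).ne_zero
  have hC : ∀ C : N, (∀ b, b ∈ C ↔ ∃ i, i ∈ g.el (g.up E) ∧ b = UGn.bfun g i) ↔
      C = fc (fun j : g.J I => UGn.brN g j.1) E := by
    intro C
    have h1 : ∀ b, (∃ i, i ∈ g.el (g.up E) ∧ b = UGn.bfun g i) ↔
        b ∈ fc (fun j : g.J I => UGn.brN g j.1) E := by
      intro b
      rw [mem_fc]
      constructor
      · rintro ⟨i, hi, rfl⟩
        obtain ⟨i', hi', rfl⟩ := (PGn.mem_el_finset (PGn.inM_up E)).1 hi
        obtain ⟨j, hj, rfl⟩ := Finset.mem_map.1 hi'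
        exact ⟨j, hj, rfl⟩
      · rintro ⟨j, hj, rfl⟩
        exact ⟨g.el j.1, (PGn.mem_el_finset (PGn.inM_up E)).2
          ⟨j.1, Finset.mem_map.2 ⟨j, hj, rfl⟩, rfl⟩, rfl⟩
    constructor
    · intro h
      exact ext' fun b => (h b).trans (h1 b)
    · rintro rfl b
      exact (h1 b).symm
  constructor
  · rintro ⟨C, h, x, h1, hx, hh, h2⟩
    obtain rfl := (hC C).1 h1
    obtain ⟨hxe, hxr⟩ := (R.val_a ha).1 (SigB.val_iff.2 hx)
    refine ⟨R.rd h, (R.mem_rH hH).2 ⟨h, hh, rfl⟩, fun j hj hs hn => ?_⟩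
    have h3 := (h2 (UGn.brN g j.1) (mem_fc.2 ⟨j, hj, rfl⟩) (R.sb_iff.2 hs)
      ((R.zAt_iff ha hs).2 hn) (nt N (co (R.rd x) j s).val)).1
      ((R.op_sq_iff hxe (j := j)).2 ⟨hs, rfl⟩)
    have h4 := (R.op_sq_iff (hH.elt h hh) (j := j)).1 h3
    rw [← hxr]
    exact (ZMod.val_injective _ (nt_inj h4.2)).symm
  · rintro ⟨h', hh', h2⟩
    obtain ⟨h, hh, rfl⟩ := (R.mem_rH hH).1 hh'
    obtain ⟨x, hx, hxe, hxr⟩ := R.exists_val ha E
    refine ⟨_, h, x, (hC _).2 rfl, hx, hh, ?_⟩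
    intro b hb hsb hz v
    obtain ⟨j, hj, rfl⟩ := mem_fc.1 hb
    have hs : Pre s (UGn.br g j.1) := (R.sb_iff (j := j)).1 hsb
    have h3 := h2 j hj hs ((R.zAt_iff ha (j := j) hs).1 hz)
    rw [R.op_sq_iff hxe (j := j), R.op_sq_iff (hH.elt h hh) (j := j), h3, hxr]

theorem UGn.isRamsey (R : Rd D (fun j : g.J I => UGn.br g j.1) p (fun j => UGn.brN g j.1))
    {H a : N} (hH : D.IsClosedSubgroup H) (ha : D.IsCauchy H a) :
    IsRamsey (rbd p) (fun r => {E : Finset (g.J I) |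
      SRel g D.T H a (sq N r) (g.el (g.up E))}) := by
  have h := isRamsey_cohSys R.prime (R.coh hH ha) (n₀ := fun j => n0 (R.ra a {j}) j)
    fun i s hs => n0_le_iff.1 hs s le_rfl
  have h1 : (fun r => {E : Finset (g.J I) | SRel g D.T H a (sq N r) (g.el (g.up E))}) =
      cohSys (R.rH hH) (R.ra a) (fun j => n0 (R.ra a {j}) j) := by
    funext r
    ext E
    exact UGn.sRel_iff R hH ha r E
  rw [h1]
  exact h

/-- The maximum of the function given by `n` and of the length from which on the value of `a`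
at `{b}` vanishes. -/
noncomputable def UGn.nmax (g : UGn F M N) (a n : N) : N :=
  lam (UGn.BN g) fun b => sp (om : N) fun m => ¬ ZFrom a b m ∨
    ∃ i k, i ∈ g.el (Set.univ : Set I) ∧ UGn.bfun g i = b ∧ SigB.op i k ∈ n ∧ m ∈ k

theorem UGn.exists_nodes (hp : g.Has (parBr F)) (hn : g.Has (parNu F))
    (hq : g.Has (parGood F.Q I (rbd p)))
    (R : Rd D (fun j : g.J I => UGn.br g j.1) p (fun j => UGn.brN g j.1))
    {H a : N} (hH : D.IsClosedSubgroup H) (ha : D.IsCauchy H a) :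
    ∃ (n : N) (n1 : g.J I → ℕ), n ∈ fs (UGn.BN g) (om : N) ∧
      (∀ j : g.J I, ap n (UGn.brN g j.1) = nt N (n1 j)) ∧
      ∀ s (E : Finset (g.J I)), (∀ i ∈ E, Pre s (UGn.br g i.1) ∧ n1 i ≤ s.length) →
        ∃ h ∈ R.rH hH, ∀ i ∈ E, co h i s = co (R.ra a E) i s := by
  obtain ⟨n, hnf, hS⟩ := PGn.unif hn hq (SRel.dfn g D.T H a) (UGn.isRamsey R hH ha)
  have hI := UGn.inM_univ hp
  have hex : ∀ j : g.J I, ∃ m, ap n (g.el j.1) = nt N m := fun j =>
    g.om_N _ ((mem_fs.1 hnf).2 _ ((PGn.el_mem_el hI j.2).2 trivial))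
  choose n1 hn1 using hex
  have hmem : ∀ (j : g.J I) (k : N), SigB.op (g.el j.1) k ∈ n ↔ k = nt N (n1 j) := by
    intro j k
    rw [(mem_fs.1 hnf).1.op_mem_iff ((PGn.el_mem_el hI j.2).2 trivial), hn1]
    exact eq_comm
  have hZ : ∀ {n : ℕ} {s t : (Fin n → N) → N}, DT s → DT t → Dfn fun w => ZFrom a (s w) (t w) :=
    fun hs ht => ZFrom.dfn a hs ht
  have hval : ∀ j : g.J I, (sp (om : N) fun m => ¬ ZFrom a (UGn.brN g j.1) m ∨
      ∃ i k, i ∈ g.el (Set.univ : Set I) ∧ UGn.bfun g i = UGn.brN g j.1 ∧ SigB.op i k ∈ n ∧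
        m ∈ k) = nt N (max (n0 (R.ra a {j}) j) (n1 j)) := by
    intro j
    refine ext' fun z => ?_
    rw [mem_sp (by simp (maxDischargeDepth := 50) [hZ]), mem_nt]
    constructor
    · rintro ⟨hz, h⟩
      obtain ⟨m, rfl⟩ := g.om_N _ hz
      refine ⟨m, ?_, rfl⟩
      rw [lt_max_iff]
      rcases h with h | ⟨i, k, hi, hib, hk, hm⟩
      · rw [R.zFrom_iff ha (j := j)] at h
        exact Or.inl (not_le.1 h)
      · obtain ⟨i', hi', -, rfl⟩ := (PGn.mem_el hI).1 hi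
        have h1 : i' = j.1 := UGn.brN_inj hp hi' j.2 hib
        subst h1
        rw [(hmem j k).1 hk] at hm
        exact Or.inr (nt_mem_nt.1 hm)
    · rintro ⟨m, hm, rfl⟩
      refine ⟨nt_mem_om m, ?_⟩
      rcases lt_max_iff.1 hm with h | h
      · refine Or.inl ?_
        rw [R.zFrom_iff ha (j := j)]
        exact not_le.2 h
      · exact Or.inr ⟨g.el j.1, nt N (n1 j), (PGn.el_mem_el hI j.2).2 trivial, rfl,
          (hmem j _).2 rfl, nt_mem_nt.2 h⟩
  refine ⟨UGn.nmax g a n, fun j => max (n0 (R.ra a {j}) j) (n1 j), ?_, fun j => ?_, ?_⟩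
  · unfold UGn.nmax
    refine lam_mem_fs (by simp (maxDischargeDepth := 50) [hZ]) fun b hb => ?_
    obtain ⟨i, hi, rfl⟩ := (UGn.mem_BN hp).1 hb
    rw [hval ⟨i, hi⟩]
    exact nt_mem_om _
  · have hjB : UGn.brN g j.1 ∈ UGn.BN g := (UGn.mem_BN hp).2 ⟨j.1, j.2, rfl⟩
    unfold UGn.nmax
    rw [ap_lam (by simp (maxDischargeDepth := 50) [hZ]) hjB]
    exact hval j
  · intro s E hE
    have h1 := hS s E fun i hi => ⟨(UGn.pre_br hp i.2).1 (hE i hi).1, n1 i,
      (le_max_right _ _).trans (hE i hi).2, (hmem i _).2 rfl⟩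
    obtain ⟨h, hh, h2⟩ := (UGn.sRel_iff R hH ha s E).1 h1
    exact ⟨h, hh, fun i hi => h2 i hi (hE i hi).1 ((le_max_left _ _).trans (hE i hi).2)⟩

end

end Pool.Agent.Unif
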