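import Pool.Agent.Work.MP_c629c8_al.Mod.Defs
import Pool.Agent.GPA.PolFld
import Pool.Agent.GPA.MNat

/-!
# Addition, multiplication and prime numbers in a model with standard natural numbers
-/

set_option linter.unusedSectionVars false

namespace Pool.Agent.Unif

open Pool.Agent.SigB Pool.Agent.Frc Pool.Agent.Forc Pool.Agent.GPA

variable {K : Type 1} [Membership K K] [IsZFC K]

theorem isZero_iff {z : K} : IsZero z ↔ z = nt K 0 :=
  ⟨fun h => ext' fun w => ⟨fun hw => (h w hw).elim, fun hw => (not_mem_em w hw).elim⟩,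
    fun h w hw => by rw [h] at hw; exact not_mem_em w hw⟩

theorem isSucc_iff {t s : K} : IsSucc t s ↔ t = sc s :=
  ⟨fun h => ext' fun w => by rw [h w, mem_sc], fun h w => by rw [h, mem_sc]⟩

/-- Functions of two variables given by recursion. -/
theorem exists_rec2 {F : K → K} {G : K → K → K} (hF : DT fun w : Fin 1 → K => F (w 0))
    (hG : DT fun w : Fin 2 → K => G (w 0) (w 1)) (hF2 : ∀ m, m ∈ (om : K) → F m ∈ (om : K))
    (hG2 : ∀ m k, m ∈ (om : K) → k ∈ (om : K) → G k m ∈ (om : K)) :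
    ∃ g : K, IsMap2 g om om om ∧ (∀ m, m ∈ (om : K) → Val2 g m em (F m)) ∧
      ∀ m n k, Val2 g m n k → Val2 g m (sc n) (G k m) := by
  have hG' : ∀ {n : ℕ} {s t : (Fin n → K) → K}, DT s → DT t → DT fun v => G (s v) (t v) :=
    fun hs ht => dt2 hG hs ht
  have hL : DT fun w : Fin 1 → K => lam (om : K) fun m => G (ap (w 0) m) m := by
    simp (maxDischargeDepth := 50) [hG']
  obtain ⟨f, hf, h0, h1⟩ := om_recursion (lam (om : K) F) (G := fun h => lam om fun m =>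
    G (ap h m) m) hL
  have hd : ∀ h : K, DT fun w : Fin 1 → K => G (ap h (w 0)) (w 0) := fun h => by
    simp (maxDischargeDepth := 50) [hG']
  have h2 : ∀ n, n ∈ (om : K) → ∀ m, m ∈ (om : K) → ap (ap f n) m ∈ (om : K) := by
    refine om_ind (P := fun n => ∀ m, m ∈ (om : K) → ap (ap f n) m ∈ (om : K))
      (by simp (maxDischargeDepth := 50)) ?_ ?_
    · intro m hm
      rw [h0, ap_lam hF hm]
      exact hF2 m hm
    · intro n hn ih m hm
      rw [h1 n hn, ap_lam (hd _) hm]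
      exact hG2 m _ hm (ih m hm)
  have hD : DT fun w : Fin 1 → K => cp fun z => ∃ m n, w 0 = op m n ∧ z ∈ ap (ap f n) m := by
    simp (maxDischargeDepth := 50)
  have hDv : ∀ m n, (cp fun z => ∃ m' n', op m n = op m' n' ∧ z ∈ ap (ap f n') m') =
      ap (ap f n) m := by
    intro m n
    refine (ext' fun z => ?_)
    have h3 : ∀ z, z ∈ ap (ap f n) m ↔ ∃ m' n', op m n = op m' n' ∧ z ∈ ap (ap f n') m' := by
      intro z
      constructor
      · intro hz
        exact ⟨m, n, rfl, hz⟩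
      · rintro ⟨m', n', h, hz⟩
        obtain ⟨rfl, rfl⟩ := op_inj.1 h
        exact hz
    rw [mem_cp ⟨_, h3⟩, h3]
  refine ⟨lam (pd om om) fun x => cp fun z => ∃ m n, x = op m n ∧ z ∈ ap (ap f n) m, ?_, ?_, ?_⟩
  · rw [isMap2_iff]
    refine lam_mem_fs hD fun x hx => ?_
    obtain ⟨m, hm, n, hn, rfl⟩ := mem_pd.1 hx
    rw [hDv]
    exact h2 n hn m hm
  · intro m hm
    rw [val2_iff, op_mem_lam hD]
    refine ⟨op_mem_pd.2 ⟨hm, em_mem_om⟩, ?_⟩
    rw [hDv, h0, ap_lam hF hm]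
  · intro m n k h
    rw [val2_iff, op_mem_lam hD] at h ⊢
    obtain ⟨h3, rfl⟩ := h
    obtain ⟨hm, hn⟩ := op_mem_pd.1 h3
    refine ⟨op_mem_pd.2 ⟨hm, sc_mem_om hn⟩, ?_⟩
    rw [hDv, hDv, h1 n hn, ap_lam (hd _) hm]

theorem exists_add : ∃ ad : K, IsAdd ad om := by
  obtain ⟨g, h1, h2, h3⟩ := exists_rec2 (K := K) (F := fun m => m) (G := fun k _ => sc k)
    (by simp) (by simp (maxDischargeDepth := 50)) (fun m hm => hm) fun m k hm hk => sc_mem_om hk
  refine ⟨g, h1, fun m z hm hz => ?_, fun m n k n' k' h hn hk => ?_⟩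
  · rw [isZero_iff.1 hz]
    exact h2 m hm
  · rw [isSucc_iff.1 hn, isSucc_iff.1 hk]
    exact h3 m n k h

variable {ad mu o : K}

theorem val2_unique {a b c g x y w w' : K} (h : IsMap2 g a b c) (h1 : Val2 g x y w)
    (h2 : Val2 g x y w') : w = w' := by
  rw [isMap2_iff] at h
  rw [val2_iff] at h1 h2
  have h3 := (fs_dom h h1).1
  rw [fs_val h h3] at h1 h2
  exact h1.symm.trans h2

theorem val2_dom {a b c g x y w : K} (h : IsMap2 g a b c) (h1 : Val2 g x y w) :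
    x ∈ a ∧ y ∈ b ∧ w ∈ c := by
  rw [isMap2_iff] at h
  rw [val2_iff] at h1
  obtain ⟨h2, h3⟩ := fs_dom h h1
  obtain ⟨h4, h5⟩ := op_mem_pd.1 h2
  exact ⟨h4, h5, h3⟩

theorem IsAdd.val_nt (h : IsAdd ad (om : K)) (m n : ℕ) :
    Val2 ad (nt K m) (nt K n) (nt K (m + n)) := by
  induction n with
  | zero => exact h.zero _ _ (nt_mem_om m) (isZero_iff.2 rfl)
  | succ n ih => exact h.succ _ _ _ _ _ ih (isSucc_iff.2 rfl) (isSucc_iff.2 rfl)

theorem IsAdd.val (h : IsAdd ad (om : K)) {m n : ℕ} {x : K} :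
    Val2 ad (nt K m) (nt K n) x ↔ x = nt K (m + n) := by
  constructor
  · intro h1
    exact val2_unique h.map h1 (h.val_nt m n)
  · rintro rfl
    exact h.val_nt m n

theorem IsAdd.val_iff (h : IsAdd ad (om : K)) (hK : Om K) {x y w : K} :
    Val2 ad x y w ↔ ∃ m n : ℕ, x = nt K m ∧ y = nt K n ∧ w = nt K (m + n) := by
  constructor
  · intro h1
    obtain ⟨hx, hy, -⟩ := val2_dom h.map h1
    obtain ⟨m, rfl⟩ := hK _ hx
    obtain ⟨n, rfl⟩ := hK _ hy
    exact ⟨m, n, rfl, rfl, h.val.1 h1⟩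
  · rintro ⟨m, n, rfl, rfl, rfl⟩
    exact h.val_nt m n

theorem exists_mul (h : IsAdd ad (om : K)) : ∃ mu : K, IsMul mu ad om := by
  have hd : DT fun w : Fin 2 → K => ap ad (op (w 0) (w 1)) := by
    simp (maxDischargeDepth := 50)
  obtain ⟨g, h1, h2, h3⟩ := exists_rec2 (K := K) (F := fun _ => em)
    (G := fun k m => ap ad (op k m)) (by simp) hd (fun m hm => em_mem_om) fun m k hm hk =>
      (mem_fs.1 (isMap2_iff.1 h.map)).2 _ (op_mem_pd.2 ⟨hk, hm⟩)
  refine ⟨g, h1, fun m z hm hz => ?_, fun m n k n' l hk hn hl => ?_⟩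
  · rw [isZero_iff.1 hz]
    exact h2 m hm
  · rw [isSucc_iff.1 hn]
    have h4 := h3 m n k hk
    obtain ⟨hk', hm', -⟩ := val2_dom h.map hl
    rw [val2_iff, fs_val (isMap2_iff.1 h.map) (op_mem_pd.2 ⟨hk', hm'⟩)] at hl
    rwa [hl] at h4

theorem IsMul.val_nt (h : IsMul mu ad (om : K)) (ha : IsAdd ad (om : K)) (m n : ℕ) :
    Val2 mu (nt K m) (nt K n) (nt K (m * n)) := by
  induction n with
  | zero => exact h.zero _ _ (nt_mem_om m) (isZero_iff.2 rfl)
  | succ n ih => exact h.succ _ _ _ _ _ ih (isSucc_iff.2 rfl) (ha.val_nt (m * n) m)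

theorem IsMul.val (h : IsMul mu ad (om : K)) (ha : IsAdd ad (om : K)) {m n : ℕ} {x : K} :
    Val2 mu (nt K m) (nt K n) x ↔ x = nt K (m * n) := by
  constructor
  · intro h1
    exact val2_unique h.map h1 (h.val_nt ha m n)
  · rintro rfl
    exact h.val_nt ha m n

theorem IsMul.val_iff (h : IsMul mu ad (om : K)) (ha : IsAdd ad (om : K)) (hK : Om K)
    {x y w : K} :
    Val2 mu x y w ↔ ∃ m n : ℕ, x = nt K m ∧ y = nt K n ∧ w = nt K (m * n) := by
  constructor
  · intro h1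
    obtain ⟨hx, hy, -⟩ := val2_dom h.map h1
    obtain ⟨m, rfl⟩ := hK _ hx
    obtain ⟨n, rfl⟩ := hK _ hy
    exact ⟨m, n, rfl, rfl, (h.val ha).1 h1⟩
  · rintro ⟨m, n, rfl, rfl, rfl⟩
    exact h.val_nt ha m n

theorem isPrime_nt (h : IsMul mu ad (om : K)) (ha : IsAdd ad (om : K)) (hK : Om K) {q : ℕ} :
    IsPrime (nt K q) mu om ↔ q.Prime := by
  have h1 : (∃ z e : K, IsZero z ∧ IsSucc e z ∧ e ∈ nt K q) ↔ 1 < q := by
    constructor
    · rintro ⟨z, e, hz, he, hq⟩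
      rw [isZero_iff] at hz
      rw [isSucc_iff, hz] at he
      rw [he] at hq
      exact nt_mem_nt.1 (show nt K 1 ∈ nt K q from hq)
    · intro hq
      exact ⟨nt K 0, nt K 1, isZero_iff.2 rfl, isSucc_iff.2 rfl, nt_mem_nt.2 hq⟩
  unfold IsPrime
  rw [h1]
  constructor
  · rintro ⟨-, hq, h2⟩
    rw [Nat.prime_def]
    refine ⟨hq, fun m hm => ?_⟩
    obtain ⟨n, hn⟩ := hm
    rcases h2 (nt K m) (nt K n) ((h.val ha).2 (by rw [hn])) with h3 | h3
    · exact Or.inr (nt_inj h3)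
    · left
      have h4 := nt_inj h3
      have h5 : m * q = 1 * q := by rw [one_mul, ← h4, ← hn]; exact h4.symm
      exact Nat.eq_of_mul_eq_mul_right (by omega) h5
  · intro hq
    refine ⟨nt_mem_om q, hq.one_lt, fun a b hab => ?_⟩
    obtain ⟨m, n, rfl, rfl, h3⟩ := (h.val_iff ha hK).1 hab
    have h4 := nt_inj h3
    rcases hq.eq_one_or_self_of_dvd m ⟨n, h4⟩ with h5 | h5
    · right
      rw [h5, one_mul] at h4
      rw [h4]
    · left
      rw [h5]

theorem isPrime_iff (h : IsMul mu ad (om : K)) (ha : IsAdd ad (om : K)) (hK : Om K) {x : K} :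
    IsPrime x mu om ↔ ∃ q : ℕ, q.Prime ∧ x = nt K q := by
  constructor
  · intro hx
    obtain ⟨q, rfl⟩ := hK _ hx.1
    exact ⟨q, (isPrime_nt h ha hK).1 hx, rfl⟩
  · rintro ⟨q, hq, rfl⟩
    exact (isPrime_nt h ha hK).2 hq

end Pool.Agent.Unif
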