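import Pool.Agent.Work.MP_c629c8_al.Mod.UGn

/-!
# Codes of finite sequences of natural numbers and of finite sets
-/

set_option linter.unusedSectionVars false

namespace Pool.Agent.Unif

open Pool.Agent.SigB Pool.Agent.Frc Pool.Agent.Forc Pool.Agent.GPA

section

variable (K : Type 1) [Membership K K] [IsZFC K]

/-- The finite sequence `s` of natural numbers as an element of `K`: a function from `nt n` to `ω`,
where `n` is the length of `s`. -/
noncomputable def sq (s : List ℕ) : K :=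
  fin (s.zipIdx.map fun a => SigB.op (nt K a.2) (nt K a.1))

end

section

variable {K : Type 1} [Membership K K] [IsZFC K]

theorem mem_sq {s : List ℕ} {x : K} :
    x ∈ sq K s ↔ ∃ (i : ℕ) (h : i < s.length), x = SigB.op (nt K i) (nt K s[i]) := by
  unfold sq
  rw [mem_fin, List.mem_map]
  constructor
  · rintro ⟨⟨b, i⟩, hb, rfl⟩
    rw [List.mem_zipIdx_iff_getElem?] at hb
    obtain ⟨hi, hb⟩ := List.getElem?_eq_some_iff.1 hb
    exact ⟨i, hi, by rw [← hb]⟩
  · rintro ⟨i, hi, rfl⟩
    refine ⟨(s[i], i), ?_, rfl⟩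
    rw [List.mem_zipIdx_iff_getElem?]
    exact List.getElem?_eq_some_iff.2 ⟨hi, rfl⟩

theorem op_mem_sq {s : List ℕ} {i k : ℕ} :
    SigB.op (nt K i) (nt K k) ∈ sq K s ↔ ∃ h : i < s.length, k = s[i] := by
  rw [mem_sq]
  constructor
  · rintro ⟨i', hi, h⟩
    obtain ⟨h1, h2⟩ := SigB.op_inj.1 h
    obtain rfl := nt_inj h1
    exact ⟨hi, nt_inj h2⟩
  · rintro ⟨hi, rfl⟩
    exact ⟨i, hi, rfl⟩

theorem sb_sq {s t : List ℕ} : Sb (sq K s) (sq K t) ↔ s <+: t := by
  constructor
  · intro h
    have h1 : ∀ i (hi : i < s.length), ∃ h' : i < t.length, s[i] = t[i] := by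
      intro i hi
      obtain ⟨h2, h3⟩ := op_mem_sq.1 (h _ (op_mem_sq.2 ⟨hi, rfl⟩))
      exact ⟨h2, h3⟩
    rw [List.prefix_iff_getElem?]
    intro i hi
    obtain ⟨h2, h3⟩ := h1 i hi
    rw [List.getElem?_eq_some_iff]
    exact ⟨h2, h3.symm⟩
  · intro h x hx
    obtain ⟨i, hi, rfl⟩ := mem_sq.1 hx
    refine op_mem_sq.2 ⟨lt_of_lt_of_le hi h.length_le, ?_⟩
    rw [h.getElem hi]

theorem sq_inj {s t : List ℕ} (h : sq K s = sq K t) : s = t := by
  have h1 : s <+: t := (sb_sq (K := K)).1 (by rw [h]; exact Sb.refl _)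
  have h2 : t <+: s := (sb_sq (K := K)).1 (by rw [h]; exact Sb.refl _)
  exact h1.eq_of_length_le h2.length_le

theorem sq_nil : sq K [] = SigB.em := rfl

/-- `sq K s` is contained in `c` iff `c` has the values of `s`. -/
theorem sb_sq_iff {s : List ℕ} {c : K} :
    Sb (sq K s) c ↔ ∀ (i : ℕ) (h : i < s.length), SigB.op (nt K i) (nt K s[i]) ∈ c := by
  constructor
  · exact fun h i hi => h _ (mem_sq.2 ⟨i, hi, rfl⟩)
  · intro h x hx
    obtain ⟨i, hi, rfl⟩ := mem_sq.1 hx
    exact h i hi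

theorem sq_mem_fs (s : List ℕ) : sq K s ∈ fs (nt K s.length) (om : K) := by
  have hfn : Fn (sq K s) (nt K s.length) := by
    constructor
    · intro z hz
      obtain ⟨i, hi, rfl⟩ := mem_sq.1 hz
      exact ⟨nt K i, nt_mem_nt.2 hi, _, rfl⟩
    · intro x hx
      obtain ⟨i, hi, rfl⟩ := mem_nt.1 hx
      refine ⟨nt K s[i], mem_sq.2 ⟨i, hi, rfl⟩, fun y hy => ?_⟩
      obtain ⟨i', hi', h⟩ := mem_sq.1 hy
      obtain ⟨h1, rfl⟩ := SigB.op_inj.1 h
      obtain rfl := nt_inj h1
      rfl
  refine mem_fs.2 ⟨hfn, fun x hx => ?_⟩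
  obtain ⟨i, hi, rfl⟩ := mem_nt.1 hx
  rw [(hfn.op_mem_iff hx).1 (mem_sq.2 ⟨i, hi, rfl⟩)]
  exact nt_mem_om _

/-- The elements of `ω^m`. -/
theorem mem_fs_nt_om (h : Om K) {m : ℕ} {x : K} :
    x ∈ fs (nt K m) (om : K) ↔ ∃ s : List ℕ, s.length = m ∧ x = sq K s := by
  constructor
  · intro hx
    have h1 : ∀ i : Fin m, ∃ k, ap x (nt K i) = nt K k := fun i =>
      h _ ((mem_fs.1 hx).2 _ (nt_mem_nt.2 i.2))
    choose f hf using h1
    refine ⟨List.ofFn f, List.length_ofFn, ext' fun z => ?_⟩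
    rw [(mem_fs.1 hx).1.mem_iff, mem_sq]
    constructor
    · rintro ⟨y, hy, rfl⟩
      obtain ⟨i, hi, rfl⟩ := mem_nt.1 hy
      refine ⟨i, by rwa [List.length_ofFn], ?_⟩
      rw [List.getElem_ofFn, ← hf]
    · rintro ⟨i, hi, rfl⟩
      have hi' : i < m := by rwa [List.length_ofFn] at hi
      refine ⟨nt K i, nt_mem_nt.2 hi', ?_⟩
      rw [List.getElem_ofFn, ← hf]
  · rintro ⟨s, rfl, rfl⟩
    exact sq_mem_fs s

/-- The finite sequences of natural numbers in a model with standard natural numbers. -/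
theorem isMap_om_iff (h : Om K) {k x : K} (hk : k ∈ (om : K)) :
    IsMap x k (om : K) ↔ ∃ s : List ℕ, k = nt K s.length ∧ x = sq K s := by
  obtain ⟨m, rfl⟩ := h k hk
  rw [isMap_iff, mem_fs_nt_om h]
  constructor
  · rintro ⟨s, rfl, rfl⟩
    exact ⟨s, rfl, rfl⟩
  · rintro ⟨s, h1, rfl⟩
    exact ⟨s, (nt_inj h1).symm, rfl⟩

end

section

variable {K K' : Type 1} [Membership K K] [IsZFC K] [Membership K' K'] [IsZFC K'] {f : K → K'}

theorem finHom_sq (h : FinHom f) (s : List ℕ) : f (sq K s) = sq K' s := by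
  unfold sq
  rw [h.fin, List.map_map]
  congr 1
  refine List.map_congr_left fun a _ => ?_
  rw [Function.comp_apply, h.op, h.nt, h.nt]

end

noncomputable instance : Cod (List ℕ) := ⟨sq V, fun _ _ h => sq_inj h⟩

noncomputable instance : HC (List ℕ) where
  c K _ _ s := sq K s
  cV _ := rfl
  inj K _ _ _ _ h := sq_inj h
  hom h s := finHom_sq h s

noncomputable instance {I : Type} [Cod I] : Cod (Finset I) :=
  ⟨fun E => cd (E : Set I), fun _ _ h => Finset.coe_injective (Cod.inj h)⟩

theorem cd_finset {I : Type} [Cod I] (E : Finset I) : cd E = cd (E : Set I) := rfl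

section

variable {M : Type 1} [Membership M M] [IsZFC M] {j : M → V} {I : Type} [Cod I]

theorem inM_list (h : ElSub M j) (s : List ℕ) : InM j s := ⟨sq M s, finHom_sq h.finHom s⟩

theorem inM_univ_list (h : ElSub M j) : InM j (Set.univ : Set (List ℕ)) := by
  refine h.cmp2 (P₀ := fun x o _ => ∃ n, n ∈ o ∧ IsMap x n o)
    (P := fun x o _ => ∃ n, n ∈ o ∧ IsMap x n o) (by simp (maxDischargeDepth := 50))
    (a := SigB.om) (b := SigB.om) fun x => ?_
  rw [h.om, mem_cd_set]
  constructor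
  · rintro ⟨s, -, rfl⟩
    exact ⟨nt V s.length, nt_mem_om _, isMap_iff.2 (sq_mem_fs s)⟩
  · rintro ⟨n, hn, hx⟩
    obtain ⟨s, -, hs⟩ := (isMap_om_iff om_V hn).1 hx
    exact ⟨s, trivial, hs⟩

/-- A code of a finite set belongs to `M` iff all its elements do. -/
theorem inM_finset (h : ElSub M j) {E : Finset I} : InM j E ↔ ∀ i ∈ E, InM j i := by
  classical
  constructor
  · rintro ⟨m, hm⟩ i hi
    -- induction on the finite set
    have key : ∀ (n : ℕ) (E : Finset I), E.card = n → InM j (E : Set I) → ∀ i ∈ E, InM j i := by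
      intro n
      induction n with
      | zero =>
        intro E hE _ i hi
        rw [Finset.card_eq_zero.1 hE] at hi
        simp at hi
      | succ n ih =>
        intro E hE hM i hi
        have hne : ∃ a, a ∈ (E : Set I) := ⟨i, hi⟩
        obtain ⟨a, ha, haE⟩ := inM_wit1 h hM hne
        have hd : InM j ((E.erase a : Finset I) : Set I) := by
          have h1 : InM j ({a} : Set I) := by
            obtain ⟨m, hm⟩ := ha
            refine ⟨SigB.pr m m, ?_⟩
            rw [h.pr, hm]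
            refine ext' fun x => ?_
            rw [mem_pr, or_self, mem_cd_set]
            simp
          have h2 := inM_diff h hM h1
          rwa [Finset.coe_erase]
        by_cases hia : i = a
        · rw [hia]; exact ha
        · refine ih (E.erase a) ?_ hd i (Finset.mem_erase.2 ⟨hia, hi⟩)
          rw [Finset.card_erase_of_mem (by simpa using haE), hE]
          rfl
    exact key _ E rfl ⟨m, hm⟩ i hi
  · intro hE
    induction E using Finset.induction_on with
    | empty =>
      refine ⟨SigB.em, ?_⟩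
      rw [h.em]
      refine ext' fun x => ?_
      rw [cd_finset, mem_cd_set]
      constructor
      · intro hx; exact (not_mem_em _ hx).elim
      · rintro ⟨a, ha, -⟩; simp at ha
    | insert a s ha ih =>
      obtain ⟨m, hm⟩ := ih fun i hi => hE i (Finset.mem_insert_of_mem hi)
      obtain ⟨b, hb⟩ := hE a (Finset.mem_insert_self a s)
      refine ⟨SigB.un (SigB.pr b b) m, ?_⟩
      rw [h.un, h.pr, hm, hb]
      refine ext' fun x => ?_
      rw [mem_un, mem_pr, or_self, cd_finset, cd_finset, mem_cd_set, mem_cd_set]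
      constructor
      · rintro (rfl | ⟨c, hc, rfl⟩)
        · exact ⟨a, by simp, rfl⟩
        · exact ⟨c, by simp only [Finset.coe_insert]; exact Or.inr hc, rfl⟩
      · rintro ⟨c, hc, rfl⟩
        rw [Finset.coe_insert] at hc
        rcases hc with rfl | hc
        · exact Or.inl rfl
        · exact Or.inr ⟨c, hc, rfl⟩

end

section

variable {Q : Type} [PartialOrder Q] [OrderTop Q] [Cod Q] {M N : Type 1} [Membership M M]
  [IsZFC M] [Membership N N] [IsZFC N] {g : PGn Q M N}

variable (g) in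
theorem PGn.el_list (s : List ℕ) : g.el s = sq N s := by
  have h : g.j (sq M s) = cd s := finHom_sq g.sub.finHom s
  rw [PGn.el_eq h]
  exact finHom_sq g.finHom s

theorem PGn.mem_el_finset {I : Type} [Cod I] {E : Finset I} (hE : InM g.j E) {z : N} :
    z ∈ g.el E ↔ ∃ i ∈ E, z = g.el i := by
  have h1 : InM g.j (E : Set I) := hE
  have h2 : g.el E = g.el (E : Set I) := rfl
  rw [h2, PGn.mem_el h1]
  constructor
  · rintro ⟨a, -, ha, rfl⟩
    exact ⟨a, by simpa using ha, rfl⟩
  · rintro ⟨a, ha, rfl⟩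
    exact ⟨a, (inM_finset g.sub).1 hE a ha, by simpa using ha, rfl⟩

end

end Pool.Agent.Unif
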