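import Pool.Agent.Work.MP_c629c8_al.Mod.NDefs
import Pool.Agent.Work.MP_c629c8_al.Mod.Ar
import Pool.Agent.Work.MP_c629c8_al.Mod.Sq
import Pool.Agent.Work.MP_c629c8_al.Grp.Defs

/-!
# The external reading of the branches and of the primes of `D : Br K`
-/

set_option linter.unusedSectionVars false

namespace Pool.Agent.Unif

open Pool.Agent.SigB Pool.Agent.Frc Pool.Agent.Forc Pool.Agent.GPA
open Pool.Agent.Work.MP_c629c8_al

variable {K : Type 1} [Membership K K] [IsZFC K]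

/-- The elements of `B` are the `bc j`, and `bc j` is the code of the sequence `c j`; the function
`p` of `D` is the code of `p`. -/
structure Rd (D : Br K) {J : Type*} (c : J → ℕ → ℕ) (p : List ℕ → ℕ) (bc : J → K) : Prop where
  om : Om K
  is : D.Is
  mem_B : ∀ b, b ∈ D.B ↔ ∃ j, b = bc j
  bc_inj : Function.Injective bc
  val_b : ∀ j n m, SigB.op (nt K n) (nt K m) ∈ bc j ↔ c j n = m
  val_p : ∀ s q, SigB.op (sq K s) (nt K q) ∈ D.p ↔ p s = q

theorem Br.Is.o_eq {D : Br K} (h : D.Is) : D.o = om := isOmega_iff.1 h.omega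

theorem Br.Is.add_om {D : Br K} (h : D.Is) : IsAdd D.ad (om : K) := by
  have h1 := h.add
  rwa [h.o_eq] at h1

theorem Br.Is.mul_om {D : Br K} (h : D.Is) : IsMul D.mu D.ad (om : K) := by
  have h1 := h.mul
  rwa [h.o_eq] at h1

theorem Br.Is.mem_T {D : Br K} (h : D.Is) (hK : Om K) {r : K} :
    r ∈ D.T ↔ ∃ s : List ℕ, r = sq K s := by
  rw [h.seq, h.o_eq]
  constructor
  · rintro ⟨k, hk, hr⟩
    obtain ⟨s, -, hs⟩ := (isMap_om_iff hK hk).1 hr
    exact ⟨s, hs⟩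
  · rintro ⟨s, rfl⟩
    exact ⟨nt K s.length, nt_mem_om _, isMap_iff.2 (sq_mem_fs s)⟩

theorem exists_rd (hK : Om K) {D : Br K} (hD : D.Is) :
    ∃ (c : {b : K // b ∈ D.B} → ℕ → ℕ) (p : List ℕ → ℕ), Rd D c p Subtype.val := by
  have h1 : ∀ (b : {b : K // b ∈ D.B}) (n : ℕ), ∃ m : ℕ, ap b.1 (nt K n) = nt K m := by
    intro b n
    have h2 := hD.branch b.1 b.2
    rw [hD.o_eq, isMap_iff] at h2
    exact hK _ ((mem_fs.1 h2).2 _ (nt_mem_om n))
  have h3 : ∀ s : List ℕ, ∃ q : ℕ, ap D.p (sq K s) = nt K q := by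
    intro s
    have h4 := hD.inj.1
    rw [hD.o_eq, isMap_iff] at h4
    exact hK _ ((mem_fs.1 h4).2 _ ((hD.mem_T hK).2 ⟨s, rfl⟩))
  choose c hc using h1
  choose p hp using h3
  refine ⟨c, p, ⟨hK, hD, fun b => ⟨fun h => ⟨⟨b, h⟩, rfl⟩, ?_⟩, Subtype.val_injective, ?_, ?_⟩⟩
  · rintro ⟨j, rfl⟩
    exact j.2
  · intro j n m
    have h2 := hD.branch j.1 j.2
    rw [hD.o_eq, isMap_iff] at h2
    rw [fs_val h2 (nt_mem_om n), hc]
    exact ⟨nt_inj, fun h => by rw [h]⟩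
  · intro s q
    have h4 := hD.inj.1
    rw [hD.o_eq, isMap_iff] at h4
    rw [fs_val h4 ((hD.mem_T hK).2 ⟨s, rfl⟩), hp]
    exact ⟨nt_inj, fun h => by rw [h]⟩

namespace Rd

variable {D : Br K} {J : Type*} {c : J → ℕ → ℕ} {p : List ℕ → ℕ} {bc : J → K}
  (R : Rd D c p bc)

include R

theorem o_eq : D.o = SigB.om := R.is.o_eq

theorem mem_T {r : K} : r ∈ D.T ↔ ∃ s : List ℕ, r = sq K s := R.is.mem_T R.om

theorem sq_mem_T (s : List ℕ) : sq K s ∈ D.T := R.mem_T.2 ⟨s, rfl⟩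

theorem bc_mem (j : J) : bc j ∈ D.B := (R.mem_B _).2 ⟨j, rfl⟩

theorem mem_p {r q : K} : SigB.op r q ∈ D.p ↔ ∃ s : List ℕ, r = sq K s ∧ q = nt K (p s) := by
  have h4 := R.is.inj.1
  rw [R.o_eq, isMap_iff] at h4
  constructor
  · intro h
    obtain ⟨h1, h2⟩ := fs_dom h4 h
    obtain ⟨s, rfl⟩ := R.mem_T.1 h1
    obtain ⟨n, rfl⟩ := R.om _ h2
    exact ⟨s, rfl, by rw [(R.val_p s n).1 h]⟩
  · rintro ⟨s, rfl, rfl⟩
    exact (R.val_p s _).2 rfl

theorem val_p_iff {r q : K} : Val D.p r q ↔ ∃ s : List ℕ, r = sq K s ∧ q = nt K (p s) := by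
  rw [val_iff, R.mem_p]

theorem prime (s : List ℕ) : (p s).Prime := by
  have h := R.is.prime (sq K s) (nt K (p s)) (R.val_p_iff.2 ⟨s, rfl, rfl⟩)
  rw [R.o_eq] at h
  exact (isPrime_nt R.is.mul_om R.is.add_om R.om).1 h

theorem p_inj : Function.Injective p := by
  intro s t h
  have h1 := R.is.inj.2 (sq K s) (sq K t) (nt K (p s)) (R.val_p_iff.2 ⟨s, rfl, rfl⟩)
    (R.val_p_iff.2 ⟨t, rfl, by rw [h]⟩)
  exact sq_inj h1

theorem c_inj : Function.Injective c := by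
  intro i j h
  refine R.bc_inj ?_
  have h1 : ∀ j, bc j ∈ fs (SigB.om : K) SigB.om := fun j => by
    have := R.is.branch (bc j) (R.bc_mem j)
    rwa [R.o_eq, isMap_iff] at this
  have h2 : ∀ i j, c i = c j → Sb (bc i) (bc j) := by
    intro i j h z hz
    obtain ⟨n, hn, rfl⟩ := (mem_fs.1 (h1 i)).1.mem_iff.1 hz
    obtain ⟨n, rfl⟩ := R.om _ hn
    obtain ⟨m, hm⟩ := R.om _ ((mem_fs.1 (h1 i)).2 _ hn)
    rw [hm] at hz ⊢
    rw [R.val_b] at hz ⊢
    rw [← h]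
    exact hz
  exact (h2 i j h).antisymm (h2 j i h.symm)

theorem sb_iff {s : List ℕ} {j : J} : Sb (sq K s) (bc j) ↔ Pre s (c j) := by
  rw [sb_sq_iff]
  constructor
  · intro h k hk
    exact ((R.val_b j k s[k]).1 (h k hk)).symm
  · intro h i hi
    exact (R.val_b j i s[i]).2 (h i hi).symm

theorem isSub_iff {s : List ℕ} {j : J} : IsSub (sq K s) (bc j) ↔ Pre s (c j) := R.sb_iff

end Rd

end Pool.Agent.Unif
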