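import Pool.Agent.Work.MP_c629c8_al.Mod.URel
import Pool.Agent.Work.MP_c629c8_al.Mod.Sq

/-!
# Ramsey systems of the extension have good names
-/

set_option linter.unusedSectionVars false

namespace Pool.Agent.Unif

open Pool.Agent.SigB Pool.Agent.Frc Pool.Agent.Forc Pool.Agent.GPA

section

variable {Q : Type} [PartialOrder Q] {I : Type} {R : List ℕ → ℕ → ℕ → ℕ}

variable (Q I) in
/-- Relations which are candidates for the name of a system. -/
abbrev NT : Type := Set (Q × (List ℕ × Finset I))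

/-- `q` forces a failure of monotonicity. -/
def VioM (X : NT Q I) (q : Q) (w : List ℕ × (Finset I × Finset I)) : Prop :=
  w.2.2 ⊆ w.2.1 ∧ (q, (w.1, w.2.1)) ∈ X ∧ ∀ s ≤ q, (s, (w.1, w.2.2)) ∉ X

/-- `q` forces that a small set is missing. -/
def VioS (X : NT Q I) (q : Q) (w : List ℕ × Finset I) : Prop :=
  w.2.card ≤ 1 ∧ ∀ s ≤ q, (s, w) ∉ X

variable (R) in
/-- `q` forces a failure of the Ramsey property. -/
def VioR (X : NT Q I) (q : Q) (w : (List ℕ × (ℕ × ℕ)) × Set (ℕ × Finset I)) : Prop :=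
  ∃ E : Fin (R w.1.1 w.1.2.1 w.1.2.2) → Finset I,
    w.2 = {x | ∃ j : Fin (R w.1.1 w.1.2.1 w.1.2.2), x = ((j : ℕ), E j)} ∧
    (∀ j, (E j).card ≤ w.1.2.1 ∧ (q, (w.1.1, E j)) ∈ X) ∧
    ∀ s ≤ q, ∀ J : Finset (Fin (R w.1.1 w.1.2.1 w.1.2.2)), w.1.2.2 ≤ J.card →
      ∀ E', (∀ j ∈ J, E j ⊆ E') → (s, (w.1.1, E')) ∉ X

variable (R) in
/-- `q` forces a failure. -/
def Vio (X : NT Q I) (q : Q) : Prop :=
  (∃ w, VioM X q w) ∨ (∃ w, VioS X q w) ∨ ∃ w, VioR R X q w

/-- The name which is everything on the conditions which are incompatible with `p`. -/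
def Dp (X : NT Q I) (p : Q) : NT Q I := {x | ∀ q ≤ x.1, q ≤ p → (q, x.2) ∈ X}

theorem goodName_Dp {X : NT Q I} {p : Q} (hD : DownC X) (hL : LocC X)
    (hv : ∀ q ≤ p, ¬ Vio R X q) : GoodName R (fun r E => {q | (q, (r, E)) ∈ Dp X p}) where
  anti r E q q' hq h := fun s hs hsp => h s (hs.trans hq) hsp
  dense r E q h := by
    intro q' hq' hqp
    refine hL _ _ fun t ht => ?_
    obtain ⟨s, hs, h1⟩ := h t (ht.trans hq')
    exact ⟨s, hs, h1 s le_rfl (hs.trans (ht.trans hqp))⟩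
  mono r E E' hE q h := by
    intro q' hq' hqp
    refine hL _ _ fun t ht => ?_
    by_contra hc
    push Not at hc
    exact hv t (ht.trans hqp) (Or.inl ⟨(r, (E, E')), hE,
      hD _ _ _ ht (h q' hq' hqp), fun s hs => hc s hs⟩)
  small r E hE q := by
    intro q' hq' hqp
    refine hL _ _ fun t ht => ?_
    by_contra hc
    push Not at hc
    exact hv t (ht.trans hqp) (Or.inr (Or.inl ⟨(r, E), hE, fun s hs => hc s hs⟩))
  ramsey r k n q E h := by
    classical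
    by_cases hc : ∃ s, s ≤ q ∧ s ≤ p
    · obtain ⟨s, hs, hsp⟩ := hc
      have h1 : ¬ ∃ w, VioR R X s w := fun hw => hv s hsp (Or.inr (Or.inr hw))
      have h2 : ¬ VioR R X s
          ((r, (k, n)), {x | ∃ j : Fin (R r k n), x = ((j : ℕ), E j)}) := fun hw => h1 ⟨_, hw⟩
      unfold VioR at h2
      push Not at h2
      obtain ⟨t, ht, J, hJ, E', hE', htX⟩ := h2 E rfl fun j =>
        ⟨(h j).1, (h j).2 s hs hsp⟩
      exact ⟨t, ht.trans hs, J, hJ, E', hE', fun u hu _ => hD _ _ _ hu htX⟩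
    · -- the condition is incompatible with `p`; only the size of `R r k n` matters
      have h1 : ¬ ∃ w, VioR R X p w := fun hw => hv p le_rfl (Or.inr (Or.inr hw))
      have h2 : ¬ VioR R X p ((r, (k, n)), {x | ∃ j : Fin (R r k n), x = ((j : ℕ), (∅ : Finset I))})
        := fun hw => h1 ⟨_, hw⟩
      unfold VioR at h2
      push Not at h2
      obtain ⟨t, ht, J, hJ, -⟩ := h2 (fun _ => ∅) rfl fun j => by
        refine ⟨by simp, ?_⟩
        refine hL _ _ fun t ht => ?_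
        by_contra hc
        push Not at hc
        exact hv t ht (Or.inr (Or.inl ⟨(r, ∅), by simp, fun s hs => hc s hs⟩))
      refine ⟨q, le_rfl, J, hJ, Finset.univ.biUnion E, fun j _ =>
        Finset.subset_biUnion_of_mem E (Finset.mem_univ j), ?_⟩
      intro q' hq' hqp
      exact absurd ⟨q', hq', hqp⟩ hc

end

section

variable {Q : Type} [PartialOrder Q] [OrderTop Q] [Cod Q] {I : Type} [Cod I]
  {R : List ℕ → ℕ → ℕ → ℕ}

variable (Q I R) in
/-- The parameters. -/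
noncomputable def parGood : List V :=
  parRel Q (List ℕ) (Finset I) ++
    [cd {w : (NT Q I × Q) × (List ℕ × (Finset I × Finset I)) | VioM w.1.1 w.1.2 w.2},
      cd {w : (NT Q I × Q) × (List ℕ × Finset I) | VioS w.1.1 w.1.2 w.2},
      cd {w : (NT Q I × Q) × ((List ℕ × (ℕ × ℕ)) × Set (ℕ × Finset I)) | VioR R w.1.1 w.1.2 w.2},
      cd {w : Q × NT Q I | Vio R w.2 w.1 ∨ ∀ s ≤ w.1, ¬ Vio R w.2 s},
      cd {w : (NT Q I × Q) × NT Q I | w.2 = Dp w.1.1 w.1.2}]

variable {M N : Type 1} [Membership M M]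
  [IsZFC M] [Membership N N] [IsZFC N] {g : PGn Q M N}

/-- The indices which belong to `M`. -/
abbrev PGn.J (g : PGn Q M N) (I : Type) [Cod I] : Type := {i : I // InM g.j i}

/-- A finite set of indices of `M` as a finite set. -/
abbrev PGn.up (g : PGn Q M N) (E : Finset (g.J I)) : Finset I :=
  E.map (Function.Embedding.subtype _)

theorem PGn.inM_up (E : Finset (g.J I)) : InM g.j (g.up E) := by
  rw [inM_finset g.sub]
  intro i hi
  obtain ⟨a, -, rfl⟩ := Finset.mem_map.1 hi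
  exact a.2

theorem PGn.exists_up {E : Finset I} (hE : InM g.j E) : ∃ E' : Finset (g.J I), g.up E' = E := by
  classical
  refine ⟨E.subtype (fun i => InM g.j i), ?_⟩
  exact Finset.subtype_map_of_mem ((inM_finset g.sub).1 hE)

theorem PGn.up_subset {E E' : Finset (g.J I)} : g.up E ⊆ g.up E' ↔ E ⊆ E' :=
  Finset.map_subset_map

theorem PGn.card_up {E : Finset (g.J I)} : (g.up E).card = E.card := Finset.card_map _

/-- The system of a Ramsey system of `N` has a good name in `M` below a condition of the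
filter. -/
theorem PGn.exists_good (hp : g.Has (parGood Q I R)) {S : N → N → Prop}
    (hS : Dfn fun w : Fin 2 → N => S (w 0) (w 1))
    (hR : IsRamsey R (fun r => {E : Finset (g.J I) | S (sq N r) (g.el (g.up E))})) :
    ∃ (D : NT Q I) (p₀ : Q), InM g.j D ∧ g.GQ p₀ ∧ GoodName R (fun r E => {q | (q, (r, E)) ∈ D}) ∧
      ∀ q r (E : Finset (g.J I)), g.GQ q → q ≤ p₀ → (q, (r, g.up E)) ∈ D →
        S (sq N r) (g.el (g.up E)) := by
  classical
  obtain ⟨X, hX, hD, hL, hXS⟩ := g.exists_rel (α := List ℕ) (β := Finset I)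
    (fun a ha => hp a (by simp only [parGood, List.mem_append]; exact Or.inl ha)) hS
  have k1 : InM g.j {w : (NT Q I × Q) × (List ℕ × (Finset I × Finset I)) |
    VioM w.1.1 w.1.2 w.2} := hp _ (by simp [parGood])
  have k2 : InM g.j {w : (NT Q I × Q) × (List ℕ × Finset I) | VioS w.1.1 w.1.2 w.2} :=
    hp _ (by simp [parGood])
  have k3 : InM g.j {w : (NT Q I × Q) × ((List ℕ × (ℕ × ℕ)) × Set (ℕ × Finset I)) |
    VioR R w.1.1 w.1.2 w.2} := hp _ (by simp [parGood])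
  have k4 : InM g.j {w : Q × NT Q I | Vio R w.2 w.1 ∨ ∀ s ≤ w.1, ¬ Vio R w.2 s} :=
    hp _ (by simp [parGood])
  have k5 : InM g.j {w : (NT Q I × Q) × NT Q I | w.2 = Dp w.1.1 w.1.2} :=
    hp _ (by simp [parGood])
  -- the truth of `S` on the sets of indices of `M`
  have hS' : ∀ r (E : Finset (g.J I)), S (sq N r) (g.el (g.up E)) ↔
      ∃ q, g.GQ q ∧ (q, (r, g.up E)) ∈ X := by
    intro r E
    obtain ⟨m, hm⟩ := inM_list g.sub r
    obtain ⟨m', hm'⟩ := g.inM_up E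
    have h1 := hXS r (g.up E) m m' hm hm'
    rwa [← PGn.el_eq hm, ← PGn.el_eq hm', g.el_list] at h1
  have hno : ∀ q, g.GQ q → ¬ Vio R X q := by
    intro q hq hv
    have hXq : InM g.j (X, q) := (inM_pair g.sub).2 ⟨hX, PGn.inM_of_GQ hq⟩
    have hcomp : ∀ r (E : Finset (g.J I)), S (sq N r) (g.el (g.up E)) →
        ∃ s ≤ q, (s, (r, g.up E)) ∈ X := by
      intro r E hE
      obtain ⟨q', hq', h1⟩ := (hS' r E).1 hE
      obtain ⟨s, -, h2, h3⟩ := g.GQ_dir hq hq'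
      exact ⟨s, h2, hD _ _ _ h3 h1⟩
    rcases hv with ⟨w, hw⟩ | ⟨w, hw⟩ | ⟨w, hw⟩
    · obtain ⟨⟨r, E, E'⟩, hM, h1, h2, h3⟩ := inM_wit g.sub k1 hXq ⟨w, hw⟩
      obtain ⟨-, hM⟩ := (inM_pair g.sub).1 hM
      obtain ⟨hE, hE'⟩ := (inM_pair g.sub).1 hM
      obtain ⟨E, rfl⟩ := g.exists_up hE
      obtain ⟨E', rfl⟩ := g.exists_up hE'
      have h4 := hR.mono r E E' (g.up_subset.1 h1) ((hS' r E).2 ⟨q, hq, h2⟩)
      obtain ⟨s, hs, h5⟩ := hcomp r E' h4
      exact h3 s hs h5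
    · obtain ⟨⟨r, E⟩, hM, h1, h2⟩ := inM_wit g.sub k2 hXq ⟨w, hw⟩
      obtain ⟨-, hE⟩ := (inM_pair g.sub).1 hM
      obtain ⟨E, rfl⟩ := g.exists_up hE
      have h4 := hR.small r E (by rw [← g.card_up]; exact h1)
      obtain ⟨s, hs, h5⟩ := hcomp r E h4
      exact h2 s hs h5
    · obtain ⟨⟨⟨r, k, n⟩, G⟩, hM, E, hG, h1, h2⟩ := inM_wit g.sub k3 hXq ⟨w, hw⟩
      obtain ⟨-, hGM⟩ := (inM_pair g.sub).1 hM
      dsimp only at E hG h1 h2
      have hEM : ∀ j, InM g.j (E j) := by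
        intro j
        have h3 := inM_sec' g.sub (r := G) hGM (inM_nat g.sub (j : ℕ))
        obtain ⟨b, hb, hb'⟩ := inM_wit1 g.sub h3 ⟨E j, by
          show ((j : ℕ), E j) ∈ G
          rw [hG]
          exact ⟨j, rfl⟩⟩
        have hb'' : ((j : ℕ), b) ∈ G := hb'
        rw [hG] at hb''
        obtain ⟨j', hj'⟩ := hb''
        have h4 : (j : ℕ) = j' := congrArg Prod.fst hj'
        have h5 : b = E j' := congrArg Prod.snd hj'
        rwa [h5, ← Fin.ext h4] at hb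
      choose E' hE' using fun j => g.exists_up (hEM j)
      obtain ⟨J, hJ, E₁, hE₁, hJE⟩ := hR.ramsey r k n E' fun j =>
        ⟨by rw [← g.card_up, hE']; exact (h1 j).1,
          (hS' r (E' j)).2 ⟨q, hq, by rw [hE']; exact (h1 j).2⟩⟩
      obtain ⟨s, hs, h5⟩ := hcomp r E₁ hE₁
      exact h2 s hs J hJ (g.up E₁) (fun j hj => by
        rw [← hE' j]
        exact g.up_subset.2 (hJE j hj)) h5
  -- a condition of the filter without failures below it
  have h6 : InM g.j {q : Q | Vio R X q ∨ ∀ s ≤ q, ¬ Vio R X s} := inM_sec g.sub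
    (r := {w : Q × NT Q I | Vio R w.2 w.1 ∨ ∀ s ≤ w.1, ¬ Vio R w.2 s}) k4 hX
  obtain ⟨p₀, -, hp₀, h7⟩ := g.gen h6 g.top_GQ fun q _ => by
    by_cases h : ∃ s ≤ q, Vio R X s
    · obtain ⟨s, hs, h⟩ := h
      exact ⟨s, hs, Or.inl h⟩
    · push Not at h
      exact ⟨q, le_rfl, Or.inr h⟩
  have h8 : ∀ s ≤ p₀, ¬ Vio R X s := by
    rcases h7 with h7 | h7
    · exact absurd h7 (hno _ hp₀)
    · exact h7
  obtain ⟨D, hDM, hDe⟩ := inM_wit g.sub k5 (a := (X, p₀))
    ((inM_pair g.sub).2 ⟨hX, PGn.inM_of_GQ hp₀⟩) ⟨Dp X p₀, rfl⟩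
  have hDe' : D = Dp X p₀ := hDe
  subst hDe'
  refine ⟨_, p₀, hDM, hp₀, goodName_Dp hD hL h8, fun q r E hq hqp hqE => ?_⟩
  exact (hS' r E).2 ⟨q, hq, hqE q le_rfl hqp⟩

end

end Pool.Agent.Unif
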