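import Pool.Agent.Work.MP_c629c8_al.Mod.UBr
import Pool.Agent.Work.MP_c629c8_al.Mod.Sq
import Pool.Agent.Work.MP_c629c8_al.Mod.Ar
import Pool.Agent.Work.MP_c629c8_al.Mod.Rd
import Pool.Agent.Work.MP_c629c8_al.Mod.UGood

/-!
# The data of the group of the generic branches in the extension
-/

set_option linter.unusedSectionVars false

namespace Pool.Agent.Unif

open Pool.Agent.SigB Pool.Agent.Frc Pool.Agent.Forc Pool.Agent.GPA Cardinal
open Pool.Agent.Work.MP_c629c8_al (Pre)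

/-- The graph of `p`. -/
def pgr (p : List ℕ → ℕ) : Set (List ℕ × ℕ) := {w | w.2 = p w.1}

/-- The parameters. -/
noncomputable def parP (p : List ℕ → ℕ) : List V := [cd (pgr p)]

section

variable {R : List ℕ → ℕ → ℕ → ℕ} {I : Type} [Cod I] {F : UFrame R I}
  {M N : Type 1} [Membership M M] [IsZFC M] [Membership N N] [IsZFC N]

/-- The set of the finite sequences, the function `p`, the set of the generic branches and the
arithmetic operations in the extension. -/
noncomputable def UGn.D (g : UGn F M N) (p : List ℕ → ℕ) : Br N where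
  o := SigB.om
  ad := (exists_add (K := N)).choose
  mu := (exists_mul (exists_add (K := N)).choose_spec).choose
  T := g.el (Set.univ : Set (List ℕ))
  p := g.el (pgr p)
  B := UGn.BN g

variable {g : UGn F M N} {p : List ℕ → ℕ}

theorem UGn.mem_T {r : N} : r ∈ (UGn.D g p).T ↔ ∃ s : List ℕ, r = sq N s := by
  show r ∈ g.el (Set.univ : Set (List ℕ)) ↔ _
  rw [PGn.mem_el (inM_univ_list g.sub)]
  constructor
  · rintro ⟨s, -, -, rfl⟩
    exact ⟨s, g.el_list s⟩
  · rintro ⟨s, rfl⟩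
    exact ⟨s, inM_list g.sub s, trivial, (g.el_list s).symm⟩

theorem UGn.val_p (hP : g.Has (parP p)) {r q : N} : Val (UGn.D g p).p r q ↔
    ∃ s : List ℕ, r = sq N s ∧ q = nt N (p s) := by
  have h1 : InM g.j (pgr p) := hP _ (by simp [parP])
  rw [val_iff]
  show SigB.op r q ∈ g.el (pgr p) ↔ _
  rw [PGn.mem_el h1]
  constructor
  · rintro ⟨⟨s, k⟩, -, hk, h⟩
    have hk' : k = p s := hk
    subst hk'
    rw [PGn.el_pair (inM_list g.sub s) (inM_nat g.sub _), g.el_list, PGn.el_nat] at h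
    obtain ⟨h2, h3⟩ := SigB.op_inj.1 h
    exact ⟨s, h2, h3⟩
  · rintro ⟨s, rfl, rfl⟩
    refine ⟨(s, p s), (inM_pair g.sub).2 ⟨inM_list g.sub s, inM_nat g.sub _⟩, rfl, ?_⟩
    rw [PGn.el_pair (inM_list g.sub s) (inM_nat g.sub _), g.el_list, PGn.el_nat]

theorem UGn.op_sq_mem_p (hP : g.Has (parP p)) {s : List ℕ} {q : ℕ} :
    SigB.op (sq N s) (nt N q) ∈ (UGn.D g p).p ↔ p s = q := by
  rw [← val_iff, UGn.val_p hP]
  constructor
  · rintro ⟨s', h1, h2⟩
    rw [sq_inj h1, nt_inj h2]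
  · rintro rfl
    exact ⟨s, rfl, rfl⟩

/-- The values of the codes of the branches. -/
theorem UGn.op_mem_brN (hp : g.Has (parBr F)) {i : I} (hi : InM g.j i) {n m : ℕ} :
    SigB.op (nt N n) (nt N m) ∈ UGn.brN g i ↔ UGn.br g i n = m := by
  rw [UGn.br, ext_eq g.om_N (UGn.brN_mem hp hi)]

/-- The data are as in the internal statement. -/
theorem UGn.is (hp : g.Has (parBr F)) (hI : ℵ₁ ≤ #I) (hq : g.Has (parCnt hI))
    (hP : g.Has (parP p)) (hpi : Function.Injective p) (hpp : ∀ s, (p s).Prime) :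
    (UGn.D g p).Is where
  omega := isOmega_iff.2 rfl
  add := (exists_add (K := N)).choose_spec
  mul := (exists_mul (exists_add (K := N)).choose_spec).choose_spec
  seq r := by
    rw [UGn.mem_T]
    constructor
    · rintro ⟨s, rfl⟩
      exact ⟨nt N s.length, nt_mem_om _, isMap_iff.2 (sq_mem_fs s)⟩
    · rintro ⟨k, hk, h⟩
      obtain ⟨s, -, rfl⟩ := (isMap_om_iff g.om_N hk).1 h
      exact ⟨s, rfl⟩
  inj := by
    refine ⟨⟨fun z hz => ?_, fun r hr => ?_⟩, fun r r' q h h' => ?_⟩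
    · have h1 : InM g.j (pgr p) := hP _ (by simp [parP])
      obtain ⟨⟨s, k⟩, -, hk, rfl⟩ := (PGn.mem_el h1).1 hz
      refine ⟨sq N s, nt N k, UGn.mem_T.2 ⟨s, rfl⟩, nt_mem_om _, ?_⟩
      rw [isOrdPair_iff, PGn.el_pair (inM_list g.sub s) (inM_nat g.sub _), g.el_list, PGn.el_nat]
    · obtain ⟨s, rfl⟩ := UGn.mem_T.1 hr
      refine ⟨nt N (p s), (UGn.val_p hP).2 ⟨s, rfl, rfl⟩, fun q hq => ?_⟩
      obtain ⟨s', h1, rfl⟩ := (UGn.val_p hP).1 hq
      rw [sq_inj h1]
    · obtain ⟨s, rfl, rfl⟩ := (UGn.val_p hP).1 h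
      obtain ⟨s', rfl, h1⟩ := (UGn.val_p hP).1 h'
      rw [hpi (nt_inj h1)]
  prime r q h := by
    obtain ⟨s, rfl, rfl⟩ := (UGn.val_p hP).1 h
    exact (isPrime_iff (exists_mul (exists_add (K := N)).choose_spec).choose_spec
      (exists_add (K := N)).choose_spec g.om_N).2 ⟨p s, hpp s, rfl⟩
  branch b hb := by
    obtain ⟨i, hi, rfl⟩ := (UGn.mem_BN hp).1 hb
    exact isMap_iff.2 (UGn.brN_mem hp hi)
  uncountable := UGn.not_countable hp hI hq

/-- The external reading of the data: the branches of the indices which belong to `M`. -/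
theorem UGn.rd (hp : g.Has (parBr F)) (hI : ℵ₁ ≤ #I) (hq : g.Has (parCnt hI))
    (hP : g.Has (parP p)) (hpi : Function.Injective p) (hpp : ∀ s, (p s).Prime) :
    Rd (UGn.D g p) (fun j : PGn.J g I => UGn.br g j.1) p (fun j => UGn.brN g j.1) where
  om := g.om_N
  is := UGn.is hp hI hq hP hpi hpp
  mem_B b := by
    show b ∈ UGn.BN g ↔ _
    rw [UGn.mem_BN hp]
    constructor
    · rintro ⟨i, hi, rfl⟩
      exact ⟨⟨i, hi⟩, rfl⟩
    · rintro ⟨j, rfl⟩
      exact ⟨j.1, j.2, rfl⟩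
  bc_inj j j' h := Subtype.ext (UGn.brN_inj hp j.2 j'.2 h)
  val_b j n m := UGn.op_mem_brN hp j.2
  val_p s q := UGn.op_sq_mem_p hP

end

end Pool.Agent.Unif
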