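import Pool.Agent.Work.MP_c629c8_al.Mod.NodeQ
import Pool.Agent.Work.MP_c629c8_al.Mod.NCQ
import Pool.Agent.Work.MP_c629c8_al.Mod.UBrIs
import Pool.Agent.Work.MP_c629c8_al.Unif.Solve

/-!
# A model of ZFC in which all quotients of the group of an uncountable set of branches are complete
-/

set_option linter.unusedSectionVars false

namespace Pool.Agent.Unif

open Pool.Agent.SigB Pool.Agent.Frc Pool.Agent.Forc Pool.Agent.GPA Cardinal
open Pool.Agent.Work.MP_c629c8_al

/-! ### Well-foundedness of the extension -/

section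

variable {Q : Type} [PartialOrder Q] [OrderTop Q] [Cod Q] {M N : Type 1} [Membership M M]
  [IsZFC M] [Membership N N] [IsZFC N] (g : PGn Q M N)

include g in
theorem PGn.countable : Countable N := by
  have : Countable M := g.sub.cnt
  exact g.ex.surj.countable

include g in
theorem PGn.wf : WellFounded (fun x y : N => x ∈ y) := by
  have hV : WellFounded (Relation.TransGen fun x y : V => x ∈ y) :=
    ZFSet.mem_wf.transGen
  have key : ∀ (a : V) (x : M), g.j x = a → Acc (fun x y : N => x ∈ y) (g.val x) := by
    intro a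
    induction a using hV.induction with
    | _ a ih =>
    rintro x rfl
    constructor
    intro z hz
    obtain ⟨y, q, hy, -, rfl⟩ := g.ex.mem_val.1 hz
    refine ih (g.j y) ?_ y rfl
    have h1 : SigB.op (g.j y) (g.j q) ∈ g.j x := by
      rw [← g.sub.op]
      exact g.sub.mem.2 hy
    have h2 : g.j y ∈ SigB.pr (g.j y) (g.j y) := mem_pr.2 (Or.inl rfl)
    have h3 : SigB.pr (g.j y) (g.j y) ∈ SigB.op (g.j y) (g.j q) := mem_pr.2 (Or.inl rfl)
    have h4 : Relation.TransGen (fun x y : V => x ∈ y) (g.j y) (SigB.pr (g.j y) (g.j y)) :=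
      Relation.TransGen.single h2
    exact (h4.tail h3).tail h1
  refine ⟨fun z => ?_⟩
  obtain ⟨x, rfl⟩ := g.ex.surj z
  exact key _ x rfl

end

/-! ### The prime numbers of the nodes -/

/-- The prime number of a finite sequence. -/
noncomputable def pn (s : List ℕ) : ℕ := Nat.nth Nat.Prime (Encodable.encode s)

theorem pn_prime (s : List ℕ) : (pn s).Prime := Nat.prime_nth_prime _

theorem pn_inj : Function.Injective pn := by
  intro s t h
  exact Encodable.encode_injective (Nat.nth_injective Nat.infinite_setOfPred_prime h)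

/-- There is a countable well-founded model of ZFC in which all quotients by closed subgroups of the
group of some uncountable set of branches are complete. -/
theorem exists_model : ∃ (N : Type 1) (_ : Membership N N), Countable N ∧
    WellFounded (fun x y : N => x ∈ y) ∧ IsZFC N ∧ CompleteQuotients N := by
  let I : Type := (ℵ₁ : Cardinal.{0}).out
  have hI : #I = ℵ₁ := Cardinal.mk_out _
  obtain ⟨F⟩ := exists_uframe (rbd pn) I hI
  let _ : Cod I := Cod.any I
  let L : List V := parBr F ++ parCnt hI.ge ++ parP pn ++ parNu F ++ parGood F.Q I (rbd pn)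
  obtain ⟨M, N, i1, i2, i3, i4, g, hg⟩ := exists_pgn F.Q (A := {a | a ∈ L})
    (List.finite_toSet L).countable
  have hL : ∀ l : List V, (∀ a ∈ l, a ∈ L) → g.Has l := fun l hl a ha => hg a (hl a ha)
  have h1 : g.Has (parBr F) := hL _ fun a ha => by simp [L, ha]
  have h2 : g.Has (parCnt hI.ge) := hL _ fun a ha => by simp [L, ha]
  have h3 : g.Has (parP pn) := hL _ fun a ha => by simp [L, ha]
  have h4 : g.Has (parNu F) := hL _ fun a ha => by simp [L, ha]
  have h5 : g.Has (parGood F.Q I (rbd pn)) := hL _ fun a ha => by simp [L, ha]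
  have R := UGn.rd h1 hI.ge h2 h3 pn_inj pn_prime
  refine ⟨N, i3, g.countable, g.wf, i4, UGn.D g pn, R.is, fun H a hH ha => ?_⟩
  obtain ⟨n, n1, -, hn1, hu⟩ := UGn.exists_nodes h1 h4 h5 R hH ha
  exact R.exists_limit hH ha hn1 hu

end Pool.Agent.Unif
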