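import Pool.Agent.Work.MP_c629c8_al.Mod.NNeg
import Pool.Agent.WfM.Base
import Pool.Agent.Forc.Hess

/-!
# A model in which the quotients are not all complete
-/

universe u

set_option linter.unusedSectionVars false

namespace Pool.Agent.Unif

open Pool.Agent.SigB Pool.Agent.Forc Pool.Agent.GPA

/-- GCH implies CH. -/
theorem ch_of_gch {N : Type u} [Membership N N] [IsZFC N] (h : GCH N) : CH N := by
  intro o w p ho hw hp
  rw [isOmega_iff] at ho
  subst ho
  obtain ⟨h1, h2, h3⟩ := isOmegaOne_iff.1 hw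
  have h4 : IsInfCardinal (om : N) :=
    isInfCardinal_iff.2 ⟨isCardinal_iff.2 ⟨om_ord, fun a ha h => not_le_om ha h⟩, Sb.refl _⟩
  have h5 : IsCardinal w := isCardinal_iff.2 ⟨h1, fun a ha h => h2 (h.trans (h3 a ha))⟩
  have h6 : (om : N) ∈ w := by
    rcases om_ord.tri h1 with h7 | h7 | h7
    · exact h7
    · rw [← h7] at h2
      exact (h2 (Le.refl _)).elim
    · exact (h2 (Le.of_sb (om_ord.sb h7))).elim
  exact h om w p h4 h5 h6 hp

theorem num_eq_nt {N : Type 1} [Membership N N] [IsZFC N] (n : ℕ) : (WfM.num n : N) = nt N n := by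
  induction n with
  | zero => rfl
  | succ n ih =>
    rw [WfM.num_succ, ih]
    rfl

/-- The natural numbers of a well-founded model are standard. -/
theorem om_of_wfm {N : Type 1} [Membership N N] [IsZFC N] (h : WfM.Wfm N) : Om N := by
  intro x hx
  obtain ⟨n, rfl⟩ := (WfM.mem_om_iff h).1 hx
  exact ⟨n, num_eq_nt n⟩

/-- There is a countable well-founded model of ZFC and GCH in which `CompleteQuotients` is
false. -/
theorem exists_not_completeQuotients :
    ∃ (N : Type 1) (_ : Membership N N) (_ : IsZFC N), Countable N ∧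
      (WellFounded fun x y : N => x ∈ y) ∧ GCH N ∧ ¬ CompleteQuotients N := by
  obtain ⟨N, hN, hz, hc, hw, hL⟩ := WfM.exists_wfL.{0}
  have hG : GCH N := GL.gch_of_allL hL
  exact ⟨N, hN, hz, hc, hw, hG, not_completeQuotients_of_CH (om_of_wfm hw) (ch_of_gch hG)⟩

end Pool.Agent.Unif
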