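import Pool.Agent.Work.MP_c629c8_al.Mod.Defs

/-!
# Completeness of the quotients of the group of a set of branches, in a structure `(M, ∈)`

The files `Pool.Agent.SigB.Defs`, `Pool.Agent.Forc.Defs`, `Pool.Agent.GPA.PolDefs` and
`Pool.Agent.Work.MP_c629c8_al.Mod.Defs` have: `IsSub`, `IsOrdPair`, `Val`, `IsMap`, `IsInjection`,
`IsOmega`, `IsFinite`, `IsCountable`, `Val2`, `IsZero`, `IsAdd`, `IsMul`, `IsPrime`.
-/

universe u

namespace Pool.Agent.Unif

open Pool.Agent.SigB Pool.Agent.Forc Pool.Agent.GPA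

/-- The set `o = ω`, the addition `ad` and the multiplication `mu` of natural numbers, the set `T`
of the finite sequences of natural numbers, a function `p` on `T` and a set `B`. -/
structure Br (M : Type u) where
  (o ad mu T p B : M)

variable {M : Type u} [Membership M M]

/-- `B` is an uncountable set of functions from `ω` to `ω`, and `p` is an injective function from
the set `T` of the finite sequences of natural numbers to the set of prime numbers. -/
structure Br.Is (D : Br M) : Prop where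
  omega : IsOmega D.o
  add : IsAdd D.ad D.o
  mul : IsMul D.mu D.ad D.o
  seq : ∀ r, r ∈ D.T ↔ ∃ k, k ∈ D.o ∧ IsMap r k D.o
  inj : IsInjection D.p D.T D.o
  prime : ∀ r q, Val D.p r q → IsPrime q D.mu D.o
  branch : ∀ b, b ∈ D.B → IsMap b D.o D.o
  uncountable : ¬ IsCountable D.B

/-- `x` belongs to the group `G`, the product over all `b ∈ B` of the direct sums of the groups
`ℤ/p(r)` over the finite sequences `r ⊆ b`: `x` is a function defined at the pairs `(b, r)` with
`b ∈ B`, `r ∈ T` and `r ⊆ b`, the value `x(b, r)` belongs to `p(r) = {0, …, p(r) - 1}`, and for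
every `b ∈ B` there is `m ∈ ω` such that `x(b, r) = 0` for all `r` of length at least `m`. -/
structure Br.IsElt (D : Br M) (x : M) : Prop where
  mem : ∀ z, z ∈ x → ∃ b r w i q, b ∈ D.B ∧ r ∈ D.T ∧ IsSub r b ∧ IsOrdPair w b r ∧
    IsOrdPair z w i ∧ Val D.p r q ∧ i ∈ q
  val : ∀ b r, b ∈ D.B → r ∈ D.T → IsSub r b → ∃! i, Val2 x b r i
  fin : ∀ b, b ∈ D.B → ∃ m, m ∈ D.o ∧ ∀ r k z, k ∈ D.o → IsMap r k D.o → IsSub m k →
    IsSub r b → IsZero z → Val2 x b r z

/-- `x(b, r) = y(b, r) + z(b, r)` in `ℤ/p(r)` for all `r ⊆ b`. -/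
def Br.SumAt (D : Br M) (b x y z : M) : Prop :=
  ∀ r q i j k, Val D.p r q → Val2 x b r i → Val2 y b r j → Val2 z b r k →
    ∃ s, Val2 D.ad j k s ∧ (s = i ∨ Val2 D.ad i q s)

/-- `x(b, r) = y(b, r)` for all `r ⊆ b`. -/
def AgreeAt (b x y : M) : Prop := ∀ r i, Val2 x b r i ↔ Val2 y b r i

/-- `H` is a subgroup of `G` which is closed in the product topology (the direct sums are
discrete). -/
structure Br.IsClosedSubgroup (D : Br M) (H : M) : Prop where
  elt : ∀ x, x ∈ H → D.IsElt x
  nonempty : ∃ x, x ∈ H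
  sub : ∀ x y z, x ∈ H → y ∈ H → D.IsElt z → (∀ b, b ∈ D.B → D.SumAt b x y z) → z ∈ H
  closed : ∀ x, D.IsElt x → (∀ F, IsFinite F → IsSub F D.B →
    ∃ h, h ∈ H ∧ ∀ b, b ∈ F → AgreeAt b x h) → x ∈ H

/-- `a` is a function from the set of the finite subsets `F` of `B` to `G` such that the classes of
the `a(F)` are a Cauchy net in `G/H`: if `F ⊆ F'` then `a(F')` and `a(F) + h` agree at all `b ∈ F`
for some `h ∈ H`. (Every Cauchy net in `G/H` is equivalent to a net of this form.) -/
structure Br.IsCauchy (D : Br M) (H a : M) : Prop where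
  dom : ∀ F x, Val a F x → IsFinite F ∧ IsSub F D.B
  elt : ∀ F x, Val a F x → D.IsElt x
  val : ∀ F, IsFinite F → IsSub F D.B → ∃! x, Val a F x
  coh : ∀ F F' x x', Val a F x → Val a F' x' → IsSub F F' →
    ∃ h, h ∈ H ∧ ∀ b, b ∈ F → D.SumAt b x' x h

variable (M) in
/-- There are an uncountable set `B` of functions from `ω` to `ω` and an injective function `p` from
the set of the finite sequences of natural numbers to the set of prime numbers such that for every
closed subgroup `H` of the product over all `b ∈ B` of the direct sums of the groups `ℤ/p(r)`,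
`r ⊆ b`, the quotient `G/H` is complete. -/
def CompleteQuotients : Prop :=
  ∃ D : Br M, D.Is ∧ ∀ H a, D.IsClosedSubgroup H → D.IsCauchy H a →
    ∃ y, D.IsElt y ∧ ∀ F x, Val a F x → ∃ h, h ∈ H ∧ ∀ b, b ∈ F → D.SumAt b y x h

end Pool.Agent.Unif
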