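import Pool.Agent.Sep.Fin
import Pool.Agent.Frc.Tools

/-!
# Extension of good partial functions to total ones, in a model

If a definable class of partial functions of finite character is such that every good partial
function can be extended to a further point with a value in a fixed set, then there is a good total
function.
-/

universe u

set_option linter.unusedSectionVars false

namespace Pool.Agent.Unif

open Pool.Agent.SigB Pool.Agent.Forc Pool.Agent.Frc
open Pool.Agent.Sep (Fte ins mem_ins fte_ind)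

variable {M : Type u} [Membership M M] [IsZFC M]

namespace Cpt

/-- The partial function `{(e y, h y) : y ∈ x}`. -/
noncomputable def Pt (e x h : M) : M := im x fun y => op (ap e y) (ap h y)

theorem Pt.dt (e : M) : DT (fun w : Fin 2 → M => Pt e (w 0) (w 1)) :=
  dt_im (F := fun (w : Fin 2 → M) y => op (ap e y) (ap (w 1) y)) (DT.var 0)
    (dt_op (dt_ap (DT.const e) (DT.var 0)) (dt_ap (DT.var 2) (DT.var 0)))

theorem mem_Pt {e x h z : M} : z ∈ Pt e x h ↔ ∃ y, y ∈ x ∧ z = op (ap e y) (ap h y) := by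
  unfold Pt
  exact mem_im (by simp (maxDischargeDepth := 50))

theorem Pt.mono {e x y h : M} (hxy : Sb x y) : Sb (Pt e x h) (Pt e y h) := fun z hz => by
  obtain ⟨w, hw, rfl⟩ := mem_Pt.1 hz
  exact mem_Pt.2 ⟨w, hxy w hw, rfl⟩

theorem Pt.congr {e x h h' : M} (hh : ∀ y, y ∈ x → ap h y = ap h' y) : Pt e x h = Pt e x h' :=
  ext' fun z => by
    rw [mem_Pt, mem_Pt]
    constructor
    · rintro ⟨y, hy, rfl⟩
      exact ⟨y, hy, by rw [hh y hy]⟩
    · rintro ⟨y, hy, rfl⟩
      exact ⟨y, hy, by rw [hh y hy]⟩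

/-- The domain. -/
noncomputable def Dn (e x : M) : M := im x (ap e)

theorem mem_Dn {e x z : M} : z ∈ Dn e x ↔ ∃ y, y ∈ x ∧ z = ap e y := by
  unfold Dn
  exact mem_im (by simp (maxDischargeDepth := 50))

theorem Pt.sc {e x h : M} : Pt e (sc x) h = ins (Pt e x h) (op (ap e x) (ap h x)) :=
  ext' fun z => by
    rw [mem_Pt, mem_ins, mem_Pt]
    constructor
    · rintro ⟨y, hy, rfl⟩
      rcases mem_sc.1 hy with hy | rfl
      · exact Or.inl ⟨y, hy, rfl⟩
      · exact Or.inr rfl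
    · rintro (⟨y, hy, rfl⟩ | rfl)
      · exact ⟨y, mem_sc.2 (Or.inl hy), rfl⟩
      · exact ⟨x, mem_sc_self x, rfl⟩

section

variable {X κ e : M} (he : Bij e κ X)

include he

theorem op_mem_Pt {x h y v : M} (hx : Sb x κ) (hy : y ∈ x) :
    op (ap e y) v ∈ Pt e x h ↔ v = ap h y := by
  rw [mem_Pt]
  constructor
  · rintro ⟨w, hw, h1⟩
    obtain ⟨h2, rfl⟩ := op_inj.1 h1
    rw [he.2.1 _ (hx _ hy) _ (hx _ hw) h2]
  · rintro rfl
    exact ⟨y, hy, rfl⟩

theorem fn_Pt {x h : M} (hx : Sb x κ) : Fn (Pt e x h) (Dn e x) := by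
  constructor
  · intro z hz
    obtain ⟨y, hy, rfl⟩ := mem_Pt.1 hz
    exact ⟨ap e y, mem_Dn.2 ⟨y, hy, rfl⟩, _, rfl⟩
  · intro d hd
    obtain ⟨y, hy, rfl⟩ := mem_Dn.1 hd
    exact ⟨ap h y, (op_mem_Pt he hx hy).2 rfl, fun v hv => (op_mem_Pt he hx hy).1 hv⟩

theorem ap_Pt {x h y : M} (hx : Sb x κ) (hy : y ∈ x) : ap (Pt e x h) (ap e y) = ap h y :=
  ap_eq ((op_mem_Pt he hx hy).2 rfl) fun _ hv => (op_mem_Pt he hx hy).1 hv

theorem Dn_sb {x : M} (hx : Sb x κ) : Sb (Dn e x) X := fun z hz => by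
  obtain ⟨y, hy, rfl⟩ := mem_Dn.1 hz
  exact (mem_fs.1 he.1).2 y (hx y hy)

theorem not_mem_Dn (hκ : Ord κ) {x : M} (hx : x ∈ κ) : ap e x ∉ Dn e x := fun h => by
  obtain ⟨y, hy, h1⟩ := mem_Dn.1 h
  have h2 := he.2.1 x hx y (hκ.trans hy hx) h1
  rw [h2] at hy
  exact not_mem_self _ hy

theorem Dn_eq : Dn e κ = X := ext' fun z => by
  rw [mem_Dn]
  constructor
  · rintro ⟨y, hy, rfl⟩
    exact (mem_fs.1 he.1).2 y hy
  · intro hz
    obtain ⟨y, hy, rfl⟩ := he.2.2 z hz
    exact ⟨y, hy, rfl⟩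

end

/-- A finite subset of the partial function at `x` is a subset of the partial function at the
successor of an element of `x`. -/
theorem fte_Pt {e x h g : M} (hx : Ord x) (hg : Fte g) (hs : Sb g (Pt e x h)) :
    g = SigB.em ∨ ∃ m, m ∈ x ∧ Sb g (Pt e (sc m) h) := by
  have hPt : ∀ {n : ℕ} {s t : (Fin n → M) → M}, DT s → DT t → DT fun v => Pt e (s v) (t v) :=
    fun hs ht => dt2 (Pt.dt e) hs ht
  refine fte_ind (P := fun g => Sb g (Pt e x h) → g = SigB.em ∨ ∃ m, m ∈ x ∧ Sb g (Pt e (sc m) h))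
    (by simp (maxDischargeDepth := 50) [hPt]) (fun _ => Or.inl rfl) ?_ hg hs
  intro g z _ _ ih hs
  obtain ⟨y, hy, rfl⟩ := mem_Pt.1 (hs z (mem_ins.2 (Or.inr rfl)))
  have hz : ∀ m, y ∈ sc m → op (ap e y) (ap h y) ∈ Pt e (sc m) h := fun m hm =>
    mem_Pt.2 ⟨y, hm, rfl⟩
  rcases ih fun w hw => hs w (mem_ins.2 (Or.inl hw)) with rfl | ⟨m, hm, h1⟩
  · refine Or.inr ⟨y, hy, fun w hw => ?_⟩
    rcases mem_ins.1 hw with hw | rfl
    · exact (not_mem_em _ hw).elim
    · exact hz y (mem_sc_self y)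
  · rcases (hx.mem hm).tri (hx.mem hy) with h2 | h2 | h2
    · refine Or.inr ⟨y, hy, fun w hw => ?_⟩
      rcases mem_ins.1 hw with hw | rfl
      · refine Pt.mono (fun a ha => ?_) _ (h1 w hw)
        rcases mem_sc.1 ha with ha | rfl
        · exact mem_sc.2 (Or.inl ((hx.mem hy).trans ha h2))
        · exact mem_sc.2 (Or.inl h2)
      · exact hz y (mem_sc_self y)
    · refine Or.inr ⟨m, hm, fun w hw => ?_⟩
      rcases mem_ins.1 hw with hw | rfl
      · exact h1 w hw
      · exact hz m (by rw [h2]; exact mem_sc_self y)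
    · refine Or.inr ⟨m, hm, fun w hw => ?_⟩
      rcases mem_ins.1 hw with hw | rfl
      · exact h1 w hw
      · exact hz m (mem_sc.2 (Or.inl h2))

end Cpt

open Cpt

/-- **Good partial functions extend to good total functions**: `Gd` is a definable class such that a
partial function from `X` is good if its finite subsets are good, and every good partial function
can be extended to a further element of `X` with a value in `Q`. -/
theorem exists_total {X Q : M} {Gd : M → Prop} (hD : Dfn fun v : Fin 1 → M => Gd (v 0))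
    (h0 : Gd SigB.em)
    (hmono : ∀ f D, Sb D X → Fn f D → Gd f → ∀ g, Sb g f → Fte g → Gd g)
    (hfin : ∀ f D, Sb D X → Fn f D → (∀ g, Sb g f → Fte g → Gd g) → Gd f)
    (hext : ∀ f D, Sb D X → Fn f D → Gd f → ∀ x, x ∈ X → x ∉ D →
      ∃ v, v ∈ Q ∧ Gd (ins f (op x v))) :
    ∃ f, Fn f X ∧ Gd f ∧ ∀ x, x ∈ X → ap f x ∈ Q := by
  have hD' : ∀ {n : ℕ} {s : (Fin n → M) → M}, DT s → Dfn fun v => Gd (s v) :=
    fun hs => dfn1 hD hs
  obtain ⟨κ, e, hκ, he⟩ := exists_bij_ord X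
  -- a choice function on the nonempty subsets of `Q`
  obtain ⟨c, hc, hcv⟩ := choice' (a := df (pw Q) (pr SigB.em SigB.em)) (b := Q)
    (P := fun x y => y ∈ x) (by simp (maxDischargeDepth := 50)) (by
      intro x hx
      rw [mem_df, mem_pw, mem_pr] at hx
      by_contra h
      push Not at h
      refine hx.2 (Or.inl (ext' fun z => ⟨fun hz => ?_, fun hz => (not_mem_em z hz).elim⟩))
      exact (h z (hx.1 z hz) hz).elim)
  have hcv' : ∀ S, Sb S Q → S ≠ SigB.em → ap c S ∈ S := by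
    intro S hS hne
    refine hcv S ?_
    rw [mem_df, mem_pw, mem_pr]
    exact ⟨hS, by rintro (h | h) <;> exact hne h⟩
  have hPt : ∀ {n : ℕ} {s t : (Fin n → M) → M}, DT s → DT t → DT fun v => Pt e (s v) (t v) :=
    fun hs ht => dt2 (Pt.dt e) hs ht
  -- the set of the possible values
  let V : M → M → M := fun x h => sp Q fun v => Gd (ins (Pt e x h) (op (ap e x) v))
  have hV : DT (fun w : Fin 2 → M => V (w 0) (w 1)) := by
    refine dt_sp (P := fun (w : Fin 2 → M) v => Gd (ins (Pt e (w 0) (w 1)) (op (ap e (w 0)) v)))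
      (DT.const Q) ?_
    simp (maxDischargeDepth := 50) [hD', hPt]
  have hmV : ∀ x h v, v ∈ V x h ↔ v ∈ Q ∧ Gd (ins (Pt e x h) (op (ap e x) v)) := by
    intro x h v
    exact mem_sp (by simp (maxDischargeDepth := 50) [hD', hPt])
  let G : M → M → M := fun x h => ap c (V x h)
  have hG : DT (fun w : Fin 2 → M => G (w 0) (w 1)) := dt_ap (DT.const c) hV
  obtain ⟨f, hf, hfr⟩ := ord_recursion hκ hG
  have hstep : ∀ x, x ∈ κ → Gd (Pt e x f) → ap f x ∈ Q ∧ Gd (Pt e (sc x) f) := by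
    intro x hx hg
    have hxs := hκ.sb hx
    have h1 : Pt e x (rs f x) = Pt e x f := Pt.congr fun y hy => ap_rs hf hxs hy
    have h2 : V x (rs f x) ≠ SigB.em := by
      intro h3
      obtain ⟨v, hvQ, hv⟩ := hext _ _ (Dn_sb he hxs) (fn_Pt he (h := f) hxs) hg (ap e x)
        ((mem_fs.1 he.1).2 x hx) (not_mem_Dn he hκ hx)
      have h4 : v ∈ V x (rs f x) := (hmV _ _ _).2 ⟨hvQ, by rw [h1]; exact hv⟩
      rw [h3] at h4
      exact not_mem_em _ h4
    have h3 : ap f x ∈ V x (rs f x) := by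
      rw [hfr x hx]
      exact hcv' _ (fun v hv => ((hmV _ _ _).1 hv).1) h2
    obtain ⟨h4, h5⟩ := (hmV _ _ _).1 h3
    rw [h1] at h5
    refine ⟨h4, ?_⟩
    rw [Pt.sc]
    exact h5
  have hOs := ord_sc hκ
  have key : ∀ x, x ∈ sc κ → Gd (Pt e x f) := by
    refine hOs.ind (P := fun x => Gd (Pt e x f)) (by simp (maxDischargeDepth := 50) [hD', hPt]) ?_
    intro x hx ih
    have hxs : Sb x κ := by
      rcases mem_sc.1 hx with h | rfl
      · exact hκ.sb h
      · exact Sb.refl _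
    refine hfin _ _ (Dn_sb he hxs) (fn_Pt he hxs) fun g hg hgf => ?_
    rcases fte_Pt (hOs.mem hx) hgf hg with rfl | ⟨m, hm, h1⟩
    · exact h0
    · have hmκ := hxs m hm
      have h2 := (hstep m hmκ (ih m hm)).2
      have hsm : Sb (sc m) κ := (Ord.sc_sb_iff hκ).2 hmκ
      exact hmono _ _ (Dn_sb he hsm) (fn_Pt he hsm) h2 g h1 hgf
  refine ⟨Pt e κ f, ?_, key κ (mem_sc_self κ), fun x hx => ?_⟩
  · have := fn_Pt he (h := f) (Sb.refl κ)
    rwa [Dn_eq he] at this
  · obtain ⟨y, hy, rfl⟩ := he.2.2 x hx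
    rw [ap_Pt he (Sb.refl κ) hy]
    exact (hstep y hy (key y (mem_sc.2 (Or.inl hy)))).1

end Pool.Agent.Unif
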