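import Pool.Agent.GPA.PolDefs

/-!
# Uniformisation along branches, evaluated in a structure `(M, ∈)`

The files `Pool.Agent.SigB.Defs`, `Pool.Agent.Forc.Defs` and `Pool.Agent.GPA.PolDefs` have:
`IsSub`, `Val`, `IsMap`, `IsInjection`, `IsOmega`, `IsCountable`, `IsSucc`, `IsMap2`, `Val2`.
-/

universe u

namespace Pool.Agent.Unif

open Pool.Agent.SigB Pool.Agent.Forc Pool.Agent.GPA

variable {M : Type u} [Membership M M]

/-- `z = 0`. -/
def IsZero (z : M) : Prop := ∀ w, w ∉ z

/-- `ad` is the addition of natural numbers, where `o = ω`. -/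
structure IsAdd (ad o : M) : Prop where
  map : IsMap2 ad o o o
  zero : ∀ m z, m ∈ o → IsZero z → Val2 ad m z m
  succ : ∀ m n k n' k', Val2 ad m n k → IsSucc n' n → IsSucc k' k → Val2 ad m n' k'

/-- `mu` is the multiplication of natural numbers, where `o = ω` and `ad` is the addition. -/
structure IsMul (mu ad o : M) : Prop where
  map : IsMap2 mu o o o
  zero : ∀ m z, m ∈ o → IsZero z → Val2 mu m z z
  succ : ∀ m n k n' l, Val2 mu m n k → IsSucc n' n → Val2 ad k m l → Val2 mu m n' l

/-- `q` is a prime number, where `o = ω` and `mu` is the multiplication. -/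
def IsPrime (q mu o : M) : Prop :=
  q ∈ o ∧ (∃ z e, IsZero z ∧ IsSucc e z ∧ e ∈ q) ∧ ∀ a b, Val2 mu a b q → a = q ∨ b = q

/-- `i - j + k ≡ l` modulo `q`, for `i, j, k, l < q`. -/
def IsShift (ad q i j k l : M) : Prop :=
  ∃ s t, Val2 ad i k s ∧ Val2 ad j l t ∧ (s = t ∨ Val2 ad s q t ∨ Val2 ad t q s)

/-- `C` is the set of the elements of `B` which extend `r`. -/
def IsCone (C B r : M) : Prop := ∀ b, b ∈ C ↔ b ∈ B ∧ IsSub r b

/-- `A` is a set of pairs `(r, g)` such that, for every `r ∈ T`, the set `A_r` of the functions `g`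
with `(r, g) ∈ A` is a coset of a group of functions from the set of the `b ∈ B` extending `r` to
the integers modulo `p r`, and for every `b ∈ B` which extends `r` some element of `A_r` has the
value `0` at `b`. The integers modulo `q` are the elements of `q = {0, …, q - 1}`. -/
structure IsSystem (A ad T p B : M) : Prop where
  map : ∀ r g, Val A r g → r ∈ T ∧ ∀ C q, IsCone C B r → Val p r q → IsMap g C q
  nonempty : ∀ r, r ∈ T → ∃ g, Val A r g
  coset : ∀ r q C x y z w, IsCone C B r → Val p r q → Val A r x → Val A r y → Val A r z →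
    IsMap w C q → (∀ b i j k l, Val x b i → Val y b j → Val z b k → Val w b l →
      IsShift ad q i j k l) → Val A r w
  point : ∀ r b z, r ∈ T → b ∈ B → IsSub r b → IsZero z → ∃ g, Val A r g ∧ Val g b z

/-- The function `n` from `B` to `ω` uniformises `A`: for every `r ∈ T` and every finite set of
elements `b` of `B` which extend `r` and for which `n b` is at most the length of `r`, some element
of `A_r` has the value `0` at all of them. (The finite set is given by a sequence `e` of finite
length `l`, and `k` is the length of `r`.) -/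
def Uniformises (n A o T B : M) : Prop :=
  IsMap n B o ∧ ∀ r k l e, r ∈ T → k ∈ o → IsMap r k o → l ∈ o → IsMap e l B →
    (∀ i b m, Val e i b → Val n b m → IsSub r b ∧ IsSub m k) →
    ∃ g, Val A r g ∧ ∀ i b z, Val e i b → IsZero z → Val g b z

variable (M) in
/-- Uniformisation along branches: there are an uncountable set `B` of functions from `ω` to `ω` and
an injective map `p` from the set `T` of the finite sequences of natural numbers to the set of prime
numbers such that for every system `A` of cosets as above there is a function from `B` to `ω` which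
uniformises `A`. -/
def BranchUnif : Prop :=
  ∃ o ad mu T p B : M, IsOmega o ∧ IsAdd ad o ∧ IsMul mu ad o ∧
    (∀ r, r ∈ T ↔ ∃ k, k ∈ o ∧ IsMap r k o) ∧ IsInjection p T o ∧
    (∀ r q, Val p r q → IsPrime q mu o) ∧ (∀ b, b ∈ B → IsMap b o o) ∧ ¬ IsCountable B ∧
    ∀ A, IsSystem A ad T p B → ∃ n, Uniformises n A o T B

end Pool.Agent.Unif
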