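import Pool.Agent.Work.MP_c629c8_al.Mod.NDefs
import Pool.Agent.Sep.Fin
import Pool.Agent.GPA.MNat
import Pool.Agent.Frc.Tools

/-!
# The finite subsets of `B` in a model with standard natural numbers

`fc bc E` is the element of the model whose elements are the `bc j`, `j ∈ E`.
-/

set_option linter.unusedSectionVars false

namespace Pool.Agent.Unif

open Pool.Agent.SigB Pool.Agent.Frc Pool.Agent.Forc Pool.Agent.GPA

variable {K : Type 1} [Membership K K] [IsZFC K] {J : Type*}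

/-- The finite set of the `bc j`, `j ∈ E`, in `K`. -/
noncomputable def fc (bc : J → K) (E : Finset J) : K := fin (E.toList.map bc)

theorem mem_fc {bc : J → K} {E : Finset J} {b : K} : b ∈ fc bc E ↔ ∃ j ∈ E, b = bc j := by
  unfold fc
  rw [mem_fin, List.mem_map]
  constructor
  · rintro ⟨j, hj, rfl⟩
    exact ⟨j, Finset.mem_toList.1 hj, rfl⟩
  · rintro ⟨j, hj, rfl⟩
    exact ⟨j, Finset.mem_toList.2 hj, rfl⟩

theorem mem_fc_iff {bc : J → K} (hbc : Function.Injective bc) {E : Finset J} {j : J} :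
    bc j ∈ fc bc E ↔ j ∈ E := by
  rw [mem_fc]
  constructor
  · rintro ⟨i, hi, h⟩
    rwa [hbc h]
  · intro h
    exact ⟨j, h, rfl⟩

theorem sb_fc {bc : J → K} (hbc : Function.Injective bc) {E E' : Finset J} :
    Sb (fc bc E) (fc bc E') ↔ E ⊆ E' := by
  constructor
  · intro h j hj
    exact (mem_fc_iff hbc).1 (h _ ((mem_fc_iff hbc).2 hj))
  · intro h b hb
    obtain ⟨j, hj, rfl⟩ := mem_fc.1 hb
    exact mem_fc.2 ⟨j, h hj, rfl⟩

theorem fc_inj {bc : J → K} (hbc : Function.Injective bc) {E E' : Finset J}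
    (h : fc bc E = fc bc E') : E = E' :=
  Finset.Subset.antisymm ((sb_fc (K := K) hbc).1 (by rw [h]; exact Sb.refl _))
    ((sb_fc (K := K) hbc).1 (by rw [h]; exact Sb.refl _))

theorem fc_empty (bc : J → K) : fc bc ∅ = SigB.em :=
  ext' fun x => ⟨fun hx => by
    obtain ⟨j, hj, -⟩ := mem_fc.1 hx
    simp at hj, fun hx => (not_mem_em _ hx).elim⟩

theorem fc_singleton (bc : J → K) (j : J) : fc bc {j} = SigB.pr (bc j) (bc j) :=
  ext' fun x => by
    rw [mem_fc, mem_pr, or_self]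
    simp

theorem fc_insert [DecidableEq J] (bc : J → K) (j : J) (E : Finset J) :
    fc bc (insert j E) = Sep.ins (fc bc E) (bc j) :=
  ext' fun x => by
    rw [mem_fc, Sep.mem_ins, mem_fc]
    constructor
    · rintro ⟨i, hi, rfl⟩
      rcases Finset.mem_insert.1 hi with rfl | hi
      · exact Or.inr rfl
      · exact Or.inl ⟨i, hi, rfl⟩
    · rintro (⟨i, hi, rfl⟩ | rfl)
      · exact ⟨i, Finset.mem_insert_of_mem hi, rfl⟩
      · exact ⟨j, Finset.mem_insert_self _ _, rfl⟩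

theorem fc_union [DecidableEq J] (bc : J → K) (E E' : Finset J) :
    fc bc (E ∪ E') = SigB.un (fc bc E) (fc bc E') :=
  ext' fun x => by
    rw [mem_fc, mem_un, mem_fc, mem_fc]
    constructor
    · rintro ⟨i, hi, rfl⟩
      rcases Finset.mem_union.1 hi with hi | hi
      · exact Or.inl ⟨i, hi, rfl⟩
      · exact Or.inr ⟨i, hi, rfl⟩
    · rintro (⟨i, hi, rfl⟩ | ⟨i, hi, rfl⟩)
      · exact ⟨i, Finset.mem_union_left _ hi, rfl⟩
      · exact ⟨i, Finset.mem_union_right _ hi, rfl⟩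

theorem fte_fin (l : List K) : Sep.Fte (fin l) := by
  induction l with
  | nil => exact Sep.fte_em
  | cons a l ih => exact (Sep.fte_single a).un ih

theorem isFinite_fin (l : List K) : IsFinite (fin l) := isFinite_iff.2 (fte_fin l)

theorem isFinite_fc (bc : J → K) (E : Finset J) : IsFinite (fc bc E) := isFinite_fin _

theorem fte_fc (bc : J → K) (E : Finset J) : Sep.Fte (fc bc E) := fte_fin _

/-- In a model with standard natural numbers a finite set has finitely many elements. -/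
theorem finite_of_isFinite (hK : Om K) {F : K} (hF : IsFinite F) : {x | x ∈ F}.Finite := by
  obtain ⟨n, hn, f, hf, hfi⟩ := isFinite_iff.1 hF
  obtain ⟨n, rfl⟩ := hK n hn
  have h1 : ∀ x : {x // x ∈ F}, ∃ i : Fin n, ap f x.1 = nt K i := fun x => by
    obtain ⟨i, hi, h⟩ := mem_nt.1 ((mem_fs.1 hf).2 x.1 x.2)
    exact ⟨⟨i, hi⟩, h⟩
  choose φ hφ using h1
  have h2 : Function.Injective φ := fun x y hxy =>
    Subtype.ext (hfi _ _ x.2 y.2 (by rw [hφ, hφ, hxy]))
  have h3 : Finite {x // x ∈ F} := Finite.of_injective φ h2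
  exact h3

/-- The finite subsets of a set with the elements `bc j` are the `fc bc E`. -/
theorem isFinite_iff_fc (hK : Om K) {bc : J → K} {B : K} (hB : ∀ b, b ∈ B ↔ ∃ j, b = bc j)
    {F : K} : (IsFinite F ∧ IsSub F B) ↔ ∃ E, F = fc bc E := by
  classical
  constructor
  · rintro ⟨hF, hs⟩
    have h1 := finite_of_isFinite hK hF
    have h2 : ∀ x : {x // x ∈ F}, ∃ j, x.1 = bc j := fun x => (hB _).1 (hs _ x.2)
    choose φ hφ using h2
    have h3 : (Set.range φ).Finite := by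
      have : Finite {x // x ∈ F} := h1
      exact Set.finite_range φ
    refine ⟨h3.toFinset, ext' fun x => ?_⟩
    rw [mem_fc]
    constructor
    · intro hx
      exact ⟨φ ⟨x, hx⟩, (Set.Finite.mem_toFinset _).2 ⟨⟨x, hx⟩, rfl⟩, hφ ⟨x, hx⟩⟩
    · rintro ⟨j, hj, rfl⟩
      obtain ⟨x, rfl⟩ := (Set.Finite.mem_toFinset _).1 hj
      rw [← hφ x]
      exact x.2
  · rintro ⟨E, rfl⟩
    refine ⟨isFinite_fc bc E, fun b hb => ?_⟩
    obtain ⟨j, -, rfl⟩ := mem_fc.1 hb
    exact (hB _).2 ⟨j, rfl⟩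

theorem exists_fc (hK : Om K) {bc : J → K} {B : K} (hB : ∀ b, b ∈ B ↔ ∃ j, b = bc j)
    {F : K} (hF : IsFinite F) (hs : IsSub F B) : ∃ E, F = fc bc E :=
  (isFinite_iff_fc hK hB).1 ⟨hF, hs⟩

theorem fc_sub {bc : J → K} {B : K} (hB : ∀ b, b ∈ B ↔ ∃ j, b = bc j) (E : Finset J) :
    IsSub (fc bc E) B := fun b hb => by
  obtain ⟨j, -, rfl⟩ := mem_fc.1 hb
  exact (hB _).2 ⟨j, rfl⟩

end Pool.Agent.Unif
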