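import Pool.Agent.Work.MP_c629c8_al.Mod.Ar
import Pool.Agent.Work.MP_c629c8_al.Mod.NDefs
import Pool.Agent.Forc.MSide
import Pool.Agent.Forc.CardB
import Pool.Agent.Frc.CH

/-!
# Cardinals and finite sets in a model, for the failure of completeness under CH
-/

set_option linter.unusedSectionVars false

namespace Pool.Agent.Unif

open Pool.Agent.SigB Pool.Agent.Frc Pool.Agent.Forc Pool.Agent.GPA

variable {K : Type 1} [Membership K K] [IsZFC K]

/-- Under CH the power set of the set of finite sequences injects into the set `B`. -/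
theorem le_pwT (hCH : CH K) {D : Br K} (hD : D.Is) : Le (pw D.T) D.B := by
  have ho : D.o = om := isOmega_iff.1 hD.omega
  have hT : Le D.T om := by
    have h := injects_iff.1 ⟨D.p, hD.inj⟩
    rwa [ho] at h
  have hB : ¬ Le D.B om := fun h => hD.uncountable (isCountable_iff.2 h)
  obtain ⟨κ, hκ, h1, h2⟩ := exists_ord D.B
  obtain ⟨w, hw, hnw, hmin⟩ := Ord.exists_least (P := fun ν => ¬ Le ν (om : K))
    (by simp (maxDischargeDepth := 50)) hκ (fun h => hB (h1.trans h))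
  have hmin' : ∀ x, x ∈ w → Le x (om : K) := fun x hx => by_contra fun h => hmin x hx h
  have hc : Le (pw (om : K)) w := injects_iff.1 (hCH om w (pw om) (isOmega_iff.2 rfl)
    (isOmegaOne_iff.2 ⟨hw, hnw, hmin'⟩) (isPower_iff.2 rfl))
  rcases ch_of_ord hw hmin' hc D.B with h | h
  · exact (hB h).elim
  · exact (Le.pw hT).trans h

/-- The elements of a list form a finite set. -/
theorem isFinite_of_list {l : List K} {a : K} (h : ∀ x, x ∈ a → x ∈ l) : IsFinite a := by
  refine isFinite_iff.2 ⟨nt K l.length, nt_mem_om _, ?_⟩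
  have hmem : ∀ z : K, z ∈ fin (l.zipIdx.map fun p => op (nt K p.2) p.1) ↔
      ∃ (i : ℕ) (h : i < l.length), z = op (nt K i) l[i] := by
    intro z
    rw [mem_fin, List.mem_map]
    constructor
    · rintro ⟨⟨x, i⟩, hx, rfl⟩
      obtain ⟨-, h2, h3⟩ := List.mem_zipIdx hx
      simp only [Nat.zero_add, Nat.sub_zero] at h2 h3
      exact ⟨i, h2, by rw [h3]⟩
    · rintro ⟨i, hi, rfl⟩
      refine ⟨(l[i], i), ?_, rfl⟩
      rw [List.mem_zipIdx_iff_getElem?]
      exact List.getElem?_eq_getElem hi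
  refine le_of_surj (f := fin (l.zipIdx.map fun p => op (nt K p.2) p.1)) fun b hb => ?_
  obtain ⟨i, hi, rfl⟩ := List.mem_iff_getElem.1 (h b hb)
  refine ⟨nt K i, nt_mem_nt.2 hi, ap_eq ((hmem _).2 ⟨i, hi, rfl⟩) fun y hy => ?_⟩
  obtain ⟨j, hj, h2⟩ := (hmem _).1 hy
  obtain ⟨h3, h4⟩ := op_inj.1 h2
  have h5 := nt_inj h3
  subst h5
  exact h4

/-- A pair is finite. -/
theorem isFinite_pr (b b2 : K) : IsFinite (pr b b2) :=
  isFinite_of_list (l := [b, b2]) fun x hx => by
    rcases mem_pr.1 hx with rfl | rfl <;> simp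

/-- In a model with standard natural numbers the finite sets are the sets of elements of
lists. -/
theorem exists_list (hK : Om K) {F : K} (hF : IsFinite F) : ∃ l : List K, ∀ x, x ∈ F ↔ x ∈ l := by
  obtain ⟨n, hn, f, hf, hfi⟩ := isFinite_iff.1 hF
  obtain ⟨n, rfl⟩ := hK n hn
  have h1 : ∀ x : {x // x ∈ F}, ∃ i : Fin n, ap f x.1 = nt K i := fun x => by
    obtain ⟨i, hi, h⟩ := mem_nt.1 ((mem_fs.1 hf).2 x.1 x.2)
    exact ⟨⟨i, hi⟩, h⟩
  choose φ hφ using h1
  have h2 : Function.Injective φ := fun x y hxy =>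
    Subtype.ext (hfi _ _ x.2 y.2 (by rw [hφ, hφ, hxy]))
  have h3 : Finite {x // x ∈ F} := Finite.of_injective φ h2
  have h4 : {x | x ∈ F}.Finite := h3
  refine ⟨h4.toFinset.toList, fun x => ?_⟩
  rw [Finset.mem_toList, Set.Finite.mem_toFinset]
  rfl

/-- The elements of a finite subset of `B` differ below some natural number. -/
theorem exists_split_branch (hK : Om K) {D : Br K} (hD : D.Is) {F : K} (hF : IsFinite F)
    (hFB : Sb F D.B) : ∃ m : ℕ, ∀ b, b ∈ F → ∀ b2, b2 ∈ F → b ≠ b2 →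
      ∀ (k : ℕ) (r : K), r ∈ fs (nt K k) om → Sb r b → Sb r b2 → k < m := by
  classical
  have ho : D.o = om := isOmega_iff.1 hD.omega
  have hB : ∀ b, b ∈ F → b ∈ fs (om : K) om := fun b hb => by
    have h := hD.branch b (hFB b hb)
    rwa [isMap_iff, ho] at h
  have h1 : ∀ b b2 : K, ∃ m : ℕ, b ∈ F → b2 ∈ F → b ≠ b2 →
      ∀ (k : ℕ) (r : K), r ∈ fs (nt K k) om → Sb r b → Sb r b2 → k < m := by
    intro b b2
    by_cases h : b ∈ F ∧ b2 ∈ F ∧ b ≠ b2
    · obtain ⟨hb, hb2, hne⟩ := h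
      have h2 : ∃ i : ℕ, ap b (nt K i) ≠ ap b2 (nt K i) := by
        by_contra hcon
        push Not at hcon
        refine hne ((mem_fs.1 (hB b hb)).1.ext (mem_fs.1 (hB b2 hb2)).1 fun z hz => ?_)
        obtain ⟨i, rfl⟩ := hK z hz
        exact hcon i
      obtain ⟨i, hi⟩ := h2
      refine ⟨i + 1, fun _ _ _ k r hr hrb hrb2 => ?_⟩
      by_contra hk
      push Not at hk
      have h3 : nt K i ∈ nt K k := nt_mem_nt.2 (by omega)
      have h4 : op (nt K i) (ap r (nt K i)) ∈ r := ((mem_fs.1 hr).1.op_mem_iff h3).2 rfl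
      have h5 := ((mem_fs.1 (hB b hb)).1.op_mem_iff (nt_mem_om i)).1 (hrb _ h4)
      have h6 := ((mem_fs.1 (hB b2 hb2)).1.op_mem_iff (nt_mem_om i)).1 (hrb2 _ h4)
      exact hi (h5.trans h6.symm)
    · exact ⟨0, fun h1 h2 h3 => (h ⟨h1, h2, h3⟩).elim⟩
  choose g hg using h1
  obtain ⟨l, hl⟩ := exists_list hK hF
  refine ⟨(l.toFinset ×ˢ l.toFinset).sup (fun q => g q.1 q.2) , fun b hb b2 hb2 hne k r hr hrb
    hrb2 => ?_⟩
  refine lt_of_lt_of_le (hg b b2 hb hb2 hne k r hr hrb hrb2) ?_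
  exact Finset.le_sup (f := fun q : K × K => g q.1 q.2) (b := (b, b2))
    (Finset.mem_product.2 ⟨List.mem_toFinset.2 ((hl b).1 hb), List.mem_toFinset.2 ((hl b2).1 hb2)⟩)

/-- The values of the addition. -/
theorem val2_add {ad : K} (h : IsAdd ad (om : K)) {a b : ℕ} {s : K} :
    Val2 ad (nt K a) (nt K b) s ↔ s = nt K (a + b) := h.val

end Pool.Agent.Unif
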