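import Pool.Agent.Work.MP_c629c8_al.Mod.NDefs
import Pool.Agent.Work.MP_c629c8_al.Mod.NNegE

/-!
# Under CH the quotients of the group of a set of branches are not all complete

Let `e` be an injection of the power set of `T` into `B`, and `x(b, r) = 1` if `b = e(S)` with
`r ∈ S`, and `x(b, r) = 0` otherwise. The restrictions of `x` to the coordinates `(b, r)` with
`r ⊆ b'` for another element `b'` of a finite set `F` give a Cauchy net modulo the subgroup of the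
elements `h` for which `h(b, r)` depends only on `r`. A limit `y` gives the set `S` of the `r` with
`y(b, r) = x(b, r)` for the extensions `b` of `r`, and `b = e(S)` is a contradiction.
-/

set_option linter.unusedSectionVars false

namespace Pool.Agent.Unif

open Pool.Agent.SigB Pool.Agent.Forc Pool.Agent.GPA

variable {K : Type 1} [Membership K K] [IsZFC K]

/-! ### Sets of pairs given by definable relations -/

/-- The function with the value `1` at the pairs `(b, r)`, `r ⊆ b`, for which `P b r` holds, and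
`0` at the others. -/
noncomputable def nMk (D : Br K) (P : K → K → Prop) : K :=
  sp (SigB.pd (SigB.pd D.B D.T) (om : K)) fun z => ∃ b, ∃ r, Sb r b ∧
    ((P b r ∧ z = SigB.op (SigB.op b r) (nt K 1)) ∨
      (¬ P b r ∧ z = SigB.op (SigB.op b r) (nt K 0)))

section

variable {D : Br K} {P : K → K → Prop}

theorem mem_nMk (hP : Dfn fun w : Fin 2 → K => P (w 0) (w 1)) {z : K} :
    z ∈ nMk D P ↔ ∃ b, ∃ r, b ∈ D.B ∧ r ∈ D.T ∧ Sb r b ∧
      ((P b r ∧ z = SigB.op (SigB.op b r) (nt K 1)) ∨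
        (¬ P b r ∧ z = SigB.op (SigB.op b r) (nt K 0))) := by
  have hP' : ∀ {n : ℕ} {s t : (Fin n → K) → K}, DT s → DT t → Dfn fun v => P (s v) (t v) :=
    fun hs ht => dfn2 hP hs ht
  have hd : Dfn (fun w : Fin 1 → K => ∃ b, ∃ r, Sb r b ∧
      ((P b r ∧ w 0 = SigB.op (SigB.op b r) (nt K 1)) ∨
        (¬ P b r ∧ w 0 = SigB.op (SigB.op b r) (nt K 0)))) := by
    simp (maxDischargeDepth := 50) [hP']
  unfold nMk
  rw [mem_sp hd]
  constructor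
  · rintro ⟨h1, b, r, h2, h3⟩
    have h4 : b ∈ D.B ∧ r ∈ D.T := by
      rcases h3 with ⟨-, rfl⟩ | ⟨-, rfl⟩
      · exact op_mem_pd.1 (op_mem_pd.1 h1).1
      · exact op_mem_pd.1 (op_mem_pd.1 h1).1
    exact ⟨b, r, h4.1, h4.2, h2, h3⟩
  · rintro ⟨b, r, hb, hr, h2, h3⟩
    refine ⟨?_, b, r, h2, h3⟩
    rcases h3 with ⟨-, rfl⟩ | ⟨-, rfl⟩
    · exact op_mem_pd.2 ⟨op_mem_pd.2 ⟨hb, hr⟩, nt_mem_om 1⟩
    · exact op_mem_pd.2 ⟨op_mem_pd.2 ⟨hb, hr⟩, nt_mem_om 0⟩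

theorem op_mem_nMk (hP : Dfn fun w : Fin 2 → K => P (w 0) (w 1)) {b r i : K} :
    SigB.op (SigB.op b r) i ∈ nMk D P ↔ b ∈ D.B ∧ r ∈ D.T ∧ Sb r b ∧
      ((P b r ∧ i = nt K 1) ∨ (¬ P b r ∧ i = nt K 0)) := by
  rw [mem_nMk hP]
  constructor
  · rintro ⟨b', r', hb, hr, h2, h3⟩
    rcases h3 with ⟨h3, h4⟩ | ⟨h3, h4⟩
    · obtain ⟨h5, rfl⟩ := SigB.op_inj.1 h4
      obtain ⟨rfl, rfl⟩ := SigB.op_inj.1 h5
      exact ⟨hb, hr, h2, Or.inl ⟨h3, rfl⟩⟩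
    · obtain ⟨h5, rfl⟩ := SigB.op_inj.1 h4
      obtain ⟨rfl, rfl⟩ := SigB.op_inj.1 h5
      exact ⟨hb, hr, h2, Or.inr ⟨h3, rfl⟩⟩
  · rintro ⟨hb, hr, h2, h3⟩
    refine ⟨b, r, hb, hr, h2, ?_⟩
    rcases h3 with ⟨h3, rfl⟩ | ⟨h3, rfl⟩
    · exact Or.inl ⟨h3, rfl⟩
    · exact Or.inr ⟨h3, rfl⟩

end

/-! ### Translations -/

/-- The elements of the group. -/
def NElt (D : Br K) (x : K) : Prop :=
  (∀ z, z ∈ x → ∃ b r i, b ∈ D.B ∧ r ∈ D.T ∧ Sb r b ∧ z = SigB.op (SigB.op b r) i ∧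
    i ∈ ap D.p r) ∧
  (∀ b r, b ∈ D.B → r ∈ D.T → Sb r b → ∃ i, SigB.op (SigB.op b r) i ∈ x ∧
    ∀ i', SigB.op (SigB.op b r) i' ∈ x → i' = i) ∧
  (∀ b, b ∈ D.B → ∃ m, m ∈ (om : K) ∧ ∀ r k, k ∈ (om : K) → r ∈ fs k om → Sb m k → Sb r b →
    SigB.op (SigB.op b r) (nt K 0) ∈ x)

theorem NElt.dfn (D : Br K) : Dfn fun w : Fin 1 → K => NElt D (w 0) := by
  unfold NElt
  simp (maxDischargeDepth := 50)

section

variable {D : Br K} (hD : D.Is)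

include hD

theorem Br.Is.n_o : D.o = om := isOmega_iff.1 hD.omega

theorem Br.Is.n_mem_T {r : K} : r ∈ D.T ↔ ∃ k, k ∈ (om : K) ∧ r ∈ fs k om := by
  rw [hD.seq r, hD.n_o]
  simp only [isMap_iff]

theorem Br.Is.n_p_mem : D.p ∈ fs D.T (om : K) := by
  have h := hD.inj.1
  rwa [isMap_iff, hD.n_o] at h

theorem Br.Is.n_p_inj {r s : K} (hr : r ∈ D.T) (hs : s ∈ D.T) (h : ap D.p r = ap D.p s) :
    r = s := by
  have h1 := hD.inj
  rw [hD.n_o] at h1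
  exact (isInjection_iff.1 h1).2 r s hr hs h

theorem Br.Is.n_val_p {r q : K} : Val D.p r q ↔ r ∈ D.T ∧ ap D.p r = q := by
  have h := hD.inj.1
  exact val_map h

theorem Br.Is.n_add : IsAdd D.ad (om : K) := by
  have h := hD.add
  rwa [hD.n_o] at h

theorem Br.Is.n_exists_q (hK : Om K) {r : K} (hr : r ∈ D.T) : ∃ q : ℕ, 2 ≤ q ∧ ap D.p r = nt K q := by
  obtain ⟨q, hq⟩ := hK _ ((mem_fs.1 hD.n_p_mem).2 r hr)
  refine ⟨q, ?_, hq⟩
  obtain ⟨-, ⟨z, e, hz, he, heq⟩, -⟩ := hD.prime r _ (hD.n_val_p.2 ⟨hr, rfl⟩)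
  rw [isZero_iff] at hz
  rw [isSucc_iff, hz] at he
  rw [he, hq] at heq
  exact nt_mem_nt.1 (show nt K 1 ∈ nt K q from heq)

theorem Br.Is.n_branch {b : K} (hb : b ∈ D.B) : b ∈ fs (om : K) om := by
  have h := hD.branch b hb
  rwa [isMap_iff, hD.n_o] at h

theorem Br.Is.n_isElt_iff {x : K} : D.IsElt x ↔ NElt D x := by
  constructor
  · intro h
    refine ⟨fun z hz => ?_, fun b r hb hr hs => ?_, fun b hb => ?_⟩
    · obtain ⟨b, r, w, i, q, hb, hr, hs, hw, hz', hq, hi⟩ := h.mem z hz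
      rw [isOrdPair_iff] at hw hz'
      rw [hw] at hz'
      refine ⟨b, r, i, hb, hr, hs, hz', ?_⟩
      rw [(hD.n_val_p.1 hq).2]
      exact hi
    · obtain ⟨i, hi, hu⟩ := h.val b r hb hr hs
      exact ⟨i, val2_iff.1 hi, fun i' hi' => hu i' (val2_iff.2 hi')⟩
    · obtain ⟨m, hm, h1⟩ := h.fin b hb
      rw [hD.n_o] at hm
      refine ⟨m, hm, fun r k hk hr hmk hrb => ?_⟩
      exact val2_iff.1 (h1 r k (nt K 0) (by rw [hD.n_o]; exact hk)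
        (by rw [hD.n_o]; exact isMap_iff.2 hr) hmk hrb (isZero_iff.2 rfl))
  · rintro ⟨h1, h2, h3⟩
    refine ⟨fun z hz => ?_, fun b r hb hr hs => ?_, fun b hb => ?_⟩
    · obtain ⟨b, r, i, hb, hr, hs, hz', hi⟩ := h1 z hz
      exact ⟨b, r, SigB.op b r, i, ap D.p r, hb, hr, hs, isOrdPair_iff.2 rfl,
        isOrdPair_iff.2 hz', hD.n_val_p.2 ⟨hr, rfl⟩, hi⟩
    · obtain ⟨i, hi, hu⟩ := h2 b r hb hr hs
      exact ⟨i, val2_iff.2 hi, fun i' hi' => hu i' (val2_iff.1 hi')⟩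
    · obtain ⟨m, hm, h4⟩ := h3 b hb
      refine ⟨m, by rw [hD.n_o]; exact hm, fun r k z hk hr hmk hrb hz => ?_⟩
      rw [hD.n_o] at hk hr
      rw [isZero_iff.1 hz]
      exact val2_iff.2 (h4 r k hk (isMap_iff.1 hr) hmk hrb)

/-- The value of an element of the group. -/
theorem Br.Is.n_exists_val (hK : Om K) {x b r : K} (hx : D.IsElt x) (hb : b ∈ D.B) (hr : r ∈ D.T)
    (hs : Sb r b) : ∃ n q : ℕ, n < q ∧ 2 ≤ q ∧ ap D.p r = nt K q ∧
      ∀ i, SigB.op (SigB.op b r) i ∈ x ↔ i = nt K n := by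
  obtain ⟨h1, h2, -⟩ := hD.n_isElt_iff.1 hx
  obtain ⟨i, hi, hu⟩ := h2 b r hb hr hs
  obtain ⟨q, hq2, hq⟩ := hD.n_exists_q hK hr
  obtain ⟨b', r', i', -, -, -, he, hi'⟩ := h1 _ hi
  obtain ⟨h3, rfl⟩ := SigB.op_inj.1 he
  obtain ⟨rfl, rfl⟩ := SigB.op_inj.1 h3
  rw [hq] at hi'
  obtain ⟨n, hn, rfl⟩ := mem_nt.1 hi'
  exact ⟨n, q, hn, hq2, hq, fun i' => ⟨hu i', fun h => by rw [h]; exact hi⟩⟩

/-- The sum of two elements. -/
theorem Br.Is.n_sumAt_iff (hK : Om K) {b x y z : K} (hx : D.IsElt x) (hy : D.IsElt y)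
    (hz : D.IsElt z) (hb : b ∈ D.B) : D.SumAt b x y z ↔ ∀ r, r ∈ D.T → Sb r b →
      ∀ i j k q : ℕ, ap D.p r = nt K q → SigB.op (SigB.op b r) (nt K i) ∈ x →
        SigB.op (SigB.op b r) (nt K j) ∈ y → SigB.op (SigB.op b r) (nt K k) ∈ z →
          j + k = i ∨ j + k = i + q := by
  constructor
  · intro h r hr hs i j k q hq hi hj hk
    obtain ⟨s, h1, h2⟩ := h r (nt K q) (nt K i) (nt K j) (nt K k) (hD.n_val_p.2 ⟨hr, hq⟩)
      (val2_iff.2 hi) (val2_iff.2 hj) (val2_iff.2 hk)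
    rw [hD.n_add.val] at h1
    rcases h2 with h2 | h2
    · exact Or.inl (nt_inj (h1.symm.trans h2))
    · rw [hD.n_add.val] at h2
      exact Or.inr (nt_inj (h1.symm.trans h2))
  · intro h r q i j k hq hi hj hk
    rw [val2_iff] at hi hj hk
    obtain ⟨hr, hq'⟩ := hD.n_val_p.1 hq
    obtain ⟨b', r', _, _, _, hs, he, _⟩ := (hD.n_isElt_iff.1 hx).1 _ hi
    obtain ⟨h3, -⟩ := SigB.op_inj.1 he
    obtain ⟨rfl, rfl⟩ := SigB.op_inj.1 h3
    obtain ⟨i', q', -, -, hq1, hi'⟩ := hD.n_exists_val hK hx hb hr hs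
    obtain ⟨j', _, -, -, -, hj'⟩ := hD.n_exists_val hK hy hb hr hs
    obtain ⟨k', _, -, -, -, hk'⟩ := hD.n_exists_val hK hz hb hr hs
    have e1 := (hi' i).1 hi
    have e2 := (hj' j).1 hj
    have e3 := (hk' k).1 hk
    subst e1 e2 e3
    refine ⟨nt K (j' + k'), hD.n_add.val.2 rfl, ?_⟩
    rw [hq1] at hq'
    rcases h r hr hs i' j' k' q' hq1 hi hj hk with h4 | h4
    · exact Or.inl (by rw [h4])
    · right
      rw [← hq', h4]
      exact hD.n_add.val.2 rfl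

/-- A criterion for elements. -/
theorem Br.Is.n_isElt_mk (hK : Om K) {P : K → K → Prop}
    (hP : Dfn fun w : Fin 2 → K => P (w 0) (w 1))
    (h : ∀ b, b ∈ D.B → ∃ m : ℕ, ∀ (k : ℕ) (r : K), r ∈ fs (nt K k) (om : K) → Sb r b → m ≤ k →
      ¬ P b r) : D.IsElt (nMk D P) := by
  rw [hD.n_isElt_iff]
  refine ⟨fun z hz => ?_, fun b r hb hr hs => ?_, fun b hb => ?_⟩
  · obtain ⟨b, r, hb, hr, hs, h1⟩ := (mem_nMk hP).1 hz
    obtain ⟨q, hq2, hq⟩ := hD.n_exists_q hK hr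
    rcases h1 with ⟨-, rfl⟩ | ⟨-, rfl⟩
    · exact ⟨b, r, nt K 1, hb, hr, hs, rfl, by rw [hq]; exact nt_mem_nt.2 (by omega)⟩
    · exact ⟨b, r, nt K 0, hb, hr, hs, rfl, by rw [hq]; exact nt_mem_nt.2 (by omega)⟩
  · by_cases hPb : P b r
    · refine ⟨nt K 1, (op_mem_nMk hP).2 ⟨hb, hr, hs, Or.inl ⟨hPb, rfl⟩⟩, fun i' hi' => ?_⟩
      rcases ((op_mem_nMk hP).1 hi').2.2.2 with h1 | h1
      · exact h1.2
      · exact (h1.1 hPb).elim
    · refine ⟨nt K 0, (op_mem_nMk hP).2 ⟨hb, hr, hs, Or.inr ⟨hPb, rfl⟩⟩, fun i' hi' => ?_⟩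
      rcases ((op_mem_nMk hP).1 hi').2.2.2 with h1 | h1
      · exact (hPb h1.1).elim
      · exact h1.2
  · obtain ⟨m, hm⟩ := h b hb
    refine ⟨nt K m, nt_mem_om m, fun r k hk hr hmk hrb => ?_⟩
    obtain ⟨k, rfl⟩ := hK k hk
    exact (op_mem_nMk hP).2 ⟨hb, hD.n_mem_T.2 ⟨_, hk, hr⟩, hrb,
      Or.inr ⟨hm k r hr hrb (sb_nt.1 hmk), rfl⟩⟩

end

/-! ### The subgroup of the constants -/

/-- The value `h(b, r)` depends only on `r`. -/
def NCst (D : Br K) (h : K) : Prop :=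
  ∀ b b' r i, b ∈ D.B → b' ∈ D.B → Sb r b' → SigB.op (SigB.op b r) i ∈ h →
    SigB.op (SigB.op b' r) i ∈ h

theorem NCst.dfn (D : Br K) : Dfn fun w : Fin 1 → K => NCst D (w 0) := by
  unfold NCst
  simp (maxDischargeDepth := 50)

/-- The subgroup of the constants. -/
noncomputable def nH (D : Br K) : K :=
  sp (pw (SigB.pd (SigB.pd D.B D.T) (om : K))) fun h => NElt D h ∧ NCst D h

section

variable {D : Br K} (hD : D.Is)

include hD

theorem Br.Is.n_mem_H {h : K} : h ∈ nH D ↔ D.IsElt h ∧ NCst D h := by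
  unfold nH
  rw [mem_sp ((NElt.dfn D).and (NCst.dfn D)), mem_pw, hD.n_isElt_iff]
  refine ⟨fun h1 => h1.2, fun h1 => ⟨fun z hz => ?_, h1⟩⟩
  obtain ⟨b, r, i, hb, hr, -, rfl, hi⟩ := h1.1.1 z hz
  exact op_mem_pd.2 ⟨op_mem_pd.2 ⟨hb, hr⟩, om_ord.trans hi ((mem_fs.1 hD.n_p_mem).2 r hr)⟩

theorem Br.Is.n_dom {x : K} (hx : D.IsElt x) {b r i : K} (h : SigB.op (SigB.op b r) i ∈ x) :
    b ∈ D.B ∧ r ∈ D.T ∧ Sb r b := by
  obtain ⟨b', r', i', h1, h2, h3, he, -⟩ := (hD.n_isElt_iff.1 hx).1 _ h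
  obtain ⟨h4, -⟩ := SigB.op_inj.1 he
  obtain ⟨rfl, rfl⟩ := SigB.op_inj.1 h4
  exact ⟨h1, h2, h3⟩

theorem Br.Is.n_isClosedSubgroup (hK : Om K) : D.IsClosedSubgroup (nH D) := by
  refine ⟨fun x hx => (hD.n_mem_H.1 hx).1, ?_, ?_, ?_⟩
  · have hP : Dfn fun w : Fin 2 → K => (fun _ _ : K => False) (w 0) (w 1) := by simp
    refine ⟨nMk D fun _ _ => False, hD.n_mem_H.2 ⟨hD.n_isElt_mk hK hP fun b _ =>
      ⟨0, fun k r _ _ _ => id⟩, fun b b' r i hb hb' hr h => ?_⟩⟩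
    obtain ⟨-, h1, -, h2⟩ := (op_mem_nMk hP).1 h
    exact (op_mem_nMk hP).2 ⟨hb', h1, hr, h2⟩
  · intro x y z hx hy hz hs
    obtain ⟨hx, hx'⟩ := hD.n_mem_H.1 hx
    obtain ⟨hy, hy'⟩ := hD.n_mem_H.1 hy
    refine hD.n_mem_H.2 ⟨hz, fun b b' r i hb hb' hr' h => ?_⟩
    obtain ⟨-, hrT, hr⟩ := hD.n_dom hz h
    obtain ⟨nx, q, -, -, hq, hnx⟩ := hD.n_exists_val hK hx hb hrT hr
    obtain ⟨ny, -, -, -, -, hny⟩ := hD.n_exists_val hK hy hb hrT hr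
    obtain ⟨nz, q1, hlt, -, hq1, hnz⟩ := hD.n_exists_val hK hz hb hrT hr
    obtain ⟨nz', q2, hlt', -, hq2, hnz'⟩ := hD.n_exists_val hK hz hb' hrT hr'
    obtain rfl := nt_inj (hq.symm.trans hq1)
    obtain rfl := nt_inj (hq.symm.trans hq2)
    have h1 := (hD.n_sumAt_iff hK hx hy hz hb).1 (hs b hb) r hrT hr nx ny nz q hq
      ((hnx _).2 rfl) ((hny _).2 rfl) ((hnz _).2 rfl)
    have h2 := (hD.n_sumAt_iff hK hx hy hz hb').1 (hs b' hb') r hrT hr' nx ny nz' q hq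
      (hx' b b' r _ hb hb' hr' ((hnx _).2 rfl)) (hy' b b' r _ hb hb' hr' ((hny _).2 rfl))
      ((hnz' _).2 rfl)
    have h3 : nz = nz' := by omega
    rw [(hnz i).1 h, h3]
    exact (hnz' _).2 rfl
  · intro x hx hF
    refine hD.n_mem_H.2 ⟨hx, fun b b' r i hb hb' hr' h => ?_⟩
    obtain ⟨g, hg, hag⟩ := hF (SigB.pr b b') (isFinite_pr b b') (by
      intro z hz
      rcases mem_pr.1 hz with rfl | rfl
      · exact hb
      · exact hb')
    obtain ⟨hg1, hg2⟩ := hD.n_mem_H.1 hg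
    have h1 := val2_iff.1 ((hag b (mem_pr.2 (Or.inl rfl)) r i).1 (val2_iff.2 h))
    exact val2_iff.1 ((hag b' (mem_pr.2 (Or.inr rfl)) r i).2 (val2_iff.2
      (hg2 b b' r i hb hb' hr' h1)))

end

/-! ### The Cauchy net -/

/-- `b = e(S)` with `r ∈ S`. -/
def NPX (D : Br K) (e b r : K) : Prop := ∃ S, S ∈ pw D.T ∧ ap e S = b ∧ r ∈ S

/-- The pairs with the value `1` in the element of the net at `F`. -/
def NPA (D : Br K) (e F b r : K) : Prop := b ∈ F ∧ (∃ b', b' ∈ F ∧ b' ≠ b ∧ Sb r b') ∧ NPX D e b r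

/-- The sequences with the value `1` in the difference of the elements at `F'` and `F`. -/
def NPH (D : Br K) (e F F' r : K) : Prop :=
  ∃ b, b ∈ F ∧ Sb r b ∧ NPX D e b r ∧ (∀ b₁, b₁ ∈ F → Sb r b₁ → b₁ = b) ∧
    ∃ b₂, b₂ ∈ F' ∧ b₂ ≠ b ∧ Sb r b₂

theorem NPX.dfn (D : Br K) (e : K) : Dfn fun w : Fin 2 → K => NPX D e (w 0) (w 1) := by
  unfold NPX
  simp (maxDischargeDepth := 50)

theorem NPA.dfn (D : Br K) (e F : K) : Dfn fun w : Fin 2 → K => NPA D e F (w 0) (w 1) := by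
  unfold NPA NPX
  simp (maxDischargeDepth := 50)

theorem NPH.dfn (D : Br K) (e F F' : K) :
    Dfn fun w : Fin 2 → K => (fun _ r => NPH D e F F' r) (w 0) (w 1) := by
  unfold NPH NPX
  simp (maxDischargeDepth := 50)

/-- The finite subsets of `B`. -/
noncomputable def nFs (D : Br K) : K := sp (pw D.B) fun F => ∃ n, n ∈ (om : K) ∧ Le F n

theorem mem_nFs {D : Br K} {F : K} : F ∈ nFs D ↔ IsFinite F ∧ Sb F D.B := by
  unfold nFs
  rw [mem_sp (by simp (maxDischargeDepth := 50)), mem_pw, isFinite_iff]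
  exact and_comm

/-- The element of the net at `F`. -/
noncomputable def nA (D : Br K) (e F : K) : K := nMk D (NPA D e F)

theorem nA.dt (D : Br K) (e : K) : DT fun w : Fin 1 → K => nA D e (w 0) := by
  unfold nA nMk NPA NPX
  simp (maxDischargeDepth := 50)

/-- The net. -/
noncomputable def nNet (D : Br K) (e : K) : K := lam (nFs D) (nA D e)

theorem val_nNet {D : Br K} {e F x : K} : Val (nNet D e) F x ↔ F ∈ nFs D ∧ x = nA D e F := by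
  unfold nNet
  rw [val_iff, op_mem_lam (nA.dt D e)]

section

variable {D : Br K} (hD : D.Is)

include hD

theorem Br.Is.n_isElt_A (hK : Om K) (e : K) {F : K} (hF : F ∈ nFs D) : D.IsElt (nA D e F) := by
  obtain ⟨hF1, hF2⟩ := mem_nFs.1 hF
  obtain ⟨m, hm⟩ := exists_split_branch hK hD hF1 hF2
  refine hD.n_isElt_mk hK (NPA.dfn D e F) fun b _ => ⟨m, fun k r hr hrb hmk h => ?_⟩
  obtain ⟨h1, ⟨b', h2, h3, h4⟩, -⟩ := h
  have := hm b h1 b' h2 h3.symm k r hr hrb h4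
  omega

theorem Br.Is.n_mem_PH (hK : Om K) (e : K) {F F' : K} (hF' : F' ∈ nFs D) (hFF : Sb F F') :
    nMk D (fun _ r => NPH D e F F' r) ∈ nH D := by
  obtain ⟨hF1, hF2⟩ := mem_nFs.1 hF'
  obtain ⟨m, hm⟩ := exists_split_branch hK hD hF1 hF2
  refine hD.n_mem_H.2 ⟨hD.n_isElt_mk hK (NPH.dfn D e F F') fun b _ =>
    ⟨m, fun k r hr hrb hmk h => ?_⟩, fun b b' r i hb hb' hr h => ?_⟩
  · obtain ⟨b₁, h1, h2, -, -, b₂, h3, h4, h5⟩ := h
    have := hm b₁ (hFF _ h1) b₂ h3 h4.symm k r hr h2 h5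
    omega
  · obtain ⟨-, h1, -, h2⟩ := (op_mem_nMk (NPH.dfn D e F F')).1 h
    exact (op_mem_nMk (NPH.dfn D e F F')).2 ⟨hb', h1, hr, h2⟩

theorem Br.Is.n_isCauchy (hK : Om K) (e : K) : D.IsCauchy (nH D) (nNet D e) := by
  refine ⟨fun F x h => mem_nFs.1 (val_nNet.1 h).1, fun F x h => ?_, fun F hF hFB => ?_,
    fun F F' x x' h h' hFF => ?_⟩
  · obtain ⟨h1, rfl⟩ := val_nNet.1 h
    exact hD.n_isElt_A hK e h1
  · exact ⟨nA D e F, val_nNet.2 ⟨mem_nFs.2 ⟨hF, hFB⟩, rfl⟩, fun x hx => (val_nNet.1 hx).2⟩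
  · obtain ⟨h1, rfl⟩ := val_nNet.1 h
    obtain ⟨h1', rfl⟩ := val_nNet.1 h'
    have hh := hD.n_mem_PH hK e h1' hFF
    refine ⟨_, hh, fun b hb => ?_⟩
    have hbB := (mem_nFs.1 h1).2 b hb
    rw [hD.n_sumAt_iff hK (hD.n_isElt_A hK e h1') (hD.n_isElt_A hK e h1) (hD.n_mem_H.1 hh).1 hbB]
    intro r hrT hr i j k q hq hi hj hk
    obtain ⟨-, -, -, hi⟩ := (op_mem_nMk (NPA.dfn D e F')).1 hi
    obtain ⟨-, -, -, hj⟩ := (op_mem_nMk (NPA.dfn D e F)).1 hj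
    obtain ⟨-, -, -, hk⟩ := (op_mem_nMk (NPH.dfn D e F F')).1 hk
    left
    have key : (NPA D e F' b r ∧ NPA D e F b r ∧ ¬ NPH D e F F' r) ∨
        (NPA D e F' b r ∧ ¬ NPA D e F b r ∧ NPH D e F F' r) ∨
        (¬ NPA D e F' b r ∧ ¬ NPA D e F b r ∧ ¬ NPH D e F F' r) := by
      by_cases h2 : ∃ b', b' ∈ F ∧ b' ≠ b ∧ Sb r b'
      · have hnPH : ¬ NPH D e F F' r := by
          rintro ⟨b₀, -, -, -, h3, -⟩
          obtain ⟨b', h4, h5, h6⟩ := h2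
          exact h5 ((h3 b' h4 h6).trans (h3 b hb hr).symm)
        by_cases h3 : NPX D e b r
        · left
          obtain ⟨b', h4, h5, h6⟩ := h2
          exact ⟨⟨hFF _ hb, ⟨b', hFF _ h4, h5, h6⟩, h3⟩, ⟨hb, ⟨b', h4, h5, h6⟩, h3⟩, hnPH⟩
        · exact Or.inr (Or.inr ⟨fun h4 => h3 h4.2.2, fun h4 => h3 h4.2.2, hnPH⟩)
      · have hnA : ¬ NPA D e F b r := fun h3 => h2 h3.2.1
        by_cases h3 : NPA D e F' b r
        · refine Or.inr (Or.inl ⟨h3, hnA, b, hb, hr, h3.2.2, fun b₁ h4 h5 => ?_, h3.2.1⟩)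
          by_contra h6
          exact h2 ⟨b₁, h4, h6, h5⟩
        · refine Or.inr (Or.inr ⟨h3, hnA, ?_⟩)
          rintro ⟨b₀, h4, h5, h6, h7, b₂, h8⟩
          obtain rfl := h7 b hb hr
          exact h3 ⟨hFF _ hb, ⟨b₂, h8⟩, h6⟩
    rcases key with ⟨h2, h3, h4⟩ | ⟨h2, h3, h4⟩ | ⟨h2, h3, h4⟩
    · have hi' := nt_inj (hi.resolve_right fun h => h.1 h2).2
      have hj' := nt_inj (hj.resolve_right fun h => h.1 h3).2
      have hk' := nt_inj (hk.resolve_left fun h => h4 h.1).2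
      omega
    · have hi' := nt_inj (hi.resolve_right fun h => h.1 h2).2
      have hj' := nt_inj (hj.resolve_left fun h => h3 h.1).2
      have hk' := nt_inj (hk.resolve_right fun h => h.1 h4).2
      omega
    · have hi' := nt_inj (hi.resolve_left fun h => h2 h.1).2
      have hj' := nt_inj (hj.resolve_left fun h => h3 h.1).2
      have hk' := nt_inj (hk.resolve_left fun h => h4 h.1).2
      omega

end

/-! ### The contradiction -/

/-- The value of `x`. -/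
def NXVal (D : Br K) (e b r i : K) : Prop :=
  (NPX D e b r ∧ i = nt K 1) ∨ (¬ NPX D e b r ∧ i = nt K 0)

theorem not_completeQuotients_of_CH (hK : Om K) (h : Forc.CH K) : ¬ CompleteQuotients K := by
  rintro ⟨D, hD, hc⟩
  obtain ⟨e, he, hei⟩ := le_pwT h hD
  obtain ⟨y, hy, hyF⟩ := hc (nH D) (nNet D e) (hD.n_isClosedSubgroup hK) (hD.n_isCauchy hK e)
  -- the value of `y` agrees with the value of `x`
  have hd : Dfn fun w : Fin 1 → K => ∃ b, b ∈ D.B ∧ Sb (w 0) b ∧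
      ∃ i, SigB.op (SigB.op b (w 0)) i ∈ y ∧ NXVal D e b (w 0) i := by
    unfold NXVal NPX
    simp (maxDischargeDepth := 50)
  let S : K := sp D.T fun r => ∃ b, b ∈ D.B ∧ Sb r b ∧
    ∃ i, SigB.op (SigB.op b r) i ∈ y ∧ NXVal D e b r i
  have hS : ∀ r, r ∈ S ↔ r ∈ D.T ∧ ∃ b, b ∈ D.B ∧ Sb r b ∧
      ∃ i, SigB.op (SigB.op b r) i ∈ y ∧ NXVal D e b r i := fun r => mem_sp hd
  have hST : S ∈ pw D.T := mem_pw.2 fun z hz => ((hS z).1 hz).1
  -- independence of the branch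
  have hind : ∀ r b b' i, r ∈ D.T → b ∈ D.B → b' ∈ D.B → Sb r b → Sb r b' →
      SigB.op (SigB.op b r) i ∈ y → NXVal D e b r i →
      ∃ i', SigB.op (SigB.op b' r) i' ∈ y ∧ NXVal D e b' r i' := by
    intro r b b' i hrT hb hb' hr hr' hi hX
    by_cases hbb : b = b'
    · subst hbb
      exact ⟨i, hi, hX⟩
    have hFF : SigB.pr b b' ∈ nFs D := by
      refine mem_nFs.2 ⟨isFinite_pr b b', fun z hz => ?_⟩
      rcases mem_pr.1 hz with rfl | rfl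
      · exact hb
      · exact hb'
    obtain ⟨g, hg, hgF⟩ := hyF _ _ (val_nNet.2 ⟨hFF, rfl⟩)
    obtain ⟨hg1, hg2⟩ := hD.n_mem_H.1 hg
    have hbm : b ∈ SigB.pr b b' := mem_pr.2 (Or.inl rfl)
    have hbm' : b' ∈ SigB.pr b b' := mem_pr.2 (Or.inr rfl)
    have ha := hD.n_isElt_A hK e hFF
    obtain ⟨ny, q, hny, hq2, hq, hyv⟩ := hD.n_exists_val hK hy hb hrT hr
    obtain ⟨ny', q1, hny', -, hq1, hyv'⟩ := hD.n_exists_val hK hy hb' hrT hr'
    obtain ⟨ng, q3, hng, -, hq3, hgv⟩ := hD.n_exists_val hK hg1 hb hrT hr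
    obtain rfl := nt_inj (hq.symm.trans hq1)
    obtain rfl := nt_inj (hq.symm.trans hq3)
    -- the values of the element of the net
    have hav : ∀ c c', c ∈ SigB.pr b b' → c' ∈ SigB.pr b b' → c' ≠ c → Sb r c → Sb r c' →
        ∃ n : ℕ, n ≤ 1 ∧ SigB.op (SigB.op c r) (nt K n) ∈ nA D e (SigB.pr b b') ∧
          NXVal D e c r (nt K n) := by
      intro c c' hc1 hc1' hne hrc hrc'
      have hcB := (mem_nFs.1 hFF).2 c hc1
      by_cases hX : NPX D e c r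
      · exact ⟨1, le_rfl, (op_mem_nMk (NPA.dfn D e _)).2 ⟨hcB, hrT, hrc,
          Or.inl ⟨⟨hc1, ⟨c', hc1', hne, hrc'⟩, hX⟩, rfl⟩⟩, Or.inl ⟨hX, rfl⟩⟩
      · exact ⟨0, zero_le_one, (op_mem_nMk (NPA.dfn D e _)).2 ⟨hcB, hrT, hrc,
          Or.inr ⟨fun h1 => hX h1.2.2, rfl⟩⟩, Or.inr ⟨hX, rfl⟩⟩
    obtain ⟨nx, hnx, hxv, hX1⟩ := hav b b' hbm hbm' (Ne.symm hbb) hr hr'
    obtain ⟨nx', hnx', hxv', hX1'⟩ := hav b' b hbm' hbm hbb hr' hr
    have h1 := (hD.n_sumAt_iff hK hy ha hg1 hb).1 (hgF b hbm) r hrT hr ny nx ng q hq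
      ((hyv _).2 rfl) hxv ((hgv _).2 rfl)
    have h2 := (hD.n_sumAt_iff hK hy ha hg1 hb').1 (hgF b' hbm') r hrT hr' ny' nx' ng q hq
      ((hyv' _).2 rfl) hxv' (hg2 b b' r _ hb hb' hr' ((hgv _).2 rfl))
    have h3 : nx = ny := by
      have h4 : nt K nx = i := by
        rcases hX with ⟨h5, h6⟩ | ⟨h5, h6⟩
        · rw [h6]; exact (hX1.resolve_right fun h7 => h7.1 h5).2
        · rw [h6]; exact (hX1.resolve_left fun h7 => h5 h7.1).2
      exact nt_inj (h4.trans ((hyv i).1 hi))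
    have h4 : nx' = ny' := by omega
    exact ⟨nt K ny', (hyv' _).2 rfl, h4 ▸ hX1'⟩
  -- the branch of `S`
  have hbB : ap e S ∈ D.B := (mem_fs.1 he).2 S hST
  obtain ⟨m, hm, hfin⟩ := (hD.n_isElt_iff.1 hy).2.2 (ap e S) hbB
  have hbf := hD.n_branch hbB
  have hsub : Sb m (om : K) := fun z hz => om_ord.trans hz hm
  have hrm : rs (ap e S) m ∈ fs m (om : K) := by
    refine mem_fs.2 ⟨fn_rs (mem_fs.1 hbf).1 hsub, fun z hz => ?_⟩
    rw [ap_rs (mem_fs.1 hbf).1 hsub hz]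
    exact (mem_fs.1 hbf).2 z (hsub z hz)
  have hrb : Sb (rs (ap e S) m) (ap e S) := by
    intro z hz
    unfold rs at hz
    exact ((mem_sp (by simp (maxDischargeDepth := 50))).1 hz).1
  have hrT : rs (ap e S) m ∈ D.T := hD.n_mem_T.2 ⟨m, hm, hrm⟩
  have h0 := hfin _ m hm hrm (Sb.refl m) hrb
  obtain ⟨ny, q, -, -, -, hyv⟩ := hD.n_exists_val hK hy hbB hrT hrb
  have hny : ny = 0 := (nt_inj ((hyv _).1 h0)).symm
  have hPX : NPX D e (ap e S) (rs (ap e S) m) ↔ rs (ap e S) m ∈ S := by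
    constructor
    · rintro ⟨S', h1, h2, h3⟩
      rwa [hei S' S h1 hST h2] at h3
    · exact fun h1 => ⟨S, hST, rfl, h1⟩
  by_cases hr : rs (ap e S) m ∈ S
  · obtain ⟨-, b, hb, h1, i, hi, hX⟩ := (hS _).1 hr
    obtain ⟨i', hi', hX'⟩ := hind _ b _ i hrT hb hbB h1 hrb hi hX
    rcases hX' with ⟨-, h2⟩ | ⟨h2, -⟩
    · have h3 := (hyv i').1 hi'
      rw [h2, hny] at h3
      exact absurd (nt_inj h3) one_ne_zero
    · exact h2 (hPX.2 hr)
  · refine hr ((hS _).2 ⟨hrT, _, hbB, hrb, nt K 0, h0, Or.inr ⟨fun h1 => hr (hPX.1 h1), rfl⟩⟩)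

end Pool.Agent.Unif
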