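import Pool.Agent.Work.MP_c629c8_al.Mod.Rd
import Pool.Agent.Work.MP_c629c8_al.Grp.Rel

/-!
# The external reading of the elements of the group of `D : Br K`
-/

set_option linter.unusedSectionVars false

namespace Pool.Agent.Unif

open Pool.Agent.SigB Pool.Agent.Frc Pool.Agent.Forc Pool.Agent.GPA
open Pool.Agent.Work.MP_c629c8_al

/-! ### Preparations -/

theorem zmod_sum_iff {p : ℕ} (hp : 0 < p) {a b c : ZMod p} :
    a = b + c ↔ b.val + c.val = a.val ∨ b.val + c.val = a.val + p := by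
  have : NeZero p := ⟨hp.ne'⟩
  have ha := ZMod.val_lt a
  have hb := ZMod.val_lt b
  have hc := ZMod.val_lt c
  constructor
  · rintro rfl
    rw [ZMod.val_add]
    by_cases h : b.val + c.val < p
    · left
      rw [Nat.mod_eq_of_lt h]
    · right
      push Not at h
      rw [Nat.mod_eq_sub_mod h, Nat.mod_eq_of_lt (by omega)]
      omega
  · intro h
    have h1 : ((b.val + c.val : ℕ) : ZMod p) = (a.val : ℕ) := by
      rcases h with h | h
      · rw [h]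
      · rw [h]
        push_cast
        rw [ZMod.natCast_self, add_zero]
    push_cast at h1
    rw [ZMod.natCast_zmod_val, ZMod.natCast_zmod_val, ZMod.natCast_zmod_val] at h1
    exact h1.symm

theorem zmod_val_eq {p : ℕ} (hp : 0 < p) {a : ZMod p} {i : ℕ} (hi : i < p) :
    a.val = i ↔ a = (i : ZMod p) := by
  have : NeZero p := ⟨hp.ne'⟩
  constructor
  · rintro rfl
    exact (ZMod.natCast_zmod_val a).symm
  · rintro rfl
    exact ZMod.val_natCast_of_lt hi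

theorem pre_finite (x : ℕ → ℕ) (m : ℕ) : {s : List ℕ | Pre s x ∧ s.length < m}.Finite := by
  refine ((Set.finite_Iio m).image fun n => List.ofFn fun i : Fin n => x i).subset ?_
  rintro s ⟨hs, hm⟩
  refine ⟨s.length, hm, ?_⟩
  refine List.ext_getElem (by simp) fun i h1 h2 => ?_
  rw [List.getElem_ofFn]
  exact (hs i h2).symm

/-- Elements of the direct sum with given coordinates. -/
theorem exists_branch_elt (p : List ℕ → ℕ) (x : ℕ → ℕ) (g : ∀ s, ZMod (p s))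
    (h : ∃ m, ∀ s, Pre s x → m ≤ s.length → g s = 0) :
    ∃ d : BranchGroup p x, ∀ s, Pre s x → (show branchSub p x from d).1 s = g s := by
  classical
  obtain ⟨m, hm⟩ := h
  let S : Finset (List ℕ) := (pre_finite x m).toFinset
  have hS : ∀ s, s ∈ S ↔ Pre s x ∧ s.length < m := fun s => Set.Finite.mem_toFinset _
  let f : Π₀ s : List ℕ, ZMod (p s) := DFinsupp.mk S fun s => g s.1
  have hf : ∀ s, f s = if s ∈ S then g s else 0 := by
    intro s
    rw [DFinsupp.mk_apply]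
    by_cases hs : s ∈ S
    · rw [dif_pos hs, if_pos hs]
    · rw [dif_neg hs, if_neg hs]
  have hmem : f ∈ branchSub p x := by
    intro s hs
    rw [hf] at hs
    by_cases h1 : s ∈ S
    · exact ((hS s).1 h1).1
    · rw [if_neg h1] at hs
      exact absurd rfl hs
  refine ⟨(⟨f, hmem⟩ : branchSub p x), fun s hs => ?_⟩
  have h2 : f s = g s := by
    rw [hf]
    by_cases h1 : s ∈ S
    · rw [if_pos h1]
    · rw [if_neg h1]
      rw [hS] at h1
      exact (hm s hs (by by_contra h3; exact h1 ⟨hs, by omega⟩)).symm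
  exact h2

variable {K : Type 1} [Membership K K] [IsZFC K]

/-- `z` is the triple `((b, r), i)` with `b ∈ B`, `r ⊆ b` and `i ∈ p r`. -/
def Br.IsTri (D : Br K) (z b r i : K) : Prop :=
  z = SigB.op (SigB.op b r) i ∧ b ∈ D.B ∧ Sb r b ∧ ∃ q, SigB.op r q ∈ D.p ∧ i ∈ q

theorem Br.IsTri.dfn (D : Br K) : Dfn fun w : Fin 4 → K => D.IsTri (w 0) (w 1) (w 2) (w 3) := by
  unfold Br.IsTri
  simp (maxDischargeDepth := 50)

@[simp] theorem dfn_isTri (D : Br K) {n : ℕ} {a b c d : (Fin n → K) → K} (ha : DT a) (hb : DT b)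
    (hc : DT c) (hd : DT d) : Dfn fun v => D.IsTri (a v) (b v) (c v) (d v) :=
  dfn4 (Br.IsTri.dfn D) ha hb hc hd

theorem Br.isElt_iff {D : Br K} (hD : D.Is) {x : K} : D.IsElt x ↔
    (∀ z, z ∈ x → ∃ b r i, D.IsTri z b r i) ∧
    (∀ b r, b ∈ D.B → r ∈ D.T → Sb r b → ∃ i, SigB.op (SigB.op b r) i ∈ x ∧
      ∀ i', SigB.op (SigB.op b r) i' ∈ x → i' = i) ∧
    ∀ b, b ∈ D.B → ∃ m, m ∈ (om : K) ∧ ∀ r k, k ∈ (om : K) → r ∈ fs k om → Sb m k → Sb r b →
      SigB.op (SigB.op b r) SigB.em ∈ x := by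
  have hz : ∀ {z : K}, IsZero z ↔ z = SigB.em := isZero_iff
  constructor
  · intro h
    refine ⟨fun z hz => ?_, fun b r hb hr hrb => ?_, fun b hb => ?_⟩
    · obtain ⟨b, r, w, i, q, h1, h2, h3, h4, h5, h6, h7⟩ := h.mem z hz
      exact ⟨b, r, i, by rw [isOrdPair_iff.1 h5, isOrdPair_iff.1 h4], h1, h3, q, val_iff.1 h6, h7⟩
    · obtain ⟨i, h1, h2⟩ := h.val b r hb hr hrb
      exact ⟨i, val2_iff.1 h1, fun i' h' => h2 i' (val2_iff.2 h')⟩
    · obtain ⟨m, hm, h1⟩ := h.fin b hb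
      rw [hD.o_eq] at hm h1
      exact ⟨m, hm, fun r k hk hr hmk hrb => val2_iff.1 (h1 r k _ hk (isMap_iff.2 hr) hmk hrb
        (hz.2 rfl))⟩
  · rintro ⟨h1, h2, h3⟩
    refine ⟨fun z hz => ?_, fun b r hb hr hrb => ?_, fun b hb => ?_⟩
    · obtain ⟨b, r, i, rfl, hb, hrb, q, hq, hi⟩ := h1 z hz
      refine ⟨b, r, _, i, q, hb, ?_, hrb, isOrdPair_iff.2 rfl, isOrdPair_iff.2 rfl,
        val_iff.2 hq, hi⟩
      have h4 := hD.inj.1
      rw [isMap_iff] at h4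
      exact (fs_dom h4 hq).1
    · obtain ⟨i, h4, h5⟩ := h2 b r hb hr hrb
      exact ⟨i, val2_iff.2 h4, fun i' h' => h5 i' (val2_iff.1 h')⟩
    · obtain ⟨m, hm, h4⟩ := h3 b hb
      rw [hD.o_eq]
      refine ⟨m, hm, fun r k z hk hr hmk hrb hz' => ?_⟩
      rw [hz.1 hz']
      exact val2_iff.2 (h4 r k hk (isMap_iff.1 hr) hmk hrb)

theorem Br.Is.dfn_isElt {D : Br K} (hD : D.Is) {n : ℕ} {s : (Fin n → K) → K} (hs : DT s) :
    Dfn fun v => D.IsElt (s v) := by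
  have h : Dfn fun w : Fin 1 → K => D.IsElt (w 0) := by
    simp only [Br.isElt_iff hD]
    simp (maxDischargeDepth := 50)
  exact dfn1 h hs

@[simp] theorem dfn_sumAt {D : Br K} {n : ℕ} {a b c d : (Fin n → K) → K} (ha : DT a) (hb : DT b)
    (hc : DT c) (hd : DT d) : Dfn fun v => D.SumAt (a v) (b v) (c v) (d v) := by
  have h : Dfn fun w : Fin 4 → K => D.SumAt (w 0) (w 1) (w 2) (w 3) := by
    unfold Br.SumAt
    simp only [val2_iff, val_iff]
    simp (maxDischargeDepth := 50)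
  exact dfn4 h ha hb hc hd

@[simp] theorem dfn_agreeAt {n : ℕ} {a b c : (Fin n → K) → K} (ha : DT a) (hb : DT b)
    (hc : DT c) : Dfn fun v => AgreeAt (a v) (b v) (c v) := by
  have h : Dfn fun w : Fin 3 → K => AgreeAt (w 0) (w 1) (w 2) := by
    unfold AgreeAt
    simp only [val2_iff]
    simp (maxDischargeDepth := 50)
  exact dfn3 h ha hb hc

/-- The set of the elements of the group. -/
noncomputable def Br.elts (D : Br K) : K :=
  sp (pw (pd (pd D.B D.T) om)) fun x => D.IsElt x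

theorem Br.Is.mem_elts {D : Br K} (hD : D.Is) {z : K} : z ∈ D.elts ↔ D.IsElt z := by
  unfold Br.elts
  rw [mem_sp (hD.dfn_isElt (by simp))]
  refine and_iff_right_of_imp fun h => mem_pw.2 fun w hw => ?_
  obtain ⟨b, r, i, rfl, hb, -, q, hq, hi⟩ := ((Br.isElt_iff hD).1 h).1 w hw
  have h4 := hD.inj.1
  rw [hD.o_eq, isMap_iff] at h4
  obtain ⟨h5, h6⟩ := fs_dom h4 hq
  exact op_mem_pd.2 ⟨op_mem_pd.2 ⟨hb, h5⟩, om_ord.1 _ h6 i hi⟩

namespace Rd

variable {D : Br K} {J : Type*} {c : J → ℕ → ℕ} {p : List ℕ → ℕ} {bc : J → K}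
  (R : Rd D c p bc)

open Classical in
/-- The reading of `x`. -/
noncomputable def rd (_ : Rd D c p bc) (x : K) : ∀ j, BranchGroup p (c j) :=
  if h : ∃ f : ∀ j, BranchGroup p (c j), ∀ j s, Pre s (c j) →
    SigB.op (SigB.op (bc j) (sq K s)) (nt K (co f j s).val) ∈ x then h.choose else 0

include R

theorem val_of_elt {x : K} (hx : D.IsElt x) {j : J} {s : List ℕ} (hs : Pre s (c j)) :
    ∃ i < p s, SigB.op (SigB.op (bc j) (sq K s)) (nt K i) ∈ x ∧
      ∀ w, SigB.op (SigB.op (bc j) (sq K s)) w ∈ x → w = nt K i := by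
  obtain ⟨h1, h2, -⟩ := (Br.isElt_iff R.is).1 hx
  obtain ⟨i, h3, h4⟩ := h2 (bc j) (sq K s) (R.bc_mem j) (R.sq_mem_T s) (R.sb_iff.2 hs)
  obtain ⟨b, r, i', h5, -, -, q, hq, hi⟩ := h1 _ h3
  obtain ⟨h6, rfl⟩ := SigB.op_inj.1 h5
  obtain ⟨rfl, rfl⟩ := SigB.op_inj.1 h6
  obtain ⟨t, ht, rfl⟩ := R.mem_p.1 hq
  obtain rfl := sq_inj ht
  obtain ⟨n, hn, rfl⟩ := mem_nt.1 hi
  exact ⟨n, hn, h3, h4⟩

theorem rd_spec {x : K} (hx : D.IsElt x) {j : J} {s : List ℕ} (hs : Pre s (c j)) :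
    SigB.op (SigB.op (bc j) (sq K s)) (nt K (co (R.rd x) j s).val) ∈ x := by
  have h : ∃ f : ∀ j, BranchGroup p (c j), ∀ j s, Pre s (c j) →
      SigB.op (SigB.op (bc j) (sq K s)) (nt K (co f j s).val) ∈ x := by
    have h1 : ∀ j, ∃ d : BranchGroup p (c j), ∀ s, Pre s (c j) →
        SigB.op (SigB.op (bc j) (sq K s)) (nt K ((show branchSub p (c j) from d).1 s).val)
          ∈ x := by
      intro j
      classical
      let v : ∀ s, ℕ := fun s => if h : Pre s (c j) then (R.val_of_elt hx h).choose else 0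
      have hv : ∀ s, Pre s (c j) → v s < p s ∧
          SigB.op (SigB.op (bc j) (sq K s)) (nt K (v s)) ∈ x ∧
          ∀ w, SigB.op (SigB.op (bc j) (sq K s)) w ∈ x → w = nt K (v s) := by
        intro s hs
        have : v s = (R.val_of_elt hx hs).choose := dif_pos hs
        rw [this]
        exact (R.val_of_elt hx hs).choose_spec
      obtain ⟨m, hm, h3⟩ := ((Br.isElt_iff R.is).1 hx).2.2 (bc j) (R.bc_mem j)
      obtain ⟨m, rfl⟩ := R.om _ hm
      obtain ⟨d, hd⟩ := exists_branch_elt p (c j) (fun s => (v s : ZMod (p s))) ⟨m, fun s hs hms => by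
        have h4 := h3 (sq K s) (nt K s.length) (nt_mem_om _) (sq_mem_fs s) (sb_nt.2 hms)
          (R.sb_iff.2 hs)
        have h5 : nt K 0 = nt K (v s) := (hv s hs).2.2 _ h4
        rw [← nt_inj h5]
        exact Nat.cast_zero⟩
      refine ⟨d, fun s hs => ?_⟩
      rw [hd s hs, ZMod.val_natCast_of_lt (hv s hs).1]
      exact (hv s hs).2.1
    choose f hf using h1
    exact ⟨f, fun j s hs => hf j s hs⟩
  have h2 : R.rd x = h.choose := dif_pos h
  rw [h2]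
  exact h.choose_spec j s hs

theorem rd_eq {x : K} (hx : D.IsElt x) {j : J} {s : List ℕ} (hs : Pre s (c j)) {i : ℕ}
    (hi : SigB.op (SigB.op (bc j) (sq K s)) (nt K i) ∈ x) : (co (R.rd x) j s).val = i := by
  obtain ⟨n, hn, -, h1⟩ := R.val_of_elt hx hs
  have h2 := h1 _ hi
  have h3 := h1 _ (R.rd_spec hx hs)
  exact nt_inj (h3.trans h2.symm)

theorem op_iff {x : K} (hx : D.IsElt x) {b r w : K} : SigB.op (SigB.op b r) w ∈ x ↔
    ∃ j s, b = bc j ∧ r = sq K s ∧ Pre s (c j) ∧ w = nt K (co (R.rd x) j s).val := by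
  constructor
  · intro h
    obtain ⟨b', r', i', h5, hb, hrb, q, hq, hi⟩ := ((Br.isElt_iff R.is).1 hx).1 _ h
    obtain ⟨h6, rfl⟩ := SigB.op_inj.1 h5
    obtain ⟨rfl, rfl⟩ := SigB.op_inj.1 h6
    obtain ⟨j, rfl⟩ := (R.mem_B _).1 hb
    obtain ⟨s, rfl, rfl⟩ := R.mem_p.1 hq
    have hs := R.sb_iff.1 hrb
    obtain ⟨i, -, rfl⟩ := mem_nt.1 hi
    exact ⟨j, s, rfl, rfl, hs, by rw [R.rd_eq hx hs h]⟩
  · rintro ⟨j, s, rfl, rfl, hs, rfl⟩
    exact R.rd_spec hx hs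

theorem val_iff {x : K} (hx : D.IsElt x) {b r w : K} : Val2 x b r w ↔
    ∃ j s, b = bc j ∧ r = sq K s ∧ Pre s (c j) ∧ w = nt K (co (R.rd x) j s).val := by
  rw [val2_iff, R.op_iff hx]

theorem op_sq_iff {x : K} (hx : D.IsElt x) {j : J} {s : List ℕ} {w : K} :
    SigB.op (SigB.op (bc j) (sq K s)) w ∈ x ↔ Pre s (c j) ∧ w = nt K (co (R.rd x) j s).val := by
  rw [R.op_iff hx]
  constructor
  · rintro ⟨j', s', h1, h2, h3, h4⟩
    obtain rfl := R.bc_inj h1
    obtain rfl := sq_inj h2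
    exact ⟨h3, h4⟩
  · rintro ⟨h1, h2⟩
    exact ⟨j, s, rfl, rfl, h1, h2⟩

theorem val_sq_iff {x : K} (hx : D.IsElt x) {j : J} {s : List ℕ} {w : K} :
    Val2 x (bc j) (sq K s) w ↔ Pre s (c j) ∧ w = nt K (co (R.rd x) j s).val := by
  rw [val2_iff, R.op_sq_iff hx]

theorem elt_ext {x y : K} (hx : D.IsElt x) (hy : D.IsElt y)
    (h : ∀ b r w, SigB.op (SigB.op b r) w ∈ x ↔ SigB.op (SigB.op b r) w ∈ y) : x = y := by
  refine ext' fun z => ⟨fun hz => ?_, fun hz => ?_⟩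
  · obtain ⟨b, r, i, rfl, -⟩ := ((Br.isElt_iff R.is).1 hx).1 z hz
    exact (h _ _ _).1 hz
  · obtain ⟨b, r, i, rfl, -⟩ := ((Br.isElt_iff R.is).1 hy).1 z hz
    exact (h _ _ _).2 hz

theorem rd_inj {x y : K} (hx : D.IsElt x) (hy : D.IsElt y) (h : R.rd x = R.rd y) : x = y :=
  R.elt_ext hx hy fun b r w => by rw [R.op_iff hx, R.op_iff hy, h]

theorem co_eq_of_val {x y : ∀ j, BranchGroup p (c j)} {j : J}
    (h : ∀ s, Pre s (c j) → (co x j s).val = (co y j s).val) : x j = y j := by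
  refine co_ext fun s => ?_
  by_cases hs : Pre s (c j)
  · have : NeZero (p s) := ⟨(R.prime s).ne_zero⟩
    exact ZMod.val_injective _ (h s hs)
  · rw [co_eq_zero hs, co_eq_zero hs]

theorem sumAt_iff {x y z : K} (hx : D.IsElt x) (hy : D.IsElt y) (hz : D.IsElt z) {j : J} :
    D.SumAt (bc j) x y z ↔ R.rd x j = R.rd y j + R.rd z j := by
  have hadd := R.is.add_om
  constructor
  · intro h
    have h1 : R.rd x j = (R.rd y + R.rd z) j := by
      refine co_ext fun s => ?_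
      by_cases hs : Pre s (c j)
      · obtain ⟨w, h1, h2⟩ := h (sq K s) (nt K (p s)) _ _ _ (R.val_p_iff.2 ⟨s, rfl, rfl⟩)
          ((R.val_sq_iff hx).2 ⟨hs, rfl⟩) ((R.val_sq_iff hy).2 ⟨hs, rfl⟩)
          ((R.val_sq_iff hz).2 ⟨hs, rfl⟩)
        rw [co_add]
        refine (zmod_sum_iff (R.prime s).pos).2 ?_
        have h3 := hadd.val.1 h1
        rcases h2 with rfl | h2
        · exact Or.inl (nt_inj h3).symm
        · exact Or.inr (nt_inj (h3.symm.trans (hadd.val.1 h2)))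
      · rw [co_eq_zero hs, co_eq_zero hs]
    exact h1
  · intro h r q i k l hq hi hk hl
    obtain ⟨s, rfl, rfl⟩ := R.val_p_iff.1 hq
    obtain ⟨hs, rfl⟩ := (R.val_sq_iff hx).1 hi
    obtain ⟨-, rfl⟩ := (R.val_sq_iff hy).1 hk
    obtain ⟨-, rfl⟩ := (R.val_sq_iff hz).1 hl
    have h1 : co (R.rd x) j s = co (R.rd y) j s + co (R.rd z) j s := by
      rw [← co_add]
      exact co_congr (x := R.rd x) (y := R.rd y + R.rd z) h s
    refine ⟨_, hadd.val.2 rfl, ?_⟩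
    rcases (zmod_sum_iff (R.prime s).pos).1 h1 with h2 | h2
    · exact Or.inl (by rw [h2])
    · exact Or.inr (hadd.val.2 (by rw [h2]))

theorem agreeAt_iff {x y : K} (hx : D.IsElt x) (hy : D.IsElt y) {j : J} :
    AgreeAt (bc j) x y ↔ R.rd x j = R.rd y j := by
  constructor
  · intro h
    refine R.co_eq_of_val fun s hs => ?_
    have h1 := (h (sq K s) _).1 ((R.val_sq_iff hx).2 ⟨hs, rfl⟩)
    exact nt_inj ((R.val_sq_iff hy).1 h1).2
  · intro h r i
    have key : ∀ {x y : K}, D.IsElt x → D.IsElt y → R.rd x j = R.rd y j →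
        Val2 x (bc j) r i → Val2 y (bc j) r i := by
      intro x y hx hy h h1
      obtain ⟨j', s, h2, rfl, h3, rfl⟩ := (R.val_iff hx).1 h1
      obtain rfl := R.bc_inj h2
      refine (R.val_sq_iff hy).2 ⟨h3, ?_⟩
      rw [co_congr h s]
    exact ⟨key hx hy h, key hy hx h.symm⟩

/-- Elements given by definable coordinates. -/
theorem exists_of_dfn {S : K → K → K → Prop} (hS : Dfn fun w : Fin 3 → K => S (w 0) (w 1) (w 2))
    (x : ∀ j, BranchGroup p (c j)) (h : ∀ j s, Pre s (c j) → ∀ i < p s,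
      (S (bc j) (sq K s) (nt K i) ↔ (co x j s).val = i)) : ∃ z, D.IsElt z ∧ R.rd z = x := by
  have hS' : ∀ {n : ℕ} {a b d : (Fin n → K) → K}, DT a → DT b → DT d →
      Dfn fun v => S (a v) (b v) (d v) := fun ha hb hd => dfn3 hS ha hb hd
  have hd : Dfn fun w : Fin 1 → K => ∃ b r i, D.IsTri (w 0) b r i ∧ S b r i := by
    simp (maxDischargeDepth := 50) [hS']
  let z : K := sp (pd (pd D.B D.T) SigB.om) fun t => ∃ b r i, D.IsTri t b r i ∧ S b r i
  have hz : ∀ b r i, SigB.op (SigB.op b r) i ∈ z ↔ ∃ j s n, b = bc j ∧ r = sq K s ∧ i = nt K n ∧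
      Pre s (c j) ∧ n < p s ∧ (co x j s).val = n := by
    intro b r i
    constructor
    · intro h1
      obtain ⟨-, b', r', i', ⟨h2, h3, h4, q, hq, hi⟩, h5⟩ := (mem_sp hd).1 h1
      obtain ⟨h6, rfl⟩ := SigB.op_inj.1 h2
      obtain ⟨rfl, rfl⟩ := SigB.op_inj.1 h6
      obtain ⟨j, rfl⟩ := (R.mem_B _).1 h3
      obtain ⟨s, rfl, rfl⟩ := R.mem_p.1 hq
      obtain ⟨n, hn, rfl⟩ := mem_nt.1 hi
      have hs := R.sb_iff.1 h4
      exact ⟨j, s, n, rfl, rfl, rfl, hs, hn, (h j s hs n hn).1 h5⟩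
    · rintro ⟨j, s, n, rfl, rfl, rfl, hs, hn, h1⟩
      refine (mem_sp hd).2 ⟨op_mem_pd.2 ⟨op_mem_pd.2 ⟨R.bc_mem j, R.sq_mem_T s⟩, nt_mem_om n⟩,
        bc j, sq K s, nt K n, ⟨rfl, R.bc_mem j, R.sb_iff.2 hs, nt K (p s), R.mem_p.2 ⟨s, rfl, rfl⟩,
        nt_mem_nt.2 hn⟩, (h j s hs n hn).2 h1⟩
  have hlt : ∀ j s, (co x j s).val < p s := fun j s => by
    have : NeZero (p s) := ⟨(R.prime s).ne_zero⟩
    exact ZMod.val_lt _
  have hE : D.IsElt z := by
    refine (Br.isElt_iff R.is).2 ⟨fun w hw => ?_, fun b r hb hr hrb => ?_, fun b hb => ?_⟩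
    · obtain ⟨-, b', r', i', h2, -⟩ := (mem_sp hd).1 hw
      exact ⟨b', r', i', h2⟩
    · obtain ⟨j, rfl⟩ := (R.mem_B _).1 hb
      obtain ⟨s, rfl⟩ := R.mem_T.1 hr
      have hs := R.sb_iff.1 hrb
      refine ⟨nt K (co x j s).val, (hz _ _ _).2 ⟨j, s, _, rfl, rfl, rfl, hs, hlt j s, rfl⟩,
        fun i' hi' => ?_⟩
      obtain ⟨j', s', n, h1, h2, h3, -, -, h4⟩ := (hz _ _ _).1 hi'
      obtain rfl := R.bc_inj h1
      obtain rfl := sq_inj h2
      rw [h3, h4]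
    · obtain ⟨j, rfl⟩ := (R.mem_B _).1 hb
      obtain ⟨m, hm⟩ : ∃ m : ℕ, ∀ s, m ≤ s.length → co x j s = 0 := by
        refine ⟨(sup x j).sup List.length + 1, fun s hs => ?_⟩
        by_contra h1
        have h2 : s.length ≤ (sup x j).sup List.length := Finset.le_sup (f := List.length) (mem_sup.2 h1)
        omega
      refine ⟨nt K m, nt_mem_om m, fun r k hk hr hmk hrb => ?_⟩
      obtain ⟨k, rfl⟩ := R.om _ hk
      obtain ⟨s, rfl, rfl⟩ := (mem_fs_nt_om R.om).1 hr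
      refine (hz _ _ _).2 ⟨j, s, 0, rfl, rfl, rfl, R.sb_iff.1 hrb, (R.prime s).pos, ?_⟩
      rw [hm s (sb_nt.1 hmk), ZMod.val_zero]
  refine ⟨z, hE, ?_⟩
  funext j
  refine R.co_eq_of_val fun s hs => R.rd_eq hE hs ?_
  exact (hz _ _ _).2 ⟨j, s, _, rfl, rfl, rfl, hs, hlt j s, rfl⟩

theorem dfn_op {x : K} {n : ℕ} {a b d : (Fin n → K) → K} (ha : DT a) (hb : DT b) (hd : DT d) :
    Dfn fun v => SigB.op (SigB.op (a v) (b v)) (d v) ∈ x := by
  simp (maxDischargeDepth := 50) [ha, hb, hd]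

theorem exists_zero : ∃ z, D.IsElt z ∧ R.rd z = 0 := by
  refine R.exists_of_dfn (S := fun _ _ i => i = SigB.em) (by simp) 0 fun j s _ i _ => ?_
  rw [co_zero, ZMod.val_zero]
  constructor
  · intro h
    exact (nt_inj (K := K) (m := i) (n := 0) h).symm
  · rintro rfl
    rfl

theorem exists_add {x y : K} (hx : D.IsElt x) (hy : D.IsElt y) :
    ∃ z, D.IsElt z ∧ R.rd z = R.rd x + R.rd y := by
  have hadd := R.is.add_om
  refine R.exists_of_dfn (S := fun b r i => ∃ k l q t, SigB.op (SigB.op b r) k ∈ x ∧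
    SigB.op (SigB.op b r) l ∈ y ∧ SigB.op r q ∈ D.p ∧ SigB.op (SigB.op k l) t ∈ D.ad ∧
      (t = i ∨ SigB.op (SigB.op i q) t ∈ D.ad)) (by simp (maxDischargeDepth := 50)) _
    fun j s hs i hi => ?_
  have h1 : (co (R.rd x + R.rd y) j s).val = i ↔
      (co (R.rd x) j s).val + (co (R.rd y) j s).val = i ∨
      (co (R.rd x) j s).val + (co (R.rd y) j s).val = i + p s := by
    rw [zmod_val_eq (R.prime s).pos hi, co_add, eq_comm,
      zmod_sum_iff (R.prime s).pos, ZMod.val_natCast_of_lt hi]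
  rw [h1]
  constructor
  · rintro ⟨k, l, q, t, h2, h3, h4, h5, h6⟩
    obtain ⟨-, rfl⟩ := (R.op_sq_iff hx).1 h2
    obtain ⟨-, rfl⟩ := (R.op_sq_iff hy).1 h3
    have h7 := (R.val_p _ _).1 (show SigB.op (sq K s) (nt K (p s)) ∈ D.p from (R.val_p s _).2 rfl)
    obtain ⟨s', h8, rfl⟩ := R.mem_p.1 h4
    obtain rfl := sq_inj h8
    rw [← val2_iff, hadd.val] at h5
    rcases h6 with rfl | h6
    · exact Or.inl (nt_inj h5).symm
    · rw [← val2_iff, hadd.val] at h6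
      exact Or.inr (nt_inj (h5.symm.trans h6))
  · intro h2
    refine ⟨_, _, nt K (p s), _, (R.op_sq_iff hx).2 ⟨hs, rfl⟩, (R.op_sq_iff hy).2 ⟨hs, rfl⟩,
      R.mem_p.2 ⟨s, rfl, rfl⟩, val2_iff.1 (hadd.val.2 rfl), ?_⟩
    rcases h2 with h2 | h2
    · exact Or.inl (by rw [h2])
    · exact Or.inr (val2_iff.1 (hadd.val.2 (by rw [h2])))

theorem exists_sub {x y : K} (hx : D.IsElt x) (hy : D.IsElt y) :
    ∃ z, D.IsElt z ∧ R.rd z = R.rd x - R.rd y := by
  have hadd := R.is.add_om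
  refine R.exists_of_dfn (S := fun b r i => ∃ k l q t, SigB.op (SigB.op b r) k ∈ x ∧
    SigB.op (SigB.op b r) l ∈ y ∧ SigB.op r q ∈ D.p ∧ SigB.op (SigB.op l i) t ∈ D.ad ∧
      (t = k ∨ SigB.op (SigB.op k q) t ∈ D.ad)) (by simp (maxDischargeDepth := 50)) _
    fun j s hs i hi => ?_
  have h1 : (co (R.rd x - R.rd y) j s).val = i ↔
      (co (R.rd y) j s).val + i = (co (R.rd x) j s).val ∨
      (co (R.rd y) j s).val + i = (co (R.rd x) j s).val + p s := by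
    have h2 := zmod_sum_iff (R.prime s).pos (a := co (R.rd x) j s) (b := co (R.rd y) j s)
      (c := (i : ZMod (p s)))
    rw [ZMod.val_natCast_of_lt hi] at h2
    rw [zmod_val_eq (R.prime s).pos hi, co_sub, ← h2, sub_eq_iff_eq_add, add_comm]
  rw [h1]
  constructor
  · rintro ⟨k, l, q, t, h2, h3, h4, h5, h6⟩
    obtain ⟨-, rfl⟩ := (R.op_sq_iff hx).1 h2
    obtain ⟨-, rfl⟩ := (R.op_sq_iff hy).1 h3
    obtain ⟨s', h8, rfl⟩ := R.mem_p.1 h4
    obtain rfl := sq_inj h8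
    rw [← val2_iff, hadd.val] at h5
    rcases h6 with rfl | h6
    · exact Or.inl (nt_inj h5).symm
    · rw [← val2_iff, hadd.val] at h6
      exact Or.inr (nt_inj (h5.symm.trans h6))
  · intro h2
    refine ⟨_, _, nt K (p s), _, (R.op_sq_iff hx).2 ⟨hs, rfl⟩, (R.op_sq_iff hy).2 ⟨hs, rfl⟩,
      R.mem_p.2 ⟨s, rfl, rfl⟩, val2_iff.1 (hadd.val.2 rfl), ?_⟩
    rcases h2 with h2 | h2
    · exact Or.inl (by rw [h2])
    · exact Or.inr (val2_iff.1 (hadd.val.2 (by rw [h2])))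

theorem exists_cmp {x : K} (hx : D.IsElt x) (t : List ℕ) :
    ∃ z, D.IsElt z ∧ R.rd z = cmp t (R.rd x) := by
  refine R.exists_of_dfn (S := fun b r i => (r = sq K t ∧ SigB.op (SigB.op b r) i ∈ x) ∨
    (r ≠ sq K t ∧ i = SigB.em)) (by simp (maxDischargeDepth := 50)) _ fun j s hs i hi => ?_
  by_cases h : s = t
  · subst h
    rw [co_cmp_self, R.op_sq_iff hx]
    constructor
    · rintro (⟨-, -, h1⟩ | ⟨h1, -⟩)
      · exact (nt_inj h1).symm
      · exact absurd rfl h1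
    · rintro rfl
      exact Or.inl ⟨rfl, hs, rfl⟩
  · rw [co_cmp_of_ne h, ZMod.val_zero]
    have h1 : sq K s ≠ sq K t := fun h1 => h (sq_inj h1)
    constructor
    · rintro (⟨h2, -⟩ | ⟨-, h2⟩)
      · exact absurd h2 h1
      · exact (nt_inj (K := K) (m := i) (n := 0) h2).symm
    · rintro rfl
      exact Or.inr ⟨h1, rfl⟩

/-- The group of the readings. -/
noncomputable def G0 : AddSubgroup (∀ j, BranchGroup p (c j)) where
  carrier := {x | ∃ z, D.IsElt z ∧ R.rd z = x}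
  zero_mem' := R.exists_zero
  add_mem' := by
    rintro _ _ ⟨x, hx, rfl⟩ ⟨y, hy, rfl⟩
    exact R.exists_add hx hy
  neg_mem' := by
    rintro _ ⟨x, hx, rfl⟩
    obtain ⟨z, hz, hz0⟩ := R.exists_zero
    have h := R.exists_sub hz hx
    rwa [hz0, zero_sub] at h

theorem mem_G0 {x : ∀ j, BranchGroup p (c j)} : x ∈ R.G0 ↔ ∃ z, D.IsElt z ∧ R.rd z = x := Iff.rfl

theorem cmp_mem_G0 {x : ∀ j, BranchGroup p (c j)} (hx : x ∈ R.G0) (s : List ℕ) :
    cmp s x ∈ R.G0 := by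
  obtain ⟨z, hz, rfl⟩ := hx
  exact R.exists_cmp hz s

end Rd

end Pool.Agent.Unif
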