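import Pool.Agent.Work.MP_c629c8_al.Mod.NRead
import Pool.Agent.Work.MP_c629c8_al.Mod.NFin

/-!
# The external reading of closed subgroups and of Cauchy families
-/

set_option linter.unusedSectionVars false

namespace Pool.Agent.Unif

open Pool.Agent.SigB Pool.Agent.Frc Pool.Agent.Forc Pool.Agent.GPA
open Pool.Agent.Work.MP_c629c8_al

variable {K : Type 1} [Membership K K] [IsZFC K]

theorem Br.Is.dfn_isClosedSubgroup {D : Br K} (hD : D.Is) {n : ℕ} {s : (Fin n → K) → K}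
    (hs : DT s) : Dfn fun v => D.IsClosedSubgroup (s v) := by
  have hE := fun {n : ℕ} {s : (Fin n → K) → K} (hs : DT s) => hD.dfn_isElt hs
  have h : ∀ H, D.IsClosedSubgroup H ↔ (∀ x, x ∈ H → D.IsElt x) ∧ (∃ x, x ∈ H) ∧
      (∀ x y z, x ∈ H → y ∈ H → D.IsElt z → (∀ b, b ∈ D.B → D.SumAt b x y z) → z ∈ H) ∧
      ∀ x, D.IsElt x → (∀ F, IsFinite F → Sb F D.B →
        ∃ h, h ∈ H ∧ ∀ b, b ∈ F → AgreeAt b x h) → x ∈ H :=
    fun H => ⟨fun h => ⟨h.elt, h.nonempty, h.sub, h.closed⟩,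
      fun h => ⟨h.1, h.2.1, h.2.2.1, h.2.2.2⟩⟩
  have h1 : Dfn fun w : Fin 1 → K => D.IsClosedSubgroup (w 0) := by
    simp only [h, isFinite_iff]
    simp (maxDischargeDepth := 50) [hE]
  exact dfn1 h1 hs

namespace Rd

variable {D : Br K} {J : Type*} {c : J → ℕ → ℕ} {p : List ℕ → ℕ} {bc : J → K}
  (R : Rd D c p bc) {H : K}

/-- The reading of a closed subgroup. -/
noncomputable def rH (hH : D.IsClosedSubgroup H) : AddSubgroup (∀ j, BranchGroup p (c j)) :=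
  AddSubgroup.ofSub {x | ∃ z, z ∈ H ∧ R.rd z = x} (by
    obtain ⟨z, hz⟩ := hH.nonempty
    exact ⟨_, z, hz, rfl⟩) (by
    rintro _ ⟨x, hx, rfl⟩ _ ⟨y, hy, rfl⟩
    obtain ⟨z, hz, h⟩ := R.exists_sub (hH.elt x hx) (hH.elt y hy)
    refine ⟨z, hH.sub x y z hx hy hz fun b hb => ?_, ?_⟩
    · obtain ⟨j, rfl⟩ := (R.mem_B b).1 hb
      rw [R.sumAt_iff (hH.elt x hx) (hH.elt y hy) hz, h]
      show R.rd x j = R.rd y j + (R.rd x j - R.rd y j)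
      abel
    · rw [h, sub_eq_add_neg])

theorem mem_rH (hH : D.IsClosedSubgroup H) {x : ∀ j, BranchGroup p (c j)} :
    x ∈ R.rH hH ↔ ∃ z, z ∈ H ∧ R.rd z = x := Iff.rfl

theorem rH_le (hH : D.IsClosedSubgroup H) : R.rH hH ≤ R.G0 := by
  rintro _ ⟨z, hz, rfl⟩
  exact ⟨z, hH.elt z hz, rfl⟩

theorem rd_mem_rH (hH : D.IsClosedSubgroup H) {z : K} (hz : D.IsElt z) :
    R.rd z ∈ R.rH hH ↔ z ∈ H := by
  constructor
  · rintro ⟨w, hw, h⟩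
    rwa [← R.rd_inj (hH.elt w hw) hz h]
  · exact fun h => ⟨z, h, rfl⟩

include R in
theorem isFinite_iff {F : K} : (IsFinite F ∧ IsSub F D.B) ↔ ∃ E : Finset J, F = fc bc E :=
  isFinite_iff_fc R.om R.mem_B

include R in
theorem fc_fin (E : Finset J) : IsFinite (fc bc E) ∧ IsSub (fc bc E) D.B :=
  R.isFinite_iff.2 ⟨E, rfl⟩

theorem relClosed (hH : D.IsClosedSubgroup H) : RelClosed R.G0 (R.rH hH) := by
  rintro _ ⟨x, hx, rfl⟩ h
  refine (R.rd_mem_rH hH hx).2 (hH.closed x hx fun F hF hFB => ?_)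
  obtain ⟨E, rfl⟩ := R.isFinite_iff.1 ⟨hF, hFB⟩
  obtain ⟨_, ⟨z, hz, rfl⟩, h1⟩ := h E
  refine ⟨z, hz, fun b hb => ?_⟩
  obtain ⟨j, hj, rfl⟩ := mem_fc.1 hb
  exact (R.agreeAt_iff hx (hH.elt z hz)).2 (h1 j hj).symm

/-- The reading of a family. -/
noncomputable def ra (a : K) (E : Finset J) : ∀ j, BranchGroup p (c j) := R.rd (ap a (fc bc E))

theorem exists_val_a {a : K} (ha : D.IsCauchy H a) (E : Finset J) :
    ∃ x, Val a (fc bc E) x ∧ D.IsElt x ∧ R.rd x = R.ra a E := by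
  obtain ⟨x, hx, hu⟩ := ha.val (fc bc E) (R.fc_fin E).1 (R.fc_fin E).2
  refine ⟨x, hx, ha.elt _ _ hx, ?_⟩
  unfold ra
  rw [ap_eq (SigB.val_iff.1 hx) fun y hy => hu y (SigB.val_iff.2 hy)]

theorem val_a {a : K} (ha : D.IsCauchy H a) {E : Finset J} {x : K} :
    Val a (fc bc E) x ↔ D.IsElt x ∧ R.rd x = R.ra a E := by
  obtain ⟨y, hy, hy1, hy2⟩ := R.exists_val_a ha E
  constructor
  · intro hx
    obtain ⟨z, -, hu⟩ := ha.val (fc bc E) (R.fc_fin E).1 (R.fc_fin E).2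
    rw [hu x hx, ← hu y hy]
    exact ⟨hy1, hy2⟩
  · rintro ⟨hx, h⟩
    rwa [R.rd_inj hx hy1 (h.trans hy2.symm)]

theorem exists_of_val_a {a : K} (ha : D.IsCauchy H a) {F x : K} (h : Val a F x) :
    ∃ E : Finset J, F = fc bc E ∧ D.IsElt x ∧ R.rd x = R.ra a E := by
  obtain ⟨E, rfl⟩ := R.isFinite_iff.1 (ha.dom F x h)
  exact ⟨E, rfl, (R.val_a ha).1 h⟩

theorem ra_mem {a : K} (ha : D.IsCauchy H a) (E : Finset J) : R.ra a E ∈ R.G0 := by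
  obtain ⟨x, -, h1, h2⟩ := R.exists_val_a ha E
  exact ⟨x, h1, h2⟩

theorem coh (hH : D.IsClosedSubgroup H) {a : K} (ha : D.IsCauchy H a) :
    Coh (R.rH hH) (R.ra a) := by
  intro E E' hE
  obtain ⟨x, h1, h2, h3⟩ := R.exists_val_a ha E
  obtain ⟨x', h1', h2', h3'⟩ := R.exists_val_a ha E'
  obtain ⟨h, hh, h4⟩ := ha.coh _ _ _ _ h1 h1' ((sb_fc R.bc_inj).2 hE)
  refine ⟨R.rd h, ⟨h, hh, rfl⟩, fun j hj => ?_⟩
  rw [← h3, ← h3']
  exact (R.sumAt_iff h2' h2 (hH.elt h hh)).1 (h4 (bc j) (mem_fc.2 ⟨j, hj, rfl⟩))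

/-- The readings of the limits of a family. -/
theorem limit_iff (hH : D.IsClosedSubgroup H) {a : K} (ha : D.IsCauchy H a) {y : K}
    (hy : D.IsElt y) :
    (∀ F x, Val a F x → ∃ h, h ∈ H ∧ ∀ b, b ∈ F → D.SumAt b y x h) ↔
      ∀ E : Finset J, ∃ h ∈ R.rH hH, ∀ j ∈ E, R.rd y j = R.ra a E j + h j := by
  constructor
  · intro h E
    obtain ⟨x, h1, h2, h3⟩ := R.exists_val_a ha E
    obtain ⟨g, hg, h4⟩ := h _ _ h1
    refine ⟨R.rd g, ⟨g, hg, rfl⟩, fun j hj => ?_⟩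
    rw [← h3]
    exact (R.sumAt_iff hy h2 (hH.elt g hg)).1 (h4 (bc j) (mem_fc.2 ⟨j, hj, rfl⟩))
  · intro h F x hx
    obtain ⟨E, rfl, h2, h3⟩ := R.exists_of_val_a ha hx
    obtain ⟨_, ⟨g, hg, rfl⟩, h4⟩ := h E
    refine ⟨g, hg, fun b hb => ?_⟩
    obtain ⟨j, hj, rfl⟩ := mem_fc.1 hb
    refine (R.sumAt_iff hy h2 (hH.elt g hg)).2 ?_
    rw [h3]
    exact h4 j hj

end Rd

end Pool.Agent.Unif
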