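import Pool.Agent.Work.MP_c629c8_al.Grp.Rel

/-!
# Good partial functions on the nodes

A partial function `f` on the pairs (index, node) is good if at every node and for every finite set
of indices its values, and the zeros prescribed by `n`, are those of `a(E) + h` for some `h ∈ H`.
-/

namespace Pool.Agent.Work.MP_c629c8_al

variable {I : Type*} {p : List ℕ → ℕ} {c : I → ℕ → ℕ}

/-- The partial function with the graph `f` is good. -/
def Gd (H : AddSubgroup (∀ i, BranchGroup p (c i))) (a : Finset I → ∀ i, BranchGroup p (c i))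
    (n : I → ℕ) (f : I → List ℕ → ℕ → Prop) : Prop :=
  ∀ (s : List ℕ) (E : Finset I), ∃ h ∈ H, ∀ i ∈ E, Pre s (c i) →
    (∀ v, f i s v → (v : ZMod (p s)) = co (a E) i s + co h i s) ∧
      (n i ≤ s.length → co (a E) i s + co h i s = 0)

variable {H : AddSubgroup (∀ i, BranchGroup p (c i))}
  {a : Finset I → ∀ i, BranchGroup p (c i)} {n : I → ℕ} {f g : I → List ℕ → ℕ → Prop}

theorem gd_mono (h : ∀ i s v, g i s v → f i s v) (hf : Gd H a n f) : Gd H a n g := by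
  intro s E
  obtain ⟨x, hx, h1⟩ := hf s E
  exact ⟨x, hx, fun i hi hp => ⟨fun v hv => (h1 i hi hp).1 v (h i s v hv), (h1 i hi hp).2⟩⟩

theorem gd_empty (ha : Coh H a) (hn : ∀ s (E : Finset I),
    (∀ i ∈ E, Pre s (c i) ∧ n i ≤ s.length) → ∃ h ∈ H, ∀ i ∈ E, co h i s = co (a E) i s) :
    Gd H a n (fun _ _ _ => False) := by
  classical
  intro s E
  obtain ⟨h, hh, h1⟩ := hn s (E.filter fun i => Pre s (c i) ∧ n i ≤ s.length) fun i hi =>
    (Finset.mem_filter.1 hi).2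
  obtain ⟨h', hh', h2⟩ := ha _ E (Finset.filter_subset (fun i => Pre s (c i) ∧ n i ≤ s.length) E)
  refine ⟨-h - h', H.sub_mem (H.neg_mem hh) hh', fun i hi hp => ⟨fun v hv => hv.elim, fun hl => ?_⟩⟩
  have hi' : i ∈ E.filter fun i => Pre s (c i) ∧ n i ≤ s.length :=
    Finset.mem_filter.2 ⟨hi, hp, hl⟩
  have h3 : co (a E) i s = co (a (E.filter fun i => Pre s (c i) ∧ n i ≤ s.length) + h') i s :=
    co_congr (h2 i hi') s
  rw [h3, co_add, co_sub, co_neg, h1 i hi']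
  abel

theorem gd_step (hp : ∀ s, (p s).Prime) (ha : Coh H a) (hf : Gd H a n f) (i₀ : I)
    (s₀ : List ℕ) (h0 : ∀ v, ¬ f i₀ s₀ v) (hpre : Pre s₀ (c i₀)) :
    ∃ v, v < p s₀ ∧ Gd H a n (fun i s w => f i s w ∨ (i = i₀ ∧ s = s₀ ∧ w = v)) := by
  classical
  by_contra hcon
  push Not at hcon
  have h1 : ∀ v : ℕ, ∃ E : Finset I, v < p s₀ → ∀ h ∈ H, ¬ ∀ i ∈ E, Pre s₀ (c i) →
      (∀ w, (f i s₀ w ∨ (i = i₀ ∧ w = v)) → (w : ZMod (p s₀)) = co (a E) i s₀ + co h i s₀) ∧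
        (n i ≤ s₀.length → co (a E) i s₀ + co h i s₀ = 0) := by
    intro v
    by_cases hv : v < p s₀
    · have h2 := hcon v hv
      unfold Gd at h2
      push Not at h2
      obtain ⟨s, E, h3⟩ := h2
      refine ⟨E, fun _ h hh h4 => ?_⟩
      by_cases hs : s = s₀
      · subst hs
        obtain ⟨i, hi, hpi, h5⟩ := h3 h hh
        obtain ⟨h6, h7⟩ := h4 i hi hpi
        refine h5 (fun w hw => h6 w ?_) |>.2 (h7 (h5 (fun w hw => h6 w ?_)).1)
        · exact hw.imp id fun h => ⟨h.1, h.2.2⟩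
        · exact hw.imp id fun h => ⟨h.1, h.2.2⟩
      · obtain ⟨h', hh', h5⟩ := hf s E
        obtain ⟨i, hi, hpi, h6⟩ := h3 h' hh'
        obtain ⟨h7, h8⟩ := h5 i hi hpi
        have h9 := h6 fun w hw => h7 w (hw.resolve_right fun h => hs h.2.1)
        exact h9.2 (h8 h9.1)
    · exact ⟨∅, fun h => absurd h hv⟩
  choose E hE using h1
  let F : Finset I := insert i₀ ((Finset.range (p s₀)).biUnion E)
  obtain ⟨h, hh, h2⟩ := hf s₀ F
  have : NeZero (p s₀) := ⟨(hp s₀).ne_zero⟩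
  let v : ℕ := (co (a F) i₀ s₀ + co h i₀ s₀).val
  have hv : v < p s₀ := ZMod.val_lt _
  have hsub : E v ⊆ F := fun i hi => Finset.mem_insert_of_mem
    (Finset.mem_biUnion.2 ⟨v, Finset.mem_range.2 hv, hi⟩)
  obtain ⟨h', hh', h3⟩ := ha (E v) F hsub
  refine hE v hv (h' + h) (H.add_mem hh' hh) fun i hi hpi => ?_
  have h4 : co (a F) i s₀ = co (a (E v) + h') i s₀ := co_congr (h3 i hi) s₀
  rw [co_add] at h4
  obtain ⟨h5, h6⟩ := h2 i (hsub hi) hpi
  rw [co_add, ← add_assoc, ← h4]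
  refine ⟨fun w hw => ?_, h6⟩
  rcases hw with hw | ⟨rfl, rfl⟩
  · exact h5 w hw
  · exact ZMod.natCast_zmod_val _

theorem gd_zero (hf : Gd H a n f) {i : I} {s : List ℕ} {v : ℕ} (h : f i s v)
    (hpre : Pre s (c i)) (hn : n i ≤ s.length) (hv : v < p s) : v = 0 := by
  classical
  obtain ⟨h', -, h1⟩ := hf s {i}
  obtain ⟨h2, h3⟩ := h1 i (Finset.mem_singleton_self i) hpre
  have h4 : (v : ZMod (p s)) = 0 := (h2 v h).trans (h3 hn)
  rw [ZMod.natCast_eq_zero_iff] at h4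
  exact Nat.eq_zero_of_dvd_of_lt h4 hv

theorem gd_nodes (y : ∀ i, BranchGroup p (c i)) (hf : Gd H a n f)
    (hy : ∀ i s, Pre s (c i) → ∃ v, f i s v ∧ co y i s = v) :
    ∀ s (E : Finset I), ∃ h ∈ H, ∀ i ∈ E, Pre s (c i) →
      co y i s = co (a E) i s + co h i s := by
  intro s E
  obtain ⟨h, hh, h1⟩ := hf s E
  refine ⟨h, hh, fun i hi hpre => ?_⟩
  obtain ⟨v, hv, h2⟩ := hy i s hpre
  rw [h2]
  exact (h1 i hi hpre).1 v hv

end Pool.Agent.Work.MP_c629c8_al
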