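import Pool.Agent.Work.MP_c629c8_al.Mod.NRead2
import Pool.Agent.Work.MP_c629c8_al.Mod.NodeX
import Pool.Agent.Work.MP_c629c8_al.Mod.Cpt

/-!
# The limit of a Cauchy family, from a uniformising function

Everything takes place in a model `K` of ZFC with standard natural numbers.
-/

set_option linter.unusedSectionVars false

universe v

namespace Pool.Agent.Unif

open Pool.Agent.SigB Pool.Agent.Frc Pool.Agent.Forc Pool.Agent.GPA Pool.Agent.Sep
open Pool.Agent.Work.MP_c629c8_al (BranchGroup Pre co cmp RelClosed Coh Gd gd_mono gd_empty gd_step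
  gd_zero gd_nodes limit_of_nodes)

variable {K : Type 1} [Membership K K] [IsZFC K] {J : Type v}

/-- `i = x(b, r) + h(b, r)` in `ℤ/p(r)`. -/
def SN (D : Br K) (b r i x h : K) : Prop :=
  ∀ q j k, op r q ∈ D.p → op (op b r) j ∈ x → op (op b r) k ∈ h →
    ∃ s, op (op j k) s ∈ D.ad ∧ (s = i ∨ op (op i q) s ∈ D.ad)

/-- The partial function `f` is good: for every node and every finite set of branches the values of
`f` at this node, and the zeros prescribed by `n`, are those of `a(F) + h` for some `h ∈ H`. -/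
def GoodF (D : Br K) (H a n f : K) : Prop :=
  (∀ z, z ∈ f → ∃ b r i q, z = op (op b r) i ∧ op r q ∈ D.p ∧ i ∈ q) ∧
  ∀ r F x, r ∈ D.T → op F x ∈ a → ∃ h, h ∈ H ∧ ∀ b, b ∈ F → Sb r b →
    (∀ i, op (op b r) i ∈ f → SN D b r i x h) ∧
    ((∃ k, k ∈ (SigB.om : K) ∧ r ∈ fs k SigB.om ∧ Sb (ap n b) k) → SN D b r SigB.em x h)

theorem GoodF.dfn (D : Br K) (H a n : K) : Dfn fun w : Fin 1 → K => GoodF D H a n (w 0) := by
  unfold GoodF SN
  simp (maxDischargeDepth := 50)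

theorem natCast_sum_iff {q a b v : ℕ} (ha : a < q) (hb : b < q) (hv : v < q) :
    (a + b = v ∨ a + b = v + q) ↔ (v : ZMod q) = (a : ZMod q) + (b : ZMod q) := by
  rw [← Nat.cast_add, ZMod.natCast_eq_natCast_iff, Nat.ModEq, Nat.mod_eq_of_lt hv]
  by_cases h : a + b < q
  · rw [Nat.mod_eq_of_lt h]
    omega
  · rw [Nat.mod_eq_sub_mod (by omega), Nat.mod_eq_of_lt (by omega)]
    omega

variable {D : Br K} {c : J → ℕ → ℕ} {p : List ℕ → ℕ} {bc : J → K}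

/-- The reading of a partial function. -/
def rdF (bc : J → K) (f : K) : J → List ℕ → ℕ → Prop :=
  fun j s v => op (op (bc j) (sq K s)) (nt K v) ∈ f

/-- The set of the pairs `(b, r)` with `b ∈ B`, `r ∈ T` and `r ⊆ b`. -/
noncomputable def nodes (D : Br K) : K := sp (pd D.B D.T) fun z => Sb (snd z) (fst z)

namespace Rd

variable (R : Rd D c p bc)
include R

theorem add : IsAdd D.ad (SigB.om : K) := R.is.add_om

theorem op_mem_elt {x : K} (hx : D.IsElt x) {j : J} {s : List ℕ} (hpre : Pre s (c j)) {w : K} :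
    op (op (bc j) (sq K s)) w ∈ x ↔ w = nt K (co (R.rd x) j s).val := by
  rw [← val2_iff, R.val_iff hx]
  constructor
  · rintro ⟨j', s', h1, h2, -, rfl⟩
    rw [R.bc_inj h1, sq_inj h2]
  · rintro rfl
    exact ⟨j, s, rfl, rfl, hpre, rfl⟩

theorem sn_iff {x h : K} (hx : D.IsElt x) (hh : D.IsElt h) {j : J} {s : List ℕ}
    (hpre : Pre s (c j)) {v : ℕ} (hv : v < p s) :
    SN D (bc j) (sq K s) (nt K v) x h ↔
      (v : ZMod (p s)) = co (R.rd x) j s + co (R.rd h) j s := by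
  have : NeZero (p s) := ⟨(R.prime s).ne_zero⟩
  have e1 := natCast_sum_iff (ZMod.val_lt (co (R.rd x) j s)) (ZMod.val_lt (co (R.rd h) j s)) hv
  rw [ZMod.natCast_zmod_val, ZMod.natCast_zmod_val] at e1
  rw [← e1]
  unfold SN
  constructor
  · intro H
    obtain ⟨w, h1, h2⟩ := H (nt K (p s)) _ _ (R.mem_p.2 ⟨s, rfl, rfl⟩)
      ((R.op_mem_elt hx hpre).2 rfl) ((R.op_mem_elt hh hpre).2 rfl)
    rw [← val2_iff, R.add.val] at h1
    subst h1
    rcases h2 with h2 | h2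
    · exact Or.inl (nt_inj h2)
    · rw [← val2_iff, R.add.val] at h2
      exact Or.inr (nt_inj h2)
  · intro H q i k hq hi hk
    obtain ⟨s', h1, rfl⟩ := R.mem_p.1 hq
    rw [← sq_inj h1]
    rw [R.op_mem_elt hx hpre] at hi
    rw [R.op_mem_elt hh hpre] at hk
    subst hi hk
    refine ⟨nt K ((co (R.rd x) j s).val + (co (R.rd h) j s).val), ?_, ?_⟩
    · rw [← val2_iff, R.add.val]
    · rcases H with H | H
      · exact Or.inl (by rw [H])
      · right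
        rw [← val2_iff, R.add.val, H]

theorem exists_code {H a : K} (ha : D.IsCauchy H a) (E : Finset J) :
    ∃ x, D.IsElt x ∧ Val a (fc bc E) x ∧ R.rd x = R.ra a E := by
  obtain ⟨h1, h2⟩ := (isFinite_iff_fc R.om R.mem_B).2 ⟨E, rfl⟩
  obtain ⟨x, hx, -⟩ := ha.val _ h1 h2
  have h3 := (R.val_a ha).1 hx
  exact ⟨x, h3.1, hx, h3.2⟩

variable {H a n : K} {n1 : J → ℕ}

theorem len_iff (hn1 : ∀ j, ap n (bc j) = nt K (n1 j)) {j : J} {s : List ℕ} :
    (∃ k, k ∈ (SigB.om : K) ∧ sq K s ∈ fs k SigB.om ∧ Sb (ap n (bc j)) k) ↔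
      n1 j ≤ s.length := by
  rw [hn1]
  constructor
  · rintro ⟨k, h2, h3, h4⟩
    obtain ⟨k, rfl⟩ := R.om _ h2
    obtain ⟨s', h5, h6⟩ := (mem_fs_nt_om R.om).1 h3
    rw [sb_nt, ← h5, ← sq_inj h6] at h4
    exact h4
  · intro h
    exact ⟨nt K s.length, nt_mem_om _, (mem_fs_nt_om R.om).2 ⟨s, rfl, rfl⟩, sb_nt.2 h⟩

theorem goodF_iff (hH : D.IsClosedSubgroup H) (ha : D.IsCauchy H a)
    (hn1 : ∀ j, ap n (bc j) = nt K (n1 j)) {f : K}
    (hf : ∀ z, z ∈ f → ∃ j s v, z = op (op (bc j) (sq K s)) (nt K v) ∧ Pre s (c j) ∧ v < p s) :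
    GoodF D H a n f ↔ Gd (R.rH hH) (R.ra a) n1 (rdF bc f) := by
  have hv : ∀ {j s v}, op (op (bc j) (sq K s)) (nt K v) ∈ f → v < p s := by
    intro j s v h
    obtain ⟨j', s', v', h1, h2, h3⟩ := hf _ h
    obtain ⟨h4, h5⟩ := op_inj.1 h1
    rw [sq_inj (op_inj.1 h4).2, nt_inj h5]
    exact h3
  constructor
  · rintro ⟨-, H1⟩ s E
    obtain ⟨x, hx, h1, h2⟩ := R.exists_code ha E
    obtain ⟨h, hh, h3⟩ := H1 (sq K s) _ x (R.mem_T.2 ⟨s, rfl⟩) (SigB.val_iff.1 h1)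
    refine ⟨R.rd h, (R.mem_rH hH).2 ⟨h, hh, rfl⟩, fun i hi hpre => ?_⟩
    obtain ⟨h4, h5⟩ := h3 (bc i) (mem_fc.2 ⟨i, hi, rfl⟩) (R.sb_iff.2 hpre)
    rw [← h2]
    refine ⟨fun v hvf => (R.sn_iff hx (hH.elt h hh) hpre (hv hvf)).1 (h4 _ hvf), fun hl => ?_⟩
    have h6 := (R.sn_iff hx (hH.elt h hh) hpre (R.prime s).pos).1
      (h5 ((R.len_iff hn1).2 hl))
    rw [← h6, Nat.cast_zero]
  · intro H1
    refine ⟨fun z hz => ?_, fun r F x hr hx => ?_⟩
    · obtain ⟨j, s, v, rfl, -, h2⟩ := hf z hz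
      exact ⟨bc j, sq K s, nt K v, nt K (p s), rfl, R.mem_p.2 ⟨s, rfl, rfl⟩, nt_mem_nt.2 h2⟩
    · obtain ⟨s, rfl⟩ := R.mem_T.1 hr
      have hx' : Val a F x := SigB.val_iff.2 hx
      obtain ⟨h1, h2⟩ := ha.dom F x hx'
      have h3 := ha.elt F x hx'
      obtain ⟨E, rfl⟩ := (isFinite_iff_fc R.om R.mem_B).1 ⟨h1, h2⟩
      obtain ⟨h, hh, H2⟩ := H1 s E
      obtain ⟨g, hg, rfl⟩ := (R.mem_rH hH).1 hh
      refine ⟨g, hg, fun b hb hsb => ?_⟩
      obtain ⟨j, hj, rfl⟩ := mem_fc.1 hb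
      have hpre := R.sb_iff.1 hsb
      obtain ⟨h4, h5⟩ := H2 j hj hpre
      rw [← ((R.val_a ha).1 hx').2] at h4 h5
      refine ⟨fun i hi => ?_, fun hl => ?_⟩
      · obtain ⟨j', s', v, h6, -, h7⟩ := hf _ hi
        obtain ⟨h8, rfl⟩ := op_inj.1 h6
        rw [← sq_inj (op_inj.1 h8).2] at h7
        exact (R.sn_iff h3 (hH.elt g hg) hpre h7).2 (h4 v hi)
      · refine (R.sn_iff (v := 0) h3 (hH.elt g hg) hpre (R.prime s).pos).2 ?_
        rw [h5 ((R.len_iff hn1).1 hl), Nat.cast_zero]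

theorem mem_nodes {z : K} : z ∈ nodes D ↔ ∃ j s, z = op (bc j) (sq K s) ∧ Pre s (c j) := by
  unfold nodes
  rw [mem_sp (by simp (maxDischargeDepth := 50)), mem_pd]
  constructor
  · rintro ⟨⟨b, hb, r, hr, rfl⟩, h⟩
    obtain ⟨j, rfl⟩ := (R.mem_B b).1 hb
    obtain ⟨s, rfl⟩ := R.mem_T.1 hr
    rw [fst_op, snd_op] at h
    exact ⟨j, s, rfl, R.sb_iff.1 h⟩
  · rintro ⟨j, s, rfl, h⟩
    rw [fst_op, snd_op]
    exact ⟨⟨_, (R.mem_B _).2 ⟨j, rfl⟩, _, R.mem_T.2 ⟨s, rfl⟩, rfl⟩, R.sb_iff.2 h⟩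

theorem valid_of_good {f X : K} (hX : Sb X (nodes D)) (hf : Fn f X) (hg : GoodF D H a n f) :
    ∀ z, z ∈ f → ∃ j s v, z = op (op (bc j) (sq K s)) (nt K v) ∧ Pre s (c j) ∧ v < p s := by
  intro z hz
  obtain ⟨b, r, i, q, h1, h2, h3⟩ := hg.1 z hz
  obtain ⟨w, hw, y, h4⟩ := hf.1 z hz
  obtain ⟨j, s, h5, h6⟩ := R.mem_nodes.1 (hX w hw)
  have h7 := op_inj.1 (h1.symm.trans h4)
  have h8 := op_inj.1 (h7.1.trans h5)
  obtain ⟨s', h9, rfl⟩ := R.mem_p.1 h2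
  obtain ⟨v, hv, rfl⟩ := mem_nt.1 h3
  have h10 : s' = s := sq_inj (h9.symm.trans h8.2)
  subst h10
  exact ⟨j, s', v, by rw [h1, h8.1, h8.2], h6, hv⟩

/-- A function `n` which uniformises a Cauchy family gives a limit. -/
theorem exists_limit (hH : D.IsClosedSubgroup H) (ha : D.IsCauchy H a)
    (hn1 : ∀ j, ap n (bc j) = nt K (n1 j))
    (hu : ∀ s (E : Finset J), (∀ i ∈ E, Pre s (c i) ∧ n1 i ≤ s.length) →
      ∃ h ∈ R.rH hH, ∀ i ∈ E, co h i s = co (R.ra a E) i s) :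
    ∃ y, D.IsElt y ∧ ∀ F x, Val a F x → ∃ h, h ∈ H ∧ ∀ b, b ∈ F → D.SumAt b y x h := by
  have hcoh := R.coh hH ha
  have hmono : ∀ f g : K, GoodF D H a n f → Sb g f → GoodF D H a n g := by
    rintro f g ⟨h1, h2⟩ hgf
    refine ⟨fun z hz => h1 z (hgf z hz), fun r F x hr hx => ?_⟩
    obtain ⟨h, hh, h3⟩ := h2 r F x hr hx
    exact ⟨h, hh, fun b hb hs => ⟨fun i hi => (h3 b hb hs).1 i (hgf _ hi), (h3 b hb hs).2⟩⟩
  have h0 : GoodF D H a n SigB.em := by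
    rw [R.goodF_iff hH ha hn1 fun z hz => (not_mem_em _ hz).elim]
    exact gd_mono (fun i s v h => not_mem_em _ h) (gd_empty hcoh hu)
  obtain ⟨y, hy, hg, hQ⟩ := exists_total (X := nodes D) (Q := SigB.om)
    (Gd := fun f => GoodF D H a n f) (GoodF.dfn D H a n) h0
    (fun f _ _ _ hf g hg _ => hmono f g hf hg) (by
      intro f X hX hf hfin
      refine ⟨fun z hz => ?_, fun r F x hr hx => ?_⟩
      · exact (hfin (pr z z) (fun w hw => by rwa [(mem_pr.1 hw).elim id id])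
          (fte_single z)).1 z (mem_pr.2 (Or.inl rfl))
      · have hF : Fte F := by
          have h1 := (ha.dom F x (SigB.val_iff.2 hx)).1
          exact Forc.isFinite_iff.1 h1
        have hd : Dfn fun w : Fin 1 → K => ∃ b i, b ∈ F ∧ w 0 = op (op b r) i := by
          simp (maxDischargeDepth := 50)
        have hs : Fte (sp f fun z => ∃ b i, b ∈ F ∧ z = op (op b r) i) := by
          have hdt : DT fun w : Fin 1 → K => op (op (w 0) r) (ap f (op (w 0) r)) := by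
            simp (maxDischargeDepth := 50)
          refine (hF.im (F := fun b => op (op b r) (ap f (op b r))) hdt).sub fun z hz => ?_
          obtain ⟨h1, b, i, hb, rfl⟩ := (mem_sp hd).1 hz
          refine (mem_im (F := fun b => op (op b r) (ap f (op b r))) hdt).2 ⟨b, hb, ?_⟩
          obtain ⟨w, hw, y, h2⟩ := hf.1 _ h1
          obtain ⟨rfl, rfl⟩ := op_inj.1 h2
          rw [(hf.op_mem_iff hw).1 h1]
        obtain ⟨h, hh, h3⟩ := (hfin _ (fun w hw => ((mem_sp hd).1 hw).1) hs).2 r F x hr hx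
        exact ⟨h, hh, fun b hb hsb => ⟨fun i hi => (h3 b hb hsb).1 i
          ((mem_sp hd).2 ⟨hi, b, i, hb, rfl⟩), (h3 b hb hsb).2⟩⟩) (by
      intro f X hX hf hg x hx hxX
      obtain ⟨j, s, rfl, hpre⟩ := R.mem_nodes.1 hx
      have hval := R.valid_of_good hX hf hg
      rw [R.goodF_iff hH ha hn1 hval] at hg
      obtain ⟨v, hv, h1⟩ := gd_step R.prime hcoh hg j s (fun v h => hxX (by
        obtain ⟨w, hw, y, h2⟩ := hf.1 _ h
        rw [(op_inj.1 h2).1]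
        exact hw)) hpre
      refine ⟨nt K v, nt_mem_om v, ?_⟩
      rw [R.goodF_iff hH ha hn1]
      · refine gd_mono (fun i t w h => ?_) h1
        rcases mem_ins.1 h with h | h
        · exact Or.inl h
        · obtain ⟨h2, h3⟩ := op_inj.1 h
          obtain ⟨h4, h5⟩ := op_inj.1 h2
          exact Or.inr ⟨R.bc_inj h4, sq_inj h5, nt_inj h3⟩
      · intro z hz
        rcases mem_ins.1 hz with hz | rfl
        · exact hval z hz
        · exact ⟨j, s, v, rfl, hpre, hv⟩)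
  have hval := R.valid_of_good (Sb.refl _) hy hg
  rw [R.goodF_iff hH ha hn1 hval] at hg
  have htot : ∀ j s, Pre s (c j) → ∃ v, op (op (bc j) (sq K s)) (nt K v) ∈ y ∧ v < p s ∧
      ∀ w, op (op (bc j) (sq K s)) w ∈ y → w = nt K v := by
    intro j s hpre
    have h1 : op (bc j) (sq K s) ∈ nodes D := R.mem_nodes.2 ⟨j, s, rfl, hpre⟩
    obtain ⟨w, h2, h3⟩ := hy.2 _ h1
    obtain ⟨j', s', v, h4, h5, h6⟩ := hval _ h2
    obtain ⟨h7, rfl⟩ := op_inj.1 h4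
    rw [← sq_inj (op_inj.1 h7).2] at h6
    exact ⟨v, h2, h6, h3⟩
  have helt : D.IsElt y := by
    refine ⟨fun z hz => ?_, fun b r hb hr hs => ?_, fun b hb => ?_⟩
    · obtain ⟨j, s, v, rfl, h1, h2⟩ := hval z hz
      exact ⟨bc j, sq K s, op (bc j) (sq K s), nt K v, nt K (p s), (R.mem_B _).2 ⟨j, rfl⟩,
        R.mem_T.2 ⟨s, rfl⟩, R.sb_iff.2 h1, isOrdPair_iff.2 rfl, isOrdPair_iff.2 rfl,
        SigB.val_iff.2 (R.mem_p.2 ⟨s, rfl, rfl⟩), nt_mem_nt.2 h2⟩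
    · obtain ⟨j, rfl⟩ := (R.mem_B b).1 hb
      obtain ⟨s, rfl⟩ := R.mem_T.1 hr
      obtain ⟨v, h1, -, h2⟩ := htot j s (R.sb_iff.1 hs)
      exact ⟨nt K v, val2_iff.2 h1, fun w hw => h2 w (val2_iff.1 hw)⟩
    · obtain ⟨j, rfl⟩ := (R.mem_B b).1 hb
      refine ⟨nt K (n1 j), by rw [R.o_eq]; exact nt_mem_om _, fun r k z hk hr hm hs hz => ?_⟩
      rw [R.o_eq] at hk hr
      obtain ⟨k, rfl⟩ := R.om _ hk
      obtain ⟨s, rfl, rfl⟩ := (mem_fs_nt_om R.om).1 (isMap_iff.1 hr)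
      have hpre : Pre s (c j) := R.sb_iff.1 hs
      obtain ⟨v, h1, h2, h3⟩ := htot j s hpre
      have h4 := gd_zero hg (i := j) (s := s) (v := v) h1 hpre (sb_nt.1 hm) h2
      subst h4
      rw [isZero_iff.1 hz]
      exact val2_iff.2 h1
  have hlim := limit_of_nodes R.prime R.p_inj (fun x hx s => R.cmp_mem_G0 hx s) (R.rH_le hH)
    (R.relClosed hH) (R.ra a) (R.rd y) (gd_nodes (R.rd y) hg (by
      intro j s hpre
      obtain ⟨v, h1, h2, h3⟩ := htot j s hpre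
      refine ⟨v, h1, ?_⟩
      have : NeZero (p s) := ⟨(R.prime s).ne_zero⟩
      have h4 := nt_inj ((R.op_mem_elt helt hpre).1 h1)
      rw [h4, ZMod.natCast_zmod_val]))
  refine ⟨y, helt, fun F x hx => ?_⟩
  obtain ⟨h1, h2⟩ := ha.dom F x hx
  have h3 := ha.elt F x hx
  obtain ⟨E, rfl⟩ := (isFinite_iff_fc R.om R.mem_B).1 ⟨h1, h2⟩
  obtain ⟨h, hh, h4⟩ := hlim E
  obtain ⟨g, hg', rfl⟩ := (R.mem_rH hH).1 hh
  refine ⟨g, hg', fun b hb => ?_⟩
  obtain ⟨j, hj, rfl⟩ := mem_fc.1 hb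
  rw [R.sumAt_iff helt h3 (hH.elt g hg'), ((R.val_a ha).1 hx).2]
  exact h4 j hj

end Rd

end Pool.Agent.Unif
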