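import Pool.Agent.GPA.MCod
import Pool.Agent.Frc.Zfc
import Pool.Agent.Frc.CH
import Pool.Agent.Work.MP_c629c8_al.Unif.Defs

/-!
# The generic extension of a countable elementary submodel by a partial order

`g : PGn Q M N` consists of a countable elementary submodel `M` of the universe which contains the
partial order `Q`, a generic filter and the generic extension `N`.
-/

set_option linter.unusedSectionVars false

namespace Pool.Agent.Unif

open Pool.Agent.SigB Pool.Agent.Frc Pool.Agent.Forc Pool.Agent.GPA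

/-- The order of `Q` as a set of pairs. -/
def leQ (Q : Type) [PartialOrder Q] : Set (Q × Q) := {w | w.1 ≤ w.2}

/-- A countable elementary submodel `M` (with inclusion `j`), a generic filter `G` and the
extension `N`. -/
structure PGn (Q : Type) [PartialOrder Q] [OrderTop Q] [Cod Q] (M N : Type 1) [Membership M M]
    [IsZFC M] [Membership N N] [IsZFC N] where
  j : M → V
  P : M
  le : M
  one : M
  G : M → Prop
  val : M → N
  sub : ElSub M j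
  jP : j P = cd (Set.univ : Set Q)
  jle : j le = cd (leQ Q)
  jone : j one = cd (⊤ : Q)
  ex : Ext P le one G val

/-- The extension exists, with a given countable set of parameters in `M`. -/
theorem exists_pgn (Q : Type) [PartialOrder Q] [OrderTop Q] [Cod Q] {A : Set V}
    (hA : A.Countable) :
    ∃ (M N : Type 1) (_ : Membership M M) (_ : IsZFC M) (_ : Membership N N) (_ : IsZFC N)
      (g : PGn Q M N), ∀ a ∈ A, ∃ m, g.j m = a := by
  obtain ⟨M, mM, j, hj, hA'⟩ := exists_sub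
    (A := A ∪ {cd (Set.univ : Set Q), cd (leQ Q), cd (⊤ : Q)})
    (hA.union (Set.toFinite _).countable)
  have : IsZFC M := hj.zfc
  have : Countable M := hj.cnt
  obtain ⟨P, hP⟩ := hA' (cd (Set.univ : Set Q)) (Or.inr (by simp))
  obtain ⟨le, hle⟩ := hA' (cd (leQ Q)) (Or.inr (by simp))
  obtain ⟨one, hone⟩ := hA' (cd (⊤ : Q)) (Or.inr (by simp))
  have hPm : ∀ {p : M}, p ∈ P ↔ ∃ q : Q, j p = cd q := by
    intro p
    rw [← hj.mem, hP, mem_cd_set]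
    simp
  have hlem : ∀ {p q : M}, SigB.op p q ∈ le ↔ ∃ a b : Q, a ≤ b ∧ j p = cd a ∧ j q = cd b := by
    intro p q
    rw [← hj.mem, hj.op, hle, mem_cd_set]
    constructor
    · rintro ⟨w, hw, h⟩
      obtain ⟨h1, h2⟩ := SigB.op_inj.1 h
      exact ⟨w.1, w.2, hw, h1, h2⟩
    · rintro ⟨a, b, hab, h1, h2⟩
      exact ⟨(a, b), hab, by rw [h1, h2]; rfl⟩
  have hPO : PO P le one := by
    refine ⟨?_, ?_, ?_, ?_, ?_⟩
    · intro p q h
      obtain ⟨a, b, -, h1, h2⟩ := hlem.1 h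
      exact ⟨hPm.2 ⟨a, h1⟩, hPm.2 ⟨b, h2⟩⟩
    · intro p h
      obtain ⟨a, h1⟩ := hPm.1 h
      exact hlem.2 ⟨a, a, le_rfl, h1, h1⟩
    · intro p q r h h'
      obtain ⟨a, b, hab, h1, h2⟩ := hlem.1 h
      obtain ⟨b', c, hbc, h3, h4⟩ := hlem.1 h'
      have h5 : b = b' := Cod.inj (h2.symm.trans h3)
      subst h5
      exact hlem.2 ⟨a, c, hab.trans hbc, h1, h4⟩
    · exact hPm.2 ⟨⊤, hone⟩
    · intro p h
      obtain ⟨a, h1⟩ := hPm.1 h
      exact hlem.2 ⟨a, ⊤, le_top, h1, hone⟩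
  obtain ⟨G, hG, -⟩ := exists_gen hPO hPO.one_mem
  obtain ⟨N, mN, val, hE⟩ := exists_ext hPO hG
  have : IsZFC N := hE.isZFC
  exact ⟨M, N, mM, inferInstance, mN, hE.isZFC,
    ⟨j, P, le, one, G, val, hj, hP, hle, hone, hE⟩, fun a ha => hA' a (Or.inl ha)⟩

section

variable {Q : Type} [PartialOrder Q] [OrderTop Q] [Cod Q] {M N : Type 1} [Membership M M]
  [IsZFC M] [Membership N N] [IsZFC N] (g : PGn Q M N)

/-- The elements of the list belong to `M`. -/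
def PGn.Has (l : List V) : Prop := ∀ a ∈ l, ∃ m, g.j m = a

/-- The copy of an element of `M`. -/
noncomputable def PGn.cp (m : M) : N := g.val (ck g.one m)

theorem PGn.finHom : FinHom g.cp := ⟨g.ex.cv_em, g.ex.cv_pr, g.ex.cv_un⟩

theorem PGn.cp_mem {x y : M} : g.cp x ∈ g.cp y ↔ x ∈ y := g.ex.cv_mem

theorem PGn.cp_op (x y : M) : g.cp (SigB.op x y) = SigB.op (g.cp x) (g.cp y) := g.ex.cv_op x y

theorem PGn.mem_cp {x : N} {y : M} : x ∈ g.cp y ↔ ∃ z ∈ y, g.cp z = x := by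
  constructor
  · intro h
    obtain ⟨z, hz, h1⟩ := g.ex.mem_cv.1 h
    exact ⟨z, hz, h1.symm⟩
  · rintro ⟨z, hz, rfl⟩
    exact g.cp_mem.2 hz

include g in
theorem PGn.om_N : Om N := by
  intro x hx
  rw [← g.ex.cv_om] at hx
  obtain ⟨y, hy, rfl⟩ := g.ex.mem_cv.1 hx
  obtain ⟨n, rfl⟩ := g.sub.om_M y hy
  exact ⟨n, g.finHom.nt n⟩

/-- The condition `q` belongs to the generic filter. -/
def PGn.GQ (q : Q) : Prop := ∃ m, g.j m = cd q ∧ g.G m

variable {g}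

theorem PGn.inM_of_GQ {q : Q} (h : g.GQ q) : InM g.j q := by
  obtain ⟨m, hm, -⟩ := h
  exact ⟨m, hm⟩

theorem PGn.GQ_iff {q : Q} {m : M} (h : g.j m = cd q) : g.GQ q ↔ g.G m := by
  constructor
  · rintro ⟨m', hm', h'⟩
    rwa [← g.sub.inj (hm'.trans h.symm)]
  · intro h'
    exact ⟨m, h, h'⟩

/-- Elements of the filter are conditions. -/
theorem PGn.exists_of_G {m : M} (h : g.G m) : ∃ q : Q, g.j m = cd q ∧ g.GQ q := by
  have h1 : g.j m ∈ g.j g.P := g.sub.mem.2 (g.ex.gen.mem m h)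
  rw [g.jP] at h1
  obtain ⟨q, -, hq⟩ := mem_cd_set.1 h1
  exact ⟨q, hq, m, hq, h⟩

theorem PGn.op_mem_le {m m' : M} {q r : Q} (h : g.j m = cd q) (h' : g.j m' = cd r) :
    SigB.op m m' ∈ g.le ↔ q ≤ r := by
  rw [← g.sub.mem, g.sub.op, g.jle, h, h', ← cd_pair, cd_mem_cd]
  rfl

theorem PGn.exists_of_mem_P {m : M} (h : m ∈ g.P) : ∃ q : Q, g.j m = cd q := by
  rw [← g.sub.mem, g.jP, mem_cd_set] at h
  obtain ⟨q, -, hq⟩ := h
  exact ⟨q, hq⟩

theorem PGn.mem_P {q : Q} {m : M} (hm : g.j m = cd q) : m ∈ g.P := by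
  rw [← g.sub.mem, g.jP, hm, cd_mem_cd]
  trivial

theorem PGn.top_GQ : g.GQ ⊤ := ⟨g.one, g.jone, g.ex.gen.one⟩

theorem PGn.GQ_up {q r : Q} (h : g.GQ q) (hr : InM g.j r) (hqr : q ≤ r) : g.GQ r := by
  obtain ⟨m, hm, hG⟩ := h
  obtain ⟨m', hm'⟩ := hr
  exact ⟨m', hm', g.ex.gen.up m m' hG ((g.op_mem_le hm hm').2 hqr)⟩

theorem PGn.GQ_dir {q r : Q} (hq : g.GQ q) (hr : g.GQ r) : ∃ s, g.GQ s ∧ s ≤ q ∧ s ≤ r := by
  obtain ⟨m, hm, hG⟩ := hq
  obtain ⟨m', hm', hG'⟩ := hr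
  obtain ⟨k, hk, h1, h2⟩ := g.ex.gen.dir m m' hG hG'
  obtain ⟨s, hs, hs'⟩ := g.exists_of_G hk
  exact ⟨s, hs', (g.op_mem_le hs hm).1 h1, (g.op_mem_le hs hm').1 h2⟩

/-- Finitely many conditions of the filter have a lower bound in the filter. -/
theorem PGn.GQ_fin {α : Type*} (s : Finset α) (q : α → Q) (h : ∀ a ∈ s, g.GQ (q a)) :
    ∃ r, g.GQ r ∧ ∀ a ∈ s, r ≤ q a := by
  classical
  induction s using Finset.induction_on with
  | empty => exact ⟨⊤, g.top_GQ, by simp⟩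
  | insert a s ha ih =>
    obtain ⟨r, hr, h1⟩ := ih fun b hb => h b (Finset.mem_insert_of_mem hb)
    obtain ⟨t, ht, h2, h3⟩ := g.GQ_dir hr (h a (Finset.mem_insert_self a s))
    refine ⟨t, ht, fun b hb => ?_⟩
    rcases Finset.mem_insert.1 hb with rfl | hb
    · exact h3
    · exact h2.trans (h1 b hb)

/-- A dense set of `M` has elements in `M`. -/
theorem PGn.inM_below {D : Set Q} (hD : InM g.j D) {q : Q} (hq : InM g.j q)
    (h : ∃ r ≤ q, r ∈ D) : ∃ r ≤ q, InM g.j r ∧ r ∈ D := by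
  obtain ⟨r, hr, hrD⟩ := h
  obtain ⟨s, hs, hs'⟩ := inM_wit1 g.sub (inM_inter g.sub
    (inM_sec g.sub (r := leQ Q) ⟨g.le, g.jle⟩ hq) hD) ⟨r, hr, hrD⟩
  exact ⟨s, hs'.1, hs, hs'.2⟩

/-- Genericity. -/
theorem PGn.gen {D : Set Q} (hD : InM g.j D) {q₀ : Q} (h0 : g.GQ q₀)
    (hd : ∀ q ≤ q₀, ∃ r ≤ q, r ∈ D) : ∃ q ≤ q₀, g.GQ q ∧ q ∈ D := by
  obtain ⟨m₀, hm₀, hG₀⟩ := h0
  obtain ⟨d, hd'⟩ := inM_inter g.sub
    (inM_sec g.sub (r := leQ Q) ⟨g.le, g.jle⟩ ⟨m₀, hm₀⟩) hD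
  have hm : ∀ {m : M} {q : Q}, g.j m = cd q → (m ∈ d ↔ q ≤ q₀ ∧ q ∈ D) := by
    intro m q h
    rw [← g.sub.mem, hd', h, cd_mem_cd]
    rfl
  obtain ⟨s, hs, hs'⟩ := g.ex.gen.below g.ex.po (Q := fun s => s ∈ d)
    (by simp (maxDischargeDepth := 50)) hG₀ (by
      intro m hmm
      obtain ⟨q, -, hq⟩ := mem_cd_set.1 (by
        have := g.sub.mem.2 (g.ex.po.sub _ _ hmm).1
        rwa [g.jP] at this : g.j m ∈ cd (Set.univ : Set Q))
      have hqq := (g.op_mem_le hq hm₀).1 hmm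
      obtain ⟨r, hr, ⟨k, hk⟩, hrD⟩ := g.inM_below hD ⟨m, hq⟩ (hd q hqq)
      exact ⟨k, (g.op_mem_le hk hq).2 hr, (hm hk).2 ⟨hr.trans hqq, hrD⟩⟩)
  obtain ⟨q, hq, hq'⟩ := g.exists_of_G hs
  obtain ⟨h1, h2⟩ := (hm hq).1 hs'
  exact ⟨q, h1, hq', h2⟩

/-- The generic filter as a set of `N`. -/
noncomputable def PGn.Γ (g : PGn Q M N) : N := g.val (gnm g.one g.P)

theorem PGn.mem_Γ {x : N} : x ∈ g.Γ ↔ ∃ (m : M) (q : Q), g.j m = cd q ∧ g.GQ q ∧ x = g.cp m := by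
  constructor
  · intro h
    obtain ⟨p, hp, rfl⟩ := g.ex.mem_gnm.1 h
    obtain ⟨q, hq1, hq2⟩ := g.exists_of_G hp
    exact ⟨p, q, hq1, hq2, rfl⟩
  · rintro ⟨m, q, hm, hq, rfl⟩
    exact g.ex.mem_gnm.2 ⟨m, (g.GQ_iff hm).1 hq, rfl⟩

/-! ### Copies of elements -/

open Classical in
/-- The element of `M` with the code `s`. -/
noncomputable def PGn.pre (g : PGn Q M N) (s : V) : M :=
  if h : ∃ m, g.j m = s then h.choose else g.P

theorem PGn.pre_spec {g : PGn Q M N} {α : Type} [Cod α] {a : α} (h : InM g.j a) :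
    g.j (g.pre (cd a)) = cd a := by
  have h' : ∃ m, g.j m = cd a := h
  unfold PGn.pre
  rw [dif_pos h']
  exact h'.choose_spec

theorem PGn.pre_eq {g : PGn Q M N} {α : Type} [Cod α] {a : α} {m : M} (h : g.j m = cd a) :
    g.pre (cd a) = m := g.sub.inj ((PGn.pre_spec ⟨m, h⟩).trans h.symm)

/-- The copy in `N` of the code of `a`. -/
noncomputable def PGn.el (g : PGn Q M N) {α : Type} [Cod α] (a : α) : N := g.cp (g.pre (cd a))

theorem PGn.el_eq {g : PGn Q M N} {α : Type} [Cod α] {a : α} {m : M} (h : g.j m = cd a) :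
    g.el a = g.cp m := by
  rw [PGn.el, g.pre_eq h]

theorem PGn.el_inj {g : PGn Q M N} {α : Type} [Cod α] {a b : α} (ha : InM g.j a)
    (hb : InM g.j b) : g.el a = g.el b ↔ a = b := by
  constructor
  · intro h
    have h1 := g.ex.cv_inj.1 h
    refine Cod.inj ?_
    rw [← PGn.pre_spec ha, ← PGn.pre_spec hb, h1]
  · rintro rfl
    rfl

/-- Elements of the copy of a set. -/
theorem PGn.mem_el {g : PGn Q M N} {α : Type} [Cod α] {s : Set α} (hs : InM g.j s) {z : N} :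
    z ∈ g.el s ↔ ∃ a, InM g.j a ∧ a ∈ s ∧ z = g.el a := by
  constructor
  · intro h
    obtain ⟨y, hy, rfl⟩ := g.mem_cp.1 h
    have h1 : g.j y ∈ cd s := by
      rw [← PGn.pre_spec hs]
      exact g.sub.mem.2 hy
    obtain ⟨a, ha, hya⟩ := mem_cd_set.1 h1
    exact ⟨a, ⟨y, hya⟩, ha, (PGn.el_eq hya).symm⟩
  · rintro ⟨a, ha, has, rfl⟩
    refine g.cp_mem.2 (g.sub.mem.1 ?_)
    rw [PGn.pre_spec hs, PGn.pre_spec ha]
    exact cd_mem_cd.2 has

theorem PGn.el_mem_el {g : PGn Q M N} {α : Type} [Cod α] {s : Set α} (hs : InM g.j s) {a : α}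
    (ha : InM g.j a) : g.el a ∈ g.el s ↔ a ∈ s := by
  rw [PGn.mem_el hs]
  constructor
  · rintro ⟨b, hb, hbs, h⟩
    rwa [(PGn.el_inj ha hb).1 h]
  · exact fun h => ⟨a, ha, h, rfl⟩

theorem PGn.el_pair {g : PGn Q M N} {α β : Type} [Cod α] [Cod β] {a : α} {b : β}
    (ha : InM g.j a) (hb : InM g.j b) : g.el (a, b) = SigB.op (g.el a) (g.el b) := by
  obtain ⟨m, hm⟩ := ha
  obtain ⟨n, hn⟩ := hb
  have h : g.j (SigB.op m n) = cd (a, b) := by rw [g.sub.op, hm, hn, cd_pair]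
  rw [PGn.el_eq h, PGn.el_eq hm, PGn.el_eq hn, g.cp_op]

theorem PGn.el_nat (g : PGn Q M N) (n : ℕ) : g.el n = nt N n := by
  rw [PGn.el_eq (m := nt M n) (g.sub.finHom.nt n)]
  exact g.finHom.nt n

theorem PGn.mem_Γ' {x : N} : x ∈ g.Γ ↔ ∃ q : Q, g.GQ q ∧ x = g.el q := by
  rw [PGn.mem_Γ]
  constructor
  · rintro ⟨m, q, hm, hq, rfl⟩
    exact ⟨q, hq, (PGn.el_eq hm).symm⟩
  · rintro ⟨q, hq, rfl⟩
    obtain ⟨m, hm⟩ := PGn.inM_of_GQ hq
    exact ⟨m, q, hm, hq, PGn.el_eq hm⟩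

end

instance {R : List ℕ → ℕ → ℕ → ℕ} {I : Type} (F : UFrame R I) : PartialOrder F.Q := F.pQ
instance {R : List ℕ → ℕ → ℕ → ℕ} {I : Type} (F : UFrame R I) : OrderTop F.Q := F.tQ
noncomputable instance {R : List ℕ → ℕ → ℕ → ℕ} {I : Type} (F : UFrame R I) : Cod F.Q := Cod.any _

/-- The generic extension for a frame. -/
abbrev UGn {R : List ℕ → ℕ → ℕ → ℕ} {I : Type} (F : UFrame R I) (M N : Type 1) [Membership M M]
    [IsZFC M] [Membership N N] [IsZFC N] := PGn F.Q M N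

end Pool.Agent.Unif
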