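import Pool.Agent.Work.MP_c629c8_al.Mod.UGn

/-!
# The forcing relation of a definable relation of the generic extension
-/

set_option linter.unusedSectionVars false

namespace Pool.Agent.Unif

open Pool.Agent.SigB Pool.Agent.Frc Pool.Agent.Forc Pool.Agent.GPA

section

variable {Q : Type} [PartialOrder Q] [OrderTop Q] [Cod Q] {M N : Type 1} [Membership M M]
  [IsZFC M] [Membership N N] [IsZFC N] {g : PGn Q M N} {α β : Type} [Cod α] [Cod β]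

variable (Q α β) in
/-- The parameters of this file. -/
noncomputable def parRel : List V :=
  [cd (Set.univ : Set (Q × (α × β))),
    cd {w : Set (Q × (α × β)) × ((Q × Q) × (α × β)) | w.2.1.2 ≤ w.2.1.1 ∧
      (w.2.1.1, w.2.2) ∈ w.1 ∧ (w.2.1.2, w.2.2) ∉ w.1},
    cd {w : Set (Q × (α × β)) × (Q × (α × β)) | (∀ r ≤ w.2.1, ∃ s ≤ r, (s, w.2.2) ∈ w.1) ∧
      w.2 ∉ w.1},
    cd {w : (Set (Q × (α × β)) × (Q × (α × β))) × Q | w.2 ≤ w.1.2.1 ∧ (w.2, w.1.2.2) ∈ w.1.1}]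

/-- Downward closed. -/
def DownC (R : Set (Q × (α × β))) : Prop := ∀ q r a, r ≤ q → (q, a) ∈ R → (r, a) ∈ R

/-- Local. -/
def LocC (R : Set (Q × (α × β))) : Prop :=
  ∀ q a, (∀ r ≤ q, ∃ s ≤ r, (s, a) ∈ R) → (q, a) ∈ R

/-- The forcing relation of a definable relation between copies of elements of `M`. -/
theorem PGn.exists_rel (hp : g.Has (parRel Q α β)) {S : N → N → Prop}
    (hS : Dfn fun w : Fin 2 → N => S (w 0) (w 1)) :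
    ∃ R : Set (Q × (α × β)), InM g.j R ∧ DownC R ∧ LocC R ∧ ∀ (a : α) (b : β) (m m' : M),
      g.j m = cd a → g.j m' = cd b →
      (S (g.cp m) (g.cp m') ↔ ∃ q, g.GQ q ∧ (q, (a, b)) ∈ R) := by
  have h0 : InM g.j (Set.univ : Set (Q × (α × β))) := hp _ (by simp [parRel])
  have h1 : InM g.j {w : Set (Q × (α × β)) × ((Q × Q) × (α × β)) | w.2.1.2 ≤ w.2.1.1 ∧
      (w.2.1.1, w.2.2) ∈ w.1 ∧ (w.2.1.2, w.2.2) ∉ w.1} := hp _ (by simp [parRel])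
  have h2 : InM g.j {w : Set (Q × (α × β)) × (Q × (α × β)) |
      (∀ r ≤ w.2.1, ∃ s ≤ r, (s, w.2.2) ∈ w.1) ∧ w.2 ∉ w.1} := hp _ (by simp [parRel])
  have h3 : InM g.j {w : (Set (Q × (α × β)) × (Q × (α × β))) × Q | w.2 ≤ w.1.2.1 ∧
      (w.2, w.1.2.2) ∈ w.1.1} := hp _ (by simp [parRel])
  obtain ⟨Φ, hΦ, -, hmono, hdense, htr⟩ := g.ex.forcing2 hS
  have hΦ' : ∀ {n : ℕ} {s t r : (Fin n → M) → M}, DT s → DT t → DT r →
      Dfn fun v => Φ (s v) (t v) (r v) := fun hs ht hr => dfn3 hΦ hs ht hr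
  obtain ⟨R, hR, -, hRm⟩ := exists_inM_of_dfn g.sub h0
    (Q := fun m => ∃ p a b, m = SigB.op p (SigB.op a b) ∧ Φ p (ck g.one a) (ck g.one b))
    (by simp (maxDischargeDepth := 50) [hΦ'])
  have key : ∀ {m a b : M} {q : Q} {f : α} {h : β}, g.j m = cd q → g.j a = cd f →
      g.j b = cd h → ((q, (f, h)) ∈ R ↔ Φ m (ck g.one a) (ck g.one b)) := by
    intro m a b q f h hm ha hb
    have hj : g.j (SigB.op m (SigB.op a b)) = cd (q, (f, h)) := by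
      rw [g.sub.op, g.sub.op, hm, ha, hb]; rfl
    rw [hRm _ _ hj]
    constructor
    · rintro ⟨-, p, a', b', he, hF⟩
      obtain ⟨e1, e2⟩ := SigB.op_inj.1 he
      obtain ⟨e3, e4⟩ := SigB.op_inj.1 e2
      rwa [e1, e3, e4]
    · exact fun hF => ⟨trivial, m, a, b, rfl, hF⟩
  have hD : DownC R := by
    by_contra hno
    unfold DownC at hno
    push Not at hno
    obtain ⟨q, r, a, hrq, hq, hr⟩ := hno
    obtain ⟨⟨⟨q', r'⟩, ⟨f, h⟩⟩, hw, hw1, hw2, hw3⟩ := inM_wit g.sub h1 hR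
      ⟨((q, r), a), hrq, hq, hr⟩
    obtain ⟨hw4, hw5⟩ := (inM_pair g.sub).1 hw
    obtain ⟨⟨m, hm⟩, ⟨n, hn⟩⟩ := (inM_pair g.sub).1 hw4
    obtain ⟨⟨a', ha'⟩, ⟨b', hb'⟩⟩ := (inM_pair g.sub).1 hw5
    exact hw3 ((key hn ha' hb').2 (hmono _ _ _ _ ((key hm ha' hb').1 hw2)
      ((g.op_mem_le hn hm).2 hw1)))
  refine ⟨R, hR, hD, ?_, ?_⟩
  · by_contra hno
    unfold LocC at hno
    push Not at hno
    obtain ⟨q, a, hq, ha⟩ := hno
    obtain ⟨⟨q', ⟨f, h⟩⟩, hw, hw1, hw2⟩ := inM_wit g.sub h2 hR ⟨(q, a), hq, ha⟩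
    obtain ⟨⟨m, hm⟩, hw5⟩ := (inM_pair g.sub).1 hw
    obtain ⟨⟨a', ha'⟩, ⟨b', hb'⟩⟩ := (inM_pair g.sub).1 hw5
    refine hw2 ((key hm ha' hb').2 (hdense _ _ _ (g.mem_P hm) fun n hn => ?_))
    obtain ⟨r, hr⟩ := g.exists_of_mem_P (g.ex.po.sub _ _ hn).1
    obtain ⟨s, hs, hs1, hs2⟩ := inM_wit g.sub h3 (a := (R, (r, (f, h))))
      ((inM_pair g.sub).2 ⟨hR, (inM_pair g.sub).2 ⟨⟨n, hr⟩, hw5⟩⟩)
      (hw1 r ((g.op_mem_le hr hm).1 hn))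
    obtain ⟨m', hm'⟩ := hs
    exact ⟨m', (g.op_mem_le hm' hr).2 hs1, (key hm' ha' hb').1 hs2⟩
  · rintro f h a b ha hb
    have h4 : S (g.cp a) (g.cp b) ↔ ∃ p, g.G p ∧ Φ p (ck g.one a) (ck g.one b) := by
      rw [← htr]
      rfl
    rw [h4]
    constructor
    · rintro ⟨p, hp1, hp2⟩
      obtain ⟨q, hq, hq'⟩ := g.exists_of_G hp1
      exact ⟨q, hq', (key hq ha hb).2 hp2⟩
    · rintro ⟨q, ⟨p, hp1, hp2⟩, hq⟩
      exact ⟨p, hp2, (key hp1 ha hb).1 hq⟩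

end

end Pool.Agent.Unif
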